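import Pool.Agent.Lib.MP_cc0c1a_nt.Tri3.Occ

set_option autoImplicit false

/-!
# MP_cc0c1a_nt / Tri3: the hull of the support, converse statements (helper60)
-/

open Finset
open scoped Classical
open Pool.Agent.Results.MP_cc0c1a_nt.SyndeticPositions (fin_eq_dig Config IsFin Shows F dig
  iter_F_dig)

namespace MPcc0Tri3

open MPcc0Tri

lemma outside_left {A r n : ℕ} {j : ℤ}
    (h : ∀ i ≤ j, F^[n] (dig ((A : ℝ) / 6 ^ r)) i = 0) :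
    (6 : ℝ) ^ j * ((A : ℝ) / 6 ^ r * (3 / 2) ^ n) < 1 := by
  by_contra hcon
  push Not at hcon
  obtain ⟨y, hy⟩ : ∃ y : ℝ, y = (6 : ℝ) ^ j * ((A : ℝ) / 6 ^ r * (3 / 2) ^ n) := ⟨_, rfl⟩
  rw [← hy] at hcon
  obtain ⟨N, hN⟩ : ∃ N : ℕ, N = ⌊y⌋₊ := ⟨_, rfl⟩
  have hN1 : 1 ≤ N := by
    rw [hN]
    exact (Nat.one_le_floor_iff y).2 hcon
  obtain ⟨k, hk⟩ : ∃ k : ℕ, k = Nat.log 6 N := ⟨_, rfl⟩
  have h1 : 6 ^ k ≤ N := by rw [hk]; exact Nat.pow_log_le_self 6 (by omega)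
  have h2 : N < 6 ^ (k + 1) := by rw [hk]; exact Nat.lt_pow_succ_log_self (by norm_num) N
  have h3 : 1 ≤ N / 6 ^ k := (Nat.one_le_div_iff (by positivity)).2 h1
  have h4 : N / 6 ^ k < 6 := by
    rw [Nat.div_lt_iff_lt_mul (by positivity)]
    rw [pow_succ] at h2
    linarith
  have hd := h (j - k) (by omega)
  rw [iter_F_dig] at hd
  have hd' := congrArg Fin.val hd
  unfold dig at hd'
  simp only at hd'
  have e : (6 : ℝ) ^ (j - (k : ℤ)) * ((A : ℝ) / 6 ^ r * (3 / 2) ^ n) = y / ((6 ^ k : ℕ) : ℝ) := by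
    rw [hy, zpow_sub₀ (by norm_num : (6 : ℝ) ≠ 0), zpow_natCast]
    push_cast
    ring
  rw [e, Nat.floor_div_natCast, ← hN] at hd'
  have : N / 6 ^ k % 6 = 0 := by simpa using hd'
  omega

lemma outside_right {Q A r v g0 n : ℕ} {j : ℤ} (hA : 0 < A) (hg0 : Odd g0)
    (hQN : Q * A = 2 ^ v * g0) (hn : v ≤ 2 * n)
    (h : ∀ i, j ≤ i → F^[n] (dig ((A : ℝ) / 6 ^ r)) i = 0) : (n : ℤ) - j + 1 + r - v ≤ 0 := by
  by_contra hcon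
  push Not at hcon
  obtain ⟨u, A', hA', hAu⟩ := Nat.exists_eq_two_pow_mul_odd (n := A) (by omega)
  have huv : u ≤ v := by
    by_contra hc
    push Not at hc
    have h1 : 2 ^ (v + 1) ∣ 2 ^ v * g0 := by
      rw [← hQN, hAu]
      exact (pow_dvd_pow 2 hc).mul_right A' |>.mul_left Q
    rw [pow_succ] at h1
    have h2 : 2 ∣ g0 := Nat.dvd_of_mul_dvd_mul_left (by positivity) h1
    obtain ⟨k, hk⟩ := hg0
    omega
  have hd := h (n + r - u) (by omega)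
  rw [iter_F_dig] at hd
  have hd' := congrArg Fin.val hd
  unfold dig at hd'
  simp only at hd'
  have e : (6 : ℝ) ^ ((n : ℤ) + r - u) * ((A : ℝ) / 6 ^ r * (3 / 2) ^ n) =
      ((A' * 3 ^ (2 * n - u) : ℕ) : ℝ) := by
    have hb : (3 : ℝ) ^ (2 * n - u) * 3 ^ u = 3 ^ n * 3 ^ n := by
      rw [← pow_add, ← pow_add]; congr 1; omega
    rw [hAu, zpow_sub₀ (by norm_num : (6 : ℝ) ≠ 0), zpow_add₀ (by norm_num : (6 : ℝ) ≠ 0),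
      zpow_natCast, zpow_natCast, zpow_natCast, div_pow]
    have h6 : (6 : ℝ) ^ n = 3 ^ n * 2 ^ n := by rw [← mul_pow]; norm_num
    have h6u : (6 : ℝ) ^ u = 3 ^ u * 2 ^ u := by rw [← mul_pow]; norm_num
    rw [h6, h6u]
    push_cast
    have a1 : (3 : ℝ) ^ u ≠ 0 := by positivity
    have a2 : (2 : ℝ) ^ u ≠ 0 := by positivity
    have a3 : (2 : ℝ) ^ n ≠ 0 := by positivity
    have a4 : (6 : ℝ) ^ r ≠ 0 := by positivity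
    field_simp
    linear_combination (-(A' : ℝ)) * hb
  rw [e, Nat.floor_natCast] at hd'
  have hodd : Odd (A' * 3 ^ (2 * n - u)) := hA'.mul (Odd.pow (by decide))
  obtain ⟨k, hk⟩ := hodd
  rw [hk] at hd'
  have : (2 * k + 1) % 6 = 0 := by simpa using hd'
  omega

lemma value_eq {Q A r v g0 n a b V : ℕ} {j : ℤ} (hQN : Q * A = 2 ^ v * g0)
    (ha : (a : ℤ) = V + (n - j + 1 + r - v)) (hb : (b : ℤ) = n + j - 1 - r) :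
    (Q : ℝ) * 2 ^ a * ((6 : ℝ) ^ j * ((A : ℝ) / 6 ^ r * (3 / 2) ^ n)) =
      6 * (((g0 * 2 ^ V : ℕ) : ℝ) * 3 ^ b) := by
  have h6 : (6 : ℝ) ^ j = 3 ^ j * 2 ^ j := by rw [← mul_zpow]; norm_num
  have h6' : (6 : ℝ) ^ r = 3 ^ (r : ℤ) * 2 ^ (r : ℤ) := by
    rw [zpow_natCast, zpow_natCast, ← mul_pow]; norm_num
  have h32 : (3 / 2 : ℝ) ^ n = 3 ^ (n : ℤ) / 2 ^ (n : ℤ) := by
    rw [zpow_natCast, zpow_natCast, div_pow]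
  have hb' : (3 : ℝ) ^ b = 3 ^ (n : ℤ) * 3 ^ j / (3 * 3 ^ (r : ℤ)) := by
    rw [← zpow_natCast (3 : ℝ) b, hb, ← zpow_add₀ (by norm_num : (3 : ℝ) ≠ 0)]
    have : (3 : ℝ) * 3 ^ (r : ℤ) = 3 ^ ((r : ℤ) + 1) := by
      rw [zpow_add_one₀ (by norm_num : (3 : ℝ) ≠ 0)]; ring
    rw [this, ← zpow_sub₀ (by norm_num : (3 : ℝ) ≠ 0)]
    congr 1
    ring
  have ha' : (2 : ℝ) ^ v * 2 ^ a = 2 ^ V * (2 * 2 ^ (n : ℤ) * 2 ^ (r : ℤ) / 2 ^ j) := by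
    rw [← pow_add, ← zpow_natCast (2 : ℝ) (v + a), ← zpow_natCast (2 : ℝ) V]
    have : (2 : ℝ) * 2 ^ (n : ℤ) * 2 ^ (r : ℤ) = 2 ^ ((n : ℤ) + 1 + r) := by
      rw [zpow_add₀ (by norm_num : (2 : ℝ) ≠ 0), zpow_add_one₀ (by norm_num : (2 : ℝ) ≠ 0)]; ring
    rw [this, ← zpow_sub₀ (by norm_num : (2 : ℝ) ≠ 0), ← zpow_add₀ (by norm_num : (2 : ℝ) ≠ 0)]
    congr 1
    push_cast
    rw [ha]
    ring
  have hQN' : (Q : ℝ) * A = 2 ^ v * g0 := by exact_mod_cast hQN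
  have a1 : (0 : ℝ) < 3 ^ (r : ℤ) := by positivity
  have a2 : (0 : ℝ) < 2 ^ (r : ℤ) := by positivity
  have a3 : (0 : ℝ) < 2 ^ (n : ℤ) := by positivity
  have a4 : (0 : ℝ) < 2 ^ j := by positivity
  have a5 : (0 : ℝ) < 3 ^ j := by positivity
  have a6 : (0 : ℝ) < 3 ^ (n : ℤ) := by positivity
  have a7 : (0 : ℝ) < 2 ^ v := by positivity
  rw [h6, h6', h32]
  have e1 : (2 : ℝ) ^ v * (6 * (((g0 * 2 ^ V : ℕ) : ℝ) * 3 ^ b)) =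
      2 ^ v * ((Q : ℝ) * 2 ^ a * (3 ^ j * 2 ^ j * ((A : ℝ) / (3 ^ (r : ℤ) * 2 ^ (r : ℤ)) *
        (3 ^ (n : ℤ) / 2 ^ (n : ℤ))))) := by
    have e2 : (2 : ℝ) ^ v * ((Q : ℝ) * 2 ^ a * (3 ^ j * 2 ^ j * ((A : ℝ) /
        (3 ^ (r : ℤ) * 2 ^ (r : ℤ)) * (3 ^ (n : ℤ) / 2 ^ (n : ℤ))))) =
        Q * (2 ^ V * (2 * 2 ^ (n : ℤ) * 2 ^ (r : ℤ) / 2 ^ j)) * (3 ^ j * 2 ^ j * ((A : ℝ) /
        (3 ^ (r : ℤ) * 2 ^ (r : ℤ)) * (3 ^ (n : ℤ) / 2 ^ (n : ℤ)))) := by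
      rw [← ha']; ring
    push_cast
    rw [e2, show (2 : ℝ) ^ v * (6 * ((g0 : ℝ) * 2 ^ V * 3 ^ b)) =
      6 * 2 ^ V * ((2 ^ v * g0) * 3 ^ b) by ring, ← hQN', hb']
    field_simp
    ring
  exact (mul_left_cancel₀ a7.ne' e1).symm

end MPcc0Tri3
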