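import Pool.Agent.Lib.MP_cc0c1a_nt.Tri3.Path

set_option autoImplicit false

/-!
# MP_cc0c1a_nt / Tri3: every word occurs near every macroscopic path, end (helper60)
-/

open Finset
open scoped Classical
open Pool.Agent.Results.MP_cc0c1a_nt.SyndeticPositions (fin_eq_dig Config IsFin Shows F dig)

namespace MPcc0Tri3

open MPcc0Tri MPcc0Tri2

lemma fin_eq_dig' {x : Config} (hx : IsFin x) (hne : x ≠ 0) :
    ∃ A r : ℕ, 0 < A ∧ x = dig ((A : ℝ) / 6 ^ r) := by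
  obtain ⟨A, r, rfl⟩ := fin_eq_dig hx
  refine ⟨A, r, ?_, rfl⟩
  rcases Nat.eq_zero_or_pos A with h | h
  · exfalso
    apply hne
    subst h
    funext i
    apply Fin.ext
    unfold dig
    simp
  · exact h

theorem path (hM : Mahler) (hC : Conn) (ℓ : ℕ) : ∃ C : ℕ, ∀ x : Config, IsFin x → x ≠ 0 →
    ∀ ε : ℝ, 0 < ε → ∃ N₀ : ℕ, ∀ (T : ℕ) (q : ℕ → ℕ × ℤ), N₀ ≤ (q 0).1 →
    (∀ t < T, |((q (t + 1)).1 : ℤ) - (q t).1| ≤ 1 ∧ |(q (t + 1)).2 - (q t).2| ≤ 1) →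
    (∀ t ≤ T, Inside x (q t).1 (q t).2) →
    (ε * (q 0).1 ≤ |((q T).1 : ℝ) - (q 0).1| ∨ ε * (q 0).1 ≤ |((q T).2 : ℝ) - (q 0).2|) →
    ∀ w : Fin ℓ → Fin 6, ∃ t ≤ T, ∃ m : ℕ, ∃ j : ℤ, |(m : ℤ) - (q t).1| ≤ C ∧
      |j - (q t).2| ≤ C ∧ Shows (F^[m] x) j w := by
  obtain ⟨C, hCore⟩ := path_core hM hC ℓ
  refine ⟨C, ?_⟩
  intro x hx hne ε hε
  obtain ⟨A, r, hA, rfl⟩ := fin_eq_dig' hx hne
  obtain ⟨N₀, hN⟩ := hCore A r hA (min ε (1 / 2)) (by positivity) (min_le_right _ _)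
  refine ⟨N₀, ?_⟩
  intro T q hq0 hstep hin hfar w
  have hP : ∃ t, (min ε (1 / 2) * (q 0).1 ≤ |((q t).1 : ℝ) - (q 0).1| ∨
      min ε (1 / 2) * (q 0).1 ≤ |((q t).2 : ℝ) - (q 0).2|) := by
    refine ⟨T, ?_⟩
    have h : min ε (1 / 2) * ((q 0).1 : ℝ) ≤ ε * (q 0).1 :=
      mul_le_mul_of_nonneg_right (min_le_left _ _) (Nat.cast_nonneg _)
    rcases hfar with h1 | h1
    · exact Or.inl (h.trans h1)
    · exact Or.inr (h.trans h1)
  have hT1 : Nat.find hP ≤ T := by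
    apply Nat.find_min'
    have h : min ε (1 / 2) * ((q 0).1 : ℝ) ≤ ε * (q 0).1 :=
      mul_le_mul_of_nonneg_right (min_le_left _ _) (Nat.cast_nonneg _)
    rcases hfar with h1 | h1
    · exact Or.inl (h.trans h1)
    · exact Or.inr (h.trans h1)
  obtain ⟨T₁, hT₁⟩ : ∃ T₁, T₁ = Nat.find hP := ⟨_, rfl⟩
  rw [← hT₁] at hT1
  have hbefore : ∀ t < T₁, 2 * |((q t).1 : ℤ) - (q 0).1| ≤ (q 0).1 := by
    intro t ht
    rw [hT₁] at ht
    have h := Nat.find_min hP ht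
    push Not at h
    have h1 : min ε (1 / 2) * ((q 0).1 : ℝ) ≤ 1 / 2 * (q 0).1 :=
      mul_le_mul_of_nonneg_right (min_le_right _ _) (Nat.cast_nonneg _)
    have h2 : 2 * |((q t).1 : ℝ) - (q 0).1| ≤ (q 0).1 := by linarith [h.1]
    exact_mod_cast h2
  obtain ⟨t, ht, m, j, h1, h2, h3⟩ := hN T₁ q hq0 (fun t ht => hstep t (by omega))
    (fun t ht => hin t (by omega)) (by
      intro t ht
      rcases Nat.lt_or_ge t T₁ with h | h
      · have := hbefore t h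
        omega
      · obtain rfl : t = T₁ := by omega
        rcases Nat.eq_zero_or_pos t with h0 | h0
        · rw [h0, sub_self, abs_zero]
          positivity
        · have e1 := hbefore (t - 1) (by omega)
          have e2 := (hstep (t - 1) (by omega)).1
          rw [show t - 1 + 1 = t by omega] at e2
          have e3 : |((q t).1 : ℤ) - (q 0).1| ≤
              |((q t).1 : ℤ) - (q (t - 1)).1| + |((q (t - 1)).1 : ℤ) - (q 0).1| :=
            abs_sub_le _ _ _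
          omega)
    (by rw [hT₁]; exact Nat.find_spec hP) w
  exact ⟨t, by omega, m, j, h1, h2, h3⟩

end MPcc0Tri3
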