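import Pool.Agent.Lib.MP_cc0c1a_nt.Tri3.Rich
import Pool.Agent.Lib.MP_cc0c1a_nt.Tri3.Hull
import Pool.Agent.Lib.MP_cc0c1a_nt.Tri3.PathEnd

set_option autoImplicit false

/-!
# MP_cc0c1a_nt / Tri3: every macroscopic path has a rich point (helper60)
-/

open Finset
open scoped Classical
open Pool.Agent.Results.MP_cc0c1a_nt.SyndeticPositions (fin_eq_dig Config IsFin Shows F dig
  iter_F_dig)

namespace MPcc0Tri3

open MPcc0Tri MPcc0Tri2

/-- Around the point `(n, j)` every word of length `ℓ` occurs often, at all scales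
`H₀ ≤ H ≤ n₀ / 5`. -/
def Rich (x : Config) (ℓ : ℕ) (ε c : ℝ) (H₀ n₀ : ℕ) (n : ℕ) (j : ℤ) : Prop :=
  ∀ H : ℕ, H₀ ≤ H → 5 * H ≤ n₀ → ∀ w : Fin ℓ → Fin 6,
    ∃ S : Finset (ℕ × ℤ), c * (H : ℝ) ^ (2 - ε) ≤ (S.card : ℝ) ∧
      ∀ p ∈ S, |(p.1 : ℤ) - n| ≤ H ∧ |p.2 - j| ≤ H ∧ Shows (F^[p.1] x) p.2 w

theorem rich_core (hM : Mahler) (hC : Conn) (hU : UncBase) (hT : TriCount) (hG : GeoC) (ℓ : ℕ)
    (ε : ℝ) (hε : 0 < ε) : ∃ c : ℝ, 0 < c ∧ ∃ H₀ : ℕ, ∀ A r : ℕ, 0 < A →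
    ∀ η : ℝ, 0 < η → η ≤ 1 / 2 → ∃ N₀ : ℕ, ∀ (T : ℕ) (q : ℕ → ℕ × ℤ), N₀ ≤ (q 0).1 →
    (∀ t < T, |((q (t + 1)).1 : ℤ) - (q t).1| ≤ 1 ∧ |(q (t + 1)).2 - (q t).2| ≤ 1) →
    (∀ t < T, Inside (dig ((A : ℝ) / 6 ^ r)) (q t).1 (q t).2) →
    Inside (dig ((A : ℝ) / 6 ^ r)) (q 0).1 (q 0).2 →
    (∀ t ≤ T, 2 * |((q t).1 : ℤ) - (q 0).1| ≤ (q 0).1 + 2) →
    (¬ Inside (dig ((A : ℝ) / 6 ^ r)) (q T).1 (q T).2 ∨
      η * (q 0).1 ≤ |((q T).1 : ℝ) - (q 0).1| ∨ η * (q 0).1 ≤ |((q T).2 : ℝ) - (q 0).2|) →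
    ∃ t ≤ T, Rich (dig ((A : ℝ) / 6 ^ r)) ℓ ε c H₀ (q 0).1 (q t).1 (q t).2 := by
  obtain ⟨Q, C₁, hQ, hocc⟩ := occ ℓ
  obtain ⟨c, hc, H₀, hrich⟩ := rich hU hT hG ℓ ε hε (Q + 20) Q C₁ hocc
  refine ⟨c, hc, H₀, ?_⟩
  intro A r hA η hη hη2
  obtain ⟨v, g0, hg0, hQN⟩ := Nat.exists_eq_two_pow_mul_odd (n := Q * A) (by positivity)
  obtain ⟨NL, hNL⟩ := left_bound A
  obtain ⟨NM, hNM⟩ := hM g0 hg0.pos (η / 16) (by positivity)
  refine ⟨4 * NL + NM + 20 * (C₁ + 2 * Q + r + v + 40), ?_⟩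
  intro T q hq0 hstep hin hin0 hnear hend
  by_contra hcon
  push Not at hcon
  obtain ⟨n₀, hn₀⟩ : ∃ n₀ : ℕ, n₀ = (q 0).1 := ⟨_, rfl⟩
  obtain ⟨V, hV⟩ : ∃ V : ℕ, V = 4 * n₀ := ⟨_, rfl⟩
  rw [← hn₀] at hq0 hcon
  obtain ⟨Fc, hArr, hcov⟩ := u4 g0 hg0 3 V V V (by norm_num)
  have hDis := hArr.cls.dis
  have hthl := th_lt
  have hthp := th_pos
  have hinside : ∀ t ≤ T, (t < T ∨ Inside (dig ((A : ℝ) / 6 ^ r)) (q T).1 (q T).2) →
      Inside (dig ((A : ℝ) / 6 ^ r)) (q t).1 (q t).2 := by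
    intro t ht h
    rcases h with h | h
    · exact hin t h
    · rcases Nat.lt_or_ge t T with h' | h'
      · exact hin t h'
      · obtain rfl : t = T := by omega
        exact h
  -- the number of times which we use
  obtain ⟨T', hT'T, hT', hT'in⟩ : ∃ T' ≤ T, (T' = T ∨ (T = T' + 1 ∧
      ¬ Inside (dig ((A : ℝ) / 6 ^ r)) (q T).1 (q T).2)) ∧
      ∀ t ≤ T', Inside (dig ((A : ℝ) / 6 ^ r)) (q t).1 (q t).2 := by
    by_cases h : Inside (dig ((A : ℝ) / 6 ^ r)) (q T).1 (q T).2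
    · exact ⟨T, le_rfl, Or.inl rfl, fun t ht => hinside t ht (Or.inr h)⟩
    · have hT0 : T ≠ 0 := by
        rintro rfl
        exact h hin0
      exact ⟨T - 1, by omega, Or.inr ⟨by omega, h⟩, fun t ht => hin t (by omega)⟩
  -- the cells of the path
  have hcell : ∀ t ≤ T', ∃ a b : ℕ, (a : ℤ) = V + ((q t).1 - (q t).2 + 1 + r - v) ∧
      (b : ℤ) = (q t).1 + (q t).2 - 1 - r ∧ V + 1 ≤ a + Q ∧ a + Q + 20 ≤ 2 * V ∧
      C₁ + Q + 20 ≤ b ∧ b + Q + 20 ≤ V ∧ n₀ + 5 * (Q + 20) ≤ 5 * b := by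
    intro t ht
    have h1 := hnear t (by omega)
    rw [← hn₀] at h1
    have h1a : 2 * (((q t).1 : ℤ) - n₀) ≤ n₀ + 2 := by
      have := le_abs_self (((q t).1 : ℤ) - n₀)
      omega
    have h1b : -(n₀ + 2 : ℤ) ≤ 2 * (((q t).1 : ℤ) - n₀) := by
      have := neg_abs_le (((q t).1 : ℤ) - n₀)
      omega
    obtain ⟨hl, hr⟩ := hT'in t ht
    have hl' := inside_left hl
    have h2 := hNL (q t).1 (by omega) r (q t).2 hl'
    have h3 : 0 ≤ ((q t).1 : ℤ) + (q t).2 - 1 - r := by omega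
    have h4 := inside_right hQ hA hQN h3 hr
    obtain ⟨a, ha⟩ : ∃ a : ℕ, (a : ℤ) = V + ((q t).1 - (q t).2 + 1 + r - v) :=
      ⟨(V + ((q t).1 - (q t).2 + 1 + r - v) : ℤ).toNat, Int.toNat_of_nonneg (by omega)⟩
    obtain ⟨b, hb⟩ : ∃ b : ℕ, (b : ℤ) = (q t).1 + (q t).2 - 1 - r :=
      ⟨((q t).1 + (q t).2 - 1 - r : ℤ).toNat, Int.toNat_of_nonneg h3⟩
    exact ⟨a, b, ha, hb, by omega, by omega, by omega, by omega, by omega⟩
  choose! a b ha hb h1 h2 h3 h4 h5 using hcell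
  have hQ1 : (1 : ℝ) ≤ Q := by exact_mod_cast hQ
  -- all cells near the path are covered
  have hcovered : ∀ t ≤ T', ∀ a' b' : ℕ, a t - (Q + 5) - 2 ≤ a' → a' ≤ a t + (Q + 5) + 3 →
      b t - (Q + 5) ≤ b' → b' ≤ b t + (Q + 5) + 2 →
      ∃ i ∈ Fc.big th ((3 : ℕ) : ℝ), Fc.Cov th i a' b' := by
    intro t ht a' b' p1 p2 p3 p4
    have g1 := ha t ht
    have g2 := hb t ht
    have g3 := h1 t ht
    have g4 := h2 t ht
    have g5 := h3 t ht
    have g6 := h4 t ht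
    have g7 := h5 t ht
    rcases le_or_gt a' V with hc | hc
    · exact ⟨_, cov_G hArr (by omega) hc (by omega)⟩
    · by_contra hno
      push Not at hno
      have hmem : (a', b') ∈ Unc2 Fc ((3 : ℕ) : ℝ) V V 0 V := by
        unfold Unc2
        rw [mem_filter, mem_product, mem_Ioc, mem_Ico]
        exact ⟨⟨⟨hc, by simp only; omega⟩, Nat.zero_le _, by simp only; omega⟩, hno⟩
      obtain ⟨α, k0, k1, k2, k3⟩ := hcov _ hmem
      have k2' : V + α ≤ a' + 7 := by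
        have : ((V + α : ℕ) : ℝ) < ((a' + 8 : ℕ) : ℝ) := by
          push_cast
          push_cast at k2
          linarith
        have := Nat.cast_lt.1 this
        omega
      simp only at k1 k3
      refine hcon t (by omega) ?_
      intro H hH hH5 w
      exact hrich A r v g0 hA hg0 hQN (q t).1 (q t).2 α b' k0 k3
        (by rw [abs_le]; push_cast; omega) (by rw [abs_le]; push_cast; omega) H hH (by omega) w
  -- one face in every box
  have hbox : ∀ t ≤ T', ∃ i ∈ Fc.big th ((3 : ℕ) : ℝ), ∀ a' b', a t - (Q + 5) ≤ a' →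
      a' ≤ a t + (Q + 5) → b t - (Q + 5) ≤ b' → b' ≤ b t + (Q + 5) → Fc.Cov th i a' b' := by
    intro t ht
    have g3 := h1 t ht
    have g5 := h3 t ht
    exact hC Fc _ (a t - (Q + 5)) (a t + (Q + 5)) (b t - (Q + 5)) (b t + (Q + 5)) hDis
      (by norm_num) (by omega) (by omega) (by omega) (hcovered t ht)
  obtain ⟨i, hi, hibox⟩ := hbox 0 (Nat.zero_le _)
  have hbigI : ∀ k ∈ Fc.big th ((3 : ℕ) : ℝ), k ∈ Fc.I := fun k hk => (mem_filter.1 hk).1
  have hall : ∀ t ≤ T', ∀ a' b', a t - (Q + 5) ≤ a' →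
      a' ≤ a t + (Q + 5) → b t - (Q + 5) ≤ b' → b' ≤ b t + (Q + 5) → Fc.Cov th i a' b' := by
    intro t
    induction t with
    | zero => intro _; exact hibox
    | succ t ih =>
      intro ht
      obtain ⟨k, hk, hkbox⟩ := hbox (t + 1) ht
      have g1 := ha t (by omega)
      have g2 := hb t (by omega)
      have g1' := ha (t + 1) ht
      have g2' := hb (t + 1) ht
      obtain ⟨s1, s2⟩ := hstep t (by omega)
      rw [abs_le] at s1 s2
      have hkt : Fc.Cov th k (a t) (b t) := hkbox _ _ (by omega) (by omega) (by omega) (by omega)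
      have hki := dis_eq hDis (hbigI k hk) (hbigI i hi) hkt
        (ih (by omega) _ _ (by omega) (by omega) (by omega) (by omega))
      rw [← hki]
      exact hkbox
  -- the face is neither `G` nor `0`
  have g3 := h1 0 (Nat.zero_le _)
  have g5 := h3 0 (Nat.zero_le _)
  have hiG : i ≠ ((g0 * 2 ^ V : ℕ) : ℚ) :=
    ne_G hArr (hibox (a 0 + Q) (b 0) (by omega) (by omega) (by omega) (by omega)) (by omega)
  have hcov0 : Fc.Cov th i (a 0) (b 0) := hibox _ _ (by omega) (by omega) (by omega) (by omega)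
  have hi0 : i ≠ 0 := by
    refine ne_zero_of_value hg0.pos hArr (hbigI i hi) hcov0 ?_
    have e := value_eq hQN (ha 0 (Nat.zero_le _)) (hb 0 (Nat.zero_le _))
    have hl' := inside_left hin0.1
    have e1 : (2 : ℝ) ^ a 0 ≤ Q * 2 ^ a 0 := le_mul_of_one_le_left (by positivity) hQ1
    have e2 : (Q : ℝ) * 2 ^ a 0 ≤ Q * 2 ^ a 0 *
        ((6 : ℝ) ^ (q 0).2 * ((A : ℝ) / 6 ^ r * (3 / 2) ^ (q 0).1)) :=
      le_mul_of_one_le_right (by positivity) hl'
    rw [e] at e2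
    have e3 : (0 : ℝ) ≤ ((g0 * 2 ^ V : ℕ) : ℝ) * 3 ^ b 0 := by positivity
    linarith
  rcases hT' with hT' | ⟨hT', hout⟩
  · -- the path ends inside, far away
    have hinT : Inside (dig ((A : ℝ) / 6 ^ r)) (q T).1 (q T).2 := by
      rw [← hT']
      exact hT'in T' le_rfl
    have hfar := hend.resolve_left (not_not.2 hinT)
    subst hT'
    have hlam := hNM V (by omega) Fc V V hArr le_rfl le_rfl i (hbigI i hi) hi0 hiG (a 0) (b 0)
      (by have := h4 0 (Nat.zero_le _); omega) hcov0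
    obtain ⟨e1, e2⟩ := cov_extent hcov0
      (hall T' le_rfl _ _ (Nat.sub_le _ _) (Nat.le_add_right _ _) (Nat.sub_le _ _)
        (Nat.le_add_right _ _)) hlam
    have hVr : (V : ℝ) = 4 * n₀ := by rw [hV]; push_cast; ring
    rw [hVr] at e1 e2
    have ga0 : (a 0 : ℝ) = V + ((q 0).1 - (q 0).2 + 1 + r - v) := by
      exact_mod_cast ha 0 (Nat.zero_le _)
    have gaT : (a T' : ℝ) = V + ((q T').1 - (q T').2 + 1 + r - v) := by
      exact_mod_cast ha T' le_rfl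
    have gb0 : (b 0 : ℝ) = (q 0).1 + (q 0).2 - 1 - r := by exact_mod_cast hb 0 (Nat.zero_le _)
    have gbT : (b T' : ℝ) = (q T').1 + (q T').2 - 1 - r := by exact_mod_cast hb T' le_rfl
    have hn0pos : (0 : ℝ) < n₀ := by
      have : 0 < n₀ := by omega
      exact_mod_cast this
    have hn₀r : (n₀ : ℝ) = (q 0).1 := by exact_mod_cast hn₀
    rw [abs_le] at e1 e2
    have hpos : 0 < η * n₀ := by positivity
    rw [← hn₀r] at hfar
    rcases hfar with h | h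
    · have : |((q T').1 : ℝ) - n₀| < η * n₀ := by
        rw [abs_lt]
        constructor <;> linarith
      linarith
    · have : |((q T').2 : ℝ) - (q 0).2| < η * n₀ := by
        rw [abs_lt]
        constructor <;> linarith
      linarith
  · -- the path ends outside
    have hbT := hall T' le_rfl
    obtain ⟨s1, s2⟩ := hstep T' (by omega)
    rw [← hT'] at s1 s2
    have g1 := ha T' le_rfl
    have g2 := hb T' le_rfl
    have g3' := h1 T' le_rfl
    have g4' := h2 T' le_rfl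
    have g5' := h3 T' le_rfl
    have g6' := h4 T' le_rfl
    have hnT := hnear T le_rfl
    rw [← hn₀] at hnT
    have hnT' : -(n₀ + 2 : ℤ) ≤ 2 * (((q T).1 : ℤ) - n₀) := by
      have := neg_abs_le (((q T).1 : ℤ) - n₀)
      omega
    rw [abs_le] at s1 s2
    unfold Inside at hout
    rw [not_and_or] at hout
    rcases hout with hout | hout
    · -- left of the support
      push Not at hout
      have hlt := outside_left (A := A) (r := r) (n := (q T).1) (j := (q T).2) hout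
      have e := value_eq hQN g1 g2
      -- the value at the last point inside
      have hv9 : (6 : ℝ) ^ (q T').2 * ((A : ℝ) / 6 ^ r * (3 / 2) ^ (q T').1) < 9 := by
        have e1 : (6 : ℝ) ^ (q T').2 ≤ 6 ^ ((q T).2 + 1) :=
          zpow_le_zpow_right₀ (by norm_num) (by omega)
        have e2 : (3 / 2 : ℝ) ^ (q T').1 ≤ (3 / 2) ^ ((q T).1 + 1) :=
          pow_le_pow_right₀ (by norm_num) (by omega)
        rw [zpow_add_one₀ (by norm_num : (6 : ℝ) ≠ 0)] at e1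
        rw [pow_succ] at e2
        have e3 : (0 : ℝ) ≤ (A : ℝ) / 6 ^ r := by positivity
        calc (6 : ℝ) ^ (q T').2 * ((A : ℝ) / 6 ^ r * (3 / 2) ^ (q T').1)
            ≤ ((6 : ℝ) ^ (q T).2 * 6) * ((A : ℝ) / 6 ^ r * ((3 / 2) ^ (q T).1 * (3 / 2))) := by
              gcongr
          _ = 9 * ((6 : ℝ) ^ (q T).2 * ((A : ℝ) / 6 ^ r * (3 / 2) ^ (q T).1)) := by ring
          _ < 9 := by linarith
      obtain ⟨a'', ha''⟩ : ∃ a'' : ℕ, a'' = a T' + (Q + 2) := ⟨_, rfl⟩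
      obtain ⟨b'', hb''⟩ : ∃ b'' : ℕ, b'' + (Q + 2) = b T' := ⟨b T' - (Q + 2), by omega⟩
      have hc := hbT a'' b'' (by omega) (by omega) (by omega) (by omega)
      have hsmall : 8 * ((g0 * 2 ^ V : ℕ) : ℝ) * 3 ^ b'' < 2 ^ a'' := by
        have hp2 : (0 : ℝ) < Q * 2 ^ a T' := by positivity
        have e1 := mul_lt_mul_of_pos_left hv9 hp2
        rw [e, ← hb'', pow_add] at e1
        have e2 : 12 * (Q : ℝ) ≤ 2 ^ (Q + 2) * 3 ^ (Q + 2) := by
          rw [← mul_pow]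
          norm_num
          have e3 : (Q : ℝ) ≤ 6 ^ Q := by
            have : Q < 6 ^ Q := Nat.lt_pow_self (by norm_num)
            exact_mod_cast this.le
          rw [pow_add]
          linarith
        have e4 : (0 : ℝ) < 2 ^ a T' := by positivity
        have e5 := mul_le_mul_of_nonneg_right e2 e4.le
        have e6 : 8 * ((g0 * 2 ^ V : ℕ) : ℝ) * 3 ^ b'' * 3 ^ (Q + 2) < 2 ^ a'' * 3 ^ (Q + 2) := by
          have e7 : (2 : ℝ) ^ a'' = 2 ^ a T' * 2 ^ (Q + 2) := by rw [ha'', pow_add]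
          rw [e7]
          linarith
        exact lt_of_mul_lt_mul_right e6 (by positivity)
      apply hi0
      obtain ⟨hs, hr, hL⟩ := hc
      obtain ⟨k, hk⟩ := hArr.int i (hbigI i hi) a'' b'' hs hL
      rw [hArr.rho i (hbigI i hi) hiG] at hr
      have hpos : 0 < |((g0 * 2 ^ V : ℕ) : ℝ) - i| * 8 := by
        have : ((g0 * 2 ^ V : ℕ) : ℝ) - i ≠ 0 := by
          rw [sub_ne_zero]
          intro h'
          apply hiG
          exact_mod_cast h'.symm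
        positivity
      rw [logb_iff hpos] at hr
      have hk' : (i : ℝ) * 3 ^ b'' = k * 2 ^ a'' := by exact_mod_cast hk
      have hp3 : (0 : ℝ) < 3 ^ b'' := by positivity
      have hp2 : (0 : ℝ) < 2 ^ a'' := by positivity
      have f1 : |(i : ℝ)| ≤ |((g0 * 2 ^ V : ℕ) : ℝ) - i| + ((g0 * 2 ^ V : ℕ) : ℝ) := by
        have f2 : (i : ℝ) = -(((g0 * 2 ^ V : ℕ) : ℝ) - i) + ((g0 * 2 ^ V : ℕ) : ℝ) := by ring
        have f3 := abs_add_le (-(((g0 * 2 ^ V : ℕ) : ℝ) - i)) ((g0 * 2 ^ V : ℕ) : ℝ)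
        rw [← f2, abs_neg, abs_of_nonneg (by positivity : (0 : ℝ) ≤ ((g0 * 2 ^ V : ℕ) : ℝ))] at f3
        exact f3
      have f4 := mul_le_mul_of_nonneg_right f1 hp3.le
      have f5 : |(k : ℝ)| * 2 ^ a'' = |(i : ℝ)| * 3 ^ b'' := by
        rw [← abs_of_pos hp2, ← abs_mul, ← hk', abs_mul, abs_of_pos hp3]
      have f6 : |(k : ℝ)| * 2 ^ a'' < 1 * 2 ^ a'' := by
        rw [f5]
        linarith
      have f7 : |(k : ℝ)| < 1 := lt_of_mul_lt_mul_right f6 hp2.le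
      have f8 : k = 0 := by
        have : |k| < 1 := by exact_mod_cast f7
        rwa [Int.abs_lt_one_iff] at this
      rw [f8, Int.cast_zero, zero_mul] at hk
      rcases mul_eq_zero.1 hk with h | h
      · exact h
      · exact absurd h (by positivity)
    · -- right of the support
      push Not at hout
      have hle := outside_right (Q := Q) (A := A) (r := r) (v := v) (g0 := g0) (n := (q T).1)
        (j := (q T).2) hA hg0 hQN (by omega) hout
      have hc := hbT V (b T') (by omega) (by omega) (by omega) (by omega)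
      obtain ⟨hG1, hG2⟩ := cov_G (w := 3) hArr (by omega) (le_refl V) (by omega : b T' ≤ V)
      exact hiG (dis_eq hDis (hbigI i hi) (hbigI _ hG1) hc hG2)

/-- **Every macroscopic path, and every path which leaves the hull of the support, has a rich
point.** -/
theorem path_rich (hM : Mahler) (hC : Conn) (hU : UncBase) (hT : TriCount) (hG : GeoC) (ℓ : ℕ)
    (ε : ℝ) (hε : 0 < ε) : ∃ c : ℝ, 0 < c ∧ ∃ H₀ : ℕ, ∀ x : Config, IsFin x → x ≠ 0 →
    ∀ η : ℝ, 0 < η → ∃ N₀ : ℕ, ∀ (T : ℕ) (q : ℕ → ℕ × ℤ), N₀ ≤ (q 0).1 →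
    (∀ t < T, |((q (t + 1)).1 : ℤ) - (q t).1| ≤ 1 ∧ |(q (t + 1)).2 - (q t).2| ≤ 1) →
    Inside x (q 0).1 (q 0).2 →
    (¬ Inside x (q T).1 (q T).2 ∨
      η * (q 0).1 ≤ |((q T).1 : ℝ) - (q 0).1| ∨ η * (q 0).1 ≤ |((q T).2 : ℝ) - (q 0).2|) →
    ∃ t ≤ T, Rich x ℓ ε c H₀ (q 0).1 (q t).1 (q t).2 := by
  obtain ⟨c, hc, H₀, hCore⟩ := rich_core hM hC hU hT hG ℓ ε hε
  refine ⟨c, hc, H₀, ?_⟩
  intro x hx hne η hη
  obtain ⟨A, r, hA, rfl⟩ := fin_eq_dig' hx hne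
  obtain ⟨N₀, hN⟩ := hCore A r hA (min η (1 / 2)) (by positivity) (min_le_right _ _)
  refine ⟨N₀, ?_⟩
  intro T q hq0 hstep hin0 hend
  have hmin : min η (1 / 2) * ((q 0).1 : ℝ) ≤ η * (q 0).1 :=
    mul_le_mul_of_nonneg_right (min_le_left _ _) (Nat.cast_nonneg _)
  have hP' : (¬ Inside (dig ((A : ℝ) / 6 ^ r)) (q T).1 (q T).2 ∨
      min η (1 / 2) * (q 0).1 ≤ |((q T).1 : ℝ) - (q 0).1| ∨
      min η (1 / 2) * (q 0).1 ≤ |((q T).2 : ℝ) - (q 0).2|) := by
    rcases hend with h1 | h1 | h1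
    · exact Or.inl h1
    · exact Or.inr (Or.inl (hmin.trans h1))
    · exact Or.inr (Or.inr (hmin.trans h1))
  have hP : ∃ t, (¬ Inside (dig ((A : ℝ) / 6 ^ r)) (q t).1 (q t).2 ∨
      min η (1 / 2) * (q 0).1 ≤ |((q t).1 : ℝ) - (q 0).1| ∨
      min η (1 / 2) * (q 0).1 ≤ |((q t).2 : ℝ) - (q 0).2|) := ⟨T, hP'⟩
  have hT1 : Nat.find hP ≤ T := Nat.find_min' hP hP'
  obtain ⟨T₁, hT₁⟩ : ∃ T₁, T₁ = Nat.find hP := ⟨_, rfl⟩
  rw [← hT₁] at hT1
  have hbefore : ∀ t < T₁, Inside (dig ((A : ℝ) / 6 ^ r)) (q t).1 (q t).2 ∧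
      2 * |((q t).1 : ℤ) - (q 0).1| ≤ (q 0).1 := by
    intro t ht
    rw [hT₁] at ht
    have h := Nat.find_min hP ht
    push Not at h
    refine ⟨h.1, ?_⟩
    have h1 : min η (1 / 2) * ((q 0).1 : ℝ) ≤ 1 / 2 * (q 0).1 :=
      mul_le_mul_of_nonneg_right (min_le_right _ _) (Nat.cast_nonneg _)
    have h2 : 2 * |((q t).1 : ℝ) - (q 0).1| ≤ (q 0).1 := by linarith [h.2.1]
    exact_mod_cast h2
  obtain ⟨t, ht, h⟩ := hN T₁ q hq0 (fun t ht => hstep t (by omega))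
    (fun t ht => (hbefore t ht).1) hin0 (by
      intro t ht
      rcases Nat.lt_or_ge t T₁ with h | h
      · have := (hbefore t h).2
        omega
      · obtain rfl : t = T₁ := by omega
        rcases Nat.eq_zero_or_pos t with h0 | h0
        · rw [h0, sub_self, abs_zero]
          positivity
        · have e1 := (hbefore (t - 1) (by omega)).2
          have e2 := (hstep (t - 1) (by omega)).1
          rw [show t - 1 + 1 = t by omega] at e2
          have e3 : |((q t).1 : ℤ) - (q 0).1| ≤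
              |((q t).1 : ℤ) - (q (t - 1)).1| + |((q (t - 1)).1 : ℤ) - (q 0).1| :=
            abs_sub_le _ _ _
          omega)
    (by rw [hT₁]; exact Nat.find_spec hP)
  exact ⟨t, by omega, h⟩

end MPcc0Tri3
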