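import Pool.Agent.Lib.MP_cc0c1a_nt.Tri3.Final3
import Pool.Agent.Lib.MP_cc0c1a_nt.Tri3.PathRich

set_option autoImplicit false

/-!
# MP_cc0c1a_nt / Tri3: assembly, rich points (helper60)
-/

open Pool.Agent.Results.MP_cc0c1a_nt.SyndeticPositions (Config IsFin Shows F)

namespace MPcc0Tri3

open MPcc0Tri2

theorem final_rich (ℓ : ℕ) (ε : ℝ) (hε : 0 < ε) : ∃ c : ℝ, 0 < c ∧ ∃ H₀ : ℕ, ∀ x : Config,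
    IsFin x → x ≠ 0 → ∀ η : ℝ, 0 < η → ∃ N₀ : ℕ, ∀ (T : ℕ) (q : ℕ → ℕ × ℤ), N₀ ≤ (q 0).1 →
    (∀ t < T, |((q (t + 1)).1 : ℤ) - (q t).1| ≤ 1 ∧ |(q (t + 1)).2 - (q t).2| ≤ 1) →
    Inside x (q 0).1 (q 0).2 →
    (¬ Inside x (q T).1 (q T).2 ∨
      η * (q 0).1 ≤ |((q T).1 : ℝ) - (q 0).1| ∨ η * (q 0).1 ≤ |((q T).2 : ℝ) - (q 0).2|) →
    ∃ t ≤ T, Rich x ℓ ε c H₀ (q 0).1 (q t).1 (q t).2 :=
  path_rich mahler conn (t6 sizeSum t1 (t2 t1) numBound t5) t1 geoC ℓ ε hε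

end MPcc0Tri3
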