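import Pool.Agent.Lib.MP_cc0c1a_nt.Tri3.Lower
import Pool.Agent.Lib.MP_cc0c1a_nt.Core

set_option autoImplicit false

/-!
# MP_cc0c1a_nt / Tri3: most positions show all words in every macroscopic time window (helper60)
-/

open Finset
open scoped Classical
open Pool.Agent.Results.MP_cc0c1a_nt.SyndeticPositions (Y Y_mul Y_next arc shows_of_arc
  exists_code fin_eq_dig Config IsFin Shows F dig)
open Pool.Agent.Lib.MP_cc0c1a_nt (T Seq Gd Esc core exists_rep coe_int nsmul_coe norm_coe_le)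

namespace MPcc0Tri3

open MPcc0Tri MPcc0Tri2

lemma dop_shift (ξ : ℝ) (n : ℕ) (j : ℤ) {l : ℕ} (hl : l ≤ n) :
    4 ^ l • Y ξ n j = Y ξ (n - l) (j + l) := by
  have h := Y_mul ξ n j hl 0
  simpa using h

lemma dop_arc {L c : ℕ} (hL : 0 < L) {y : T}
    (h : ‖y - (((c + 1 / 2 : ℝ) / L : ℝ) : T)‖ < 1 / (2 * L)) : y ∈ arc L c := by
  obtain ⟨r, hr, hr2, -⟩ := exists_rep (y - (((c + 1 / 2 : ℝ) / L : ℝ) : T))
  rw [← hr2, abs_lt] at h
  have hL' : (0 : ℝ) < L := by exact_mod_cast hL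
  refine ⟨r + (c + 1 / 2 : ℝ) / L, ⟨?_, ?_⟩, ?_⟩
  · have : (c : ℝ) / L = (c + 1 / 2 : ℝ) / L - 1 / (2 * L) := by field_simp; ring
    rw [this]
    linarith [h.1]
  · have : ((c : ℝ) + 1) / L = (c + 1 / 2 : ℝ) / L + 1 / (2 * L) := by field_simp; ring
    rw [this]
    linarith [h.2]
  · simp only
    rw [AddCircle.coe_add, hr]
    abel

lemma two_thirds (k : ℕ) : (2 / 3 : ℝ) ^ k ≤ 2 ^ (-((k : ℝ) / 2)) := by
  rw [← pow_le_pow_iff_left₀ (n := 2) (by positivity) (by positivity) (by norm_num)]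
  rw [← Real.rpow_natCast (2 ^ (-((k : ℝ) / 2))), ← Real.rpow_mul (by norm_num)]
  have e1 : -((k : ℝ) / 2) * ((2 : ℕ) : ℝ) = -(k : ℝ) := by push_cast; ring
  rw [e1, Real.rpow_neg (by norm_num), Real.rpow_natCast, ← inv_pow, ← pow_mul, mul_comm k 2,
    pow_mul]
  apply pow_le_pow_left₀ (by norm_num)
  norm_num

/-- Most positions of a short block are good, in every macroscopic time window. -/
theorem dop_windows (hM : Mahler) (ℓ : ℕ) {θ : ℝ} (hθ : 0 < θ) : ∃ B₀ : ℕ, 0 < B₀ ∧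
    ∀ x : Config, IsFin x → x ≠ 0 → ∀ ε : ℝ, 0 < ε → ∃ N₀ : ℕ, ∀ N : ℕ, N₀ ≤ N →
      ∀ B : ℕ, B₀ ≤ B → B < 2 * B₀ → ∀ j₀ : ℤ, Inside x N j₀ → Inside x N (j₀ + B) →
      ∃ S : Finset ℕ, S ⊆ Finset.range B ∧ (1 - θ) * B ≤ (S.card : ℝ) ∧
        ∀ l ∈ S, ∀ w : Fin ℓ → Fin 6, ∃ n : ℕ, N ≤ n ∧ (n : ℝ) ≤ (1 + ε) * N ∧
          Shows (F^[n] x) (j₀ + l) w := by
  obtain ⟨Λ₀, C, hcore⟩ := core (ε := 1 / (2 * ((6 ^ ℓ : ℕ) : ℝ))) (by positivity) hθ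
  refine ⟨Λ₀ + 1, by omega, fun x hx hne ε₀ hε₀ => ?_⟩
  obtain ⟨A, r, rfl⟩ := fin_eq_dig hx
  have hA : 0 < A := by
    rcases Nat.eq_zero_or_pos A with h | h
    · exfalso
      apply hne
      subst h
      funext i
      apply Fin.ext
      unfold dig
      simp
    · exact h
  have hξ : (0 : ℝ) < (A : ℝ) / 6 ^ r := by positivity
  obtain ⟨v1, g1, hg1, hAv⟩ := Nat.exists_eq_two_pow_mul_odd (n := A) hA.ne'
  obtain ⟨ε, hε⟩ : ∃ ε : ℝ, ε = min ε₀ 1 := ⟨_, rfl⟩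
  have hε0 : 0 < ε := by rw [hε]; exact lt_min hε₀ one_pos
  have hε1 : ε ≤ 1 := by rw [hε]; exact min_le_right _ _
  have hεle : ε ≤ ε₀ := by rw [hε]; exact min_le_left _ _
  have hQ : ∀ Q : ℕ, ∃ N₁ : ℕ, 0 < Q → ∀ n : ℕ, N₁ ≤ n → ∀ j : ℤ,
      1 ≤ (6 : ℝ) ^ j * ((A : ℝ) / 6 ^ r * (3 / 2) ^ n) → (Q : ℤ) ≤ n - j + 1 + r - v1 →
      (2 : ℝ) ^ (-(ε / 16 * n)) ≤ ‖Q • Y ((A : ℝ) / 6 ^ r) n j‖ := by
    intro Q
    rcases Nat.eq_zero_or_pos Q with h | h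
    · exact ⟨0, fun h' => absurd h' (by omega)⟩
    · obtain ⟨N₁, h1⟩ := lower_Y (r := r) hM hAv hg1 h (δ := ε / 16) (by positivity) (by linarith)
      exact ⟨N₁, fun _ => h1⟩
  choose NQ hNQ using hQ
  obtain ⟨NL, hNL⟩ := left_bound A
  obtain ⟨K, hK⟩ := exists_nat_gt ((20 * C + 6 * (Λ₀ + 1) + 10) / ε)
  refine ⟨K + NL + 2 * (r + 2) + ∑ Q ∈ Finset.range (C + 1), NQ Q, ?_⟩
  intro N hN B hB hB2 j₀ hin1 hin2
  have hsum : ∀ Q, Q ≤ C → NQ Q ≤ ∑ Q ∈ Finset.range (C + 1), NQ Q := by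
    intro Q hQC
    exact Finset.single_le_sum (f := NQ) (fun _ _ => Nat.zero_le _)
      (Finset.mem_range.2 (by omega))
  have hKN : (20 * C + 6 * (Λ₀ + 1) + 10 : ℝ) ≤ ε * N := by
    have h1 : (K : ℝ) ≤ N := by exact_mod_cast (by omega : K ≤ N)
    rw [div_lt_iff₀ hε0] at hK
    have : (K : ℝ) * ε ≤ N * ε := by gcongr
    linarith
  have hBr : (B : ℝ) ≤ 2 * (Λ₀ + 1) := by exact_mod_cast hB2.le
  have hNN : 20 * C + 6 * (Λ₀ + 1) + 10 ≤ N := by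
    have h1 : ε * N ≤ 1 * N := by gcongr
    have : ((20 * C + 6 * (Λ₀ + 1) + 10 : ℕ) : ℝ) ≤ N := by push_cast; linarith
    exact_mod_cast this
  -- the hull
  have hl0 := inside_left hin1.1
  have hlb := hNL N (by omega) r j₀ hl0
  have hr0 := inside_right (Q := 1) (A := A) (r := r) (v := v1) (g0 := g1) (n := N)
    (j := j₀ + B) one_pos hA (by rw [one_mul]; exact hAv) (by omega) hin2.2
  -- the sequence
  obtain ⟨E, hE⟩ : ∃ E : ℕ, E = N + B + C := ⟨_, rfl⟩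
  obtain ⟨M, hMd⟩ : ∃ M : ℕ, M = ⌊(1 + ε) * N⌋₊ - C := ⟨_, rfl⟩
  have hfl1 : (⌊(1 + ε) * N⌋₊ : ℝ) ≤ (1 + ε) * N := Nat.floor_le (by positivity)
  have hfl2 : (1 + ε) * N < ⌊(1 + ε) * N⌋₊ + 1 := Nat.lt_floor_add_one _
  have hfl3 : N + B + 6 * C + 1 ≤ ⌊(1 + ε) * N⌋₊ := by
    have : ((N + B + 6 * C + 1 : ℕ) : ℝ) < ((⌊(1 + ε) * N⌋₊ + 1 : ℕ) : ℝ) := by
      push_cast
      have : (0 : ℝ) ≤ C := Nat.cast_nonneg _
      have : (0 : ℝ) ≤ Λ₀ := Nat.cast_nonneg _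
      linarith
    have := Nat.cast_lt.1 this
    omega
  set v : ℕ → T := fun n => Y ((A : ℝ) / 6 ^ r) n j₀ with hv
  have hseq : Seq v := fun n => Y_next _ _ _
  have hesc : ∀ l < B, Esc C v E M l := by
    intro l hl
    refine ⟨by omega, ?_⟩
    intro Q c hQ1 hQC hcC
    have hshift : 4 ^ l • v (E + c) = Y ((A : ℝ) / 6 ^ r) (E + c - l) (j₀ + l) :=
      dop_shift _ _ _ (by omega)
    rw [hshift]
    have hleft : 1 ≤ (6 : ℝ) ^ (j₀ + l) * ((A : ℝ) / 6 ^ r * (3 / 2) ^ (E + c - l)) := by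
      refine hl0.trans ?_
      gcongr
      · norm_num
      · omega
      · norm_num
      · omega
    have h1 := hNQ Q hQ1 (E + c - l) (by have := hsum Q hQC; omega) (j₀ + l) hleft (by
      push_cast [Nat.cast_sub (show l ≤ E + c by omega)]
      omega)
    refine lt_of_lt_of_le ?_ h1
    obtain ⟨k, hk⟩ : ∃ k : ℕ, k = M - E - 2 * C := ⟨_, rfl⟩
    rw [← hk]
    have hk1 : ε * N / 2 ≤ k := by
      have h2 : (⌊(1 + ε) * N⌋₊ : ℝ) = k + 4 * C + N + B := by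
        have : ⌊(1 + ε) * N⌋₊ = k + 4 * C + N + B := by omega
        exact_mod_cast this
      have : (0 : ℝ) ≤ C := Nat.cast_nonneg _
      have : (0 : ℝ) ≤ Λ₀ := Nat.cast_nonneg _
      linarith
    have hn2 : ((E + c - l : ℕ) : ℝ) ≤ 2 * N := by exact_mod_cast (by omega : E + c - l ≤ 2 * N)
    have h3 : (C : ℝ) < 2 ^ (C : ℝ) := by
      rw [Real.rpow_natCast]
      exact_mod_cast Nat.lt_two_pow_self
    have h4 := two_thirds k
    have h5 : (0 : ℝ) < (2 / 3 : ℝ) ^ k := by positivity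
    calc (C : ℝ) * (2 / 3) ^ k < 2 ^ (C : ℝ) * (2 / 3) ^ k := mul_lt_mul_of_pos_right h3 h5
      _ ≤ 2 ^ (C : ℝ) * 2 ^ (-((k : ℝ) / 2)) := by gcongr
      _ = 2 ^ ((C : ℝ) + -((k : ℝ) / 2)) := by rw [Real.rpow_add (by norm_num)]
      _ ≤ 2 ^ (-(ε / 16 * ((E + c - l : ℕ) : ℝ))) := by
          apply Real.rpow_le_rpow_of_exponent_le (by norm_num)
          have h6 : ε / 16 * ((E + c - l : ℕ) : ℝ) ≤ ε / 16 * (2 * N) := by gcongr
          have : (0 : ℝ) ≤ C := Nat.cast_nonneg _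
          have : (0 : ℝ) ≤ Λ₀ := Nat.cast_nonneg _
          linarith
  have hbad := hcore B (by omega) v hseq E M hesc
  set Bad := (Finset.range B).filter
    (fun l => ¬ Gd (1 / (2 * ((6 ^ ℓ : ℕ) : ℝ))) v E (M + C) l) with hBad
  refine ⟨(Finset.range B) \ Bad, Finset.sdiff_subset, ?_, ?_⟩
  · have h1 : ((Finset.range B) \ Bad).card = B - Bad.card := by
      rw [Finset.card_sdiff_of_subset (Finset.filter_subset _ _), Finset.card_range]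
    have h2 : Bad.card ≤ B := by
      have := Finset.card_le_card (Finset.filter_subset
        (fun l => ¬ Gd (1 / (2 * ((6 ^ ℓ : ℕ) : ℝ))) v E (M + C) l) (Finset.range B))
      rwa [Finset.card_range] at this
    rw [h1, Nat.cast_sub h2]
    have h3 : (Bad.card : ℝ) ≤ θ * B := by
      convert hbad
    linarith
  · intro l hl w
    rw [Finset.mem_sdiff] at hl
    have hlB : l < B := Finset.mem_range.1 hl.1
    have hgd : Gd (1 / (2 * ((6 ^ ℓ : ℕ) : ℝ))) v E (M + C) l := by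
      by_contra hcon
      exact hl.2 (Finset.mem_filter.2 ⟨hl.1, hcon⟩)
    obtain ⟨W, hWlt, hW⟩ := exists_code w
    obtain ⟨n, hn1, hn2, hn⟩ := hgd ((((W : ℝ) + 1 / 2) / ((6 ^ ℓ : ℕ) : ℝ) : ℝ) : T)
    have hnM : n - l ≤ ⌊(1 + ε) * N⌋₊ := by omega
    refine ⟨n - l, by omega, ?_, ?_⟩
    · have h1 : ((n - l : ℕ) : ℝ) ≤ (⌊(1 + ε) * N⌋₊ : ℝ) := by exact_mod_cast hnM
      have h2 : ε * N ≤ ε₀ * N := by gcongr
      linarith
    · apply shows_of_arc hW hWlt hξ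
      rw [← dop_shift _ _ _ (by omega)]
      exact dop_arc (by positivity) hn

end MPcc0Tri3
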