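import Pool.Agent.Lib.MP_cc0c1a_nt.Tri3.SpecU

/-!
# MP_cc0c1a_nt / Tri3 / U1: large faces (Mahler's theorem from the Subspace theorem)
-/

set_option autoImplicit false

namespace MPcc0Tri3

open Finset MPcc0Tri MPcc0Tri2

private lemma u1_one : 1 < th := by
  unfold th
  rw [Real.lt_logb_iff_rpow_lt (by norm_num) (by norm_num)]
  norm_num

/-- (1) -/
private lemma u1_L {g V : ℕ} (hg : 0 < g) {i : ℚ} (hi : i ≠ 0) {L b : ℕ} (hint : IntAt i L b)
    (hlt : |((g * 2 ^ V : ℕ) : ℝ) - i| * 8 * 3 ^ b < 2 ^ L) :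
    (L : ℝ) ≤ V + Real.logb 2 (2 * g) + th * b := by
  obtain ⟨k, hk⟩ := hint
  have hk0 : k ≠ 0 := by
    rintro rfl
    rw [Int.cast_zero, zero_mul] at hk
    exact hi ((mul_eq_zero.1 hk).resolve_right (by positivity))
  have hk' : (i : ℝ) * 3 ^ b = k * 2 ^ L := by exact_mod_cast hk
  have hk1 : (1 : ℝ) ≤ |(k : ℝ)| := by
    have : (1 : ℤ) ≤ |k| := Int.one_le_abs hk0
    exact_mod_cast this
  have h3b : (0 : ℝ) < 3 ^ b := by positivity
  have h2L : (0 : ℝ) < 2 ^ L := by positivity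
  have h1 : (2 : ℝ) ^ L ≤ |(i : ℝ)| * 3 ^ b := by
    have h2 : |(i : ℝ)| * 3 ^ b = |(k : ℝ)| * 2 ^ L := by
      rw [← abs_of_pos h3b, ← abs_mul, hk', abs_mul, abs_of_pos h2L]
    rw [h2]
    exact le_mul_of_one_le_left h2L.le hk1
  have h2 : |(i : ℝ)| ≤ ((g * 2 ^ V : ℕ) : ℝ) + |((g * 2 ^ V : ℕ) : ℝ) - i| := by
    have h4 := abs_sub_abs_le_abs_sub (i : ℝ) ((g * 2 ^ V : ℕ) : ℝ)
    rw [abs_sub_comm, Nat.abs_cast] at h4
    linarith
  have h4 : |(i : ℝ)| * 3 ^ b ≤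
      (((g * 2 ^ V : ℕ) : ℝ) + |((g * 2 ^ V : ℕ) : ℝ) - i|) * 3 ^ b :=
    mul_le_mul_of_nonneg_right h2 h3b.le
  have h5 : (2 : ℝ) ^ L ≤ 2 * ((g * 2 ^ V : ℕ) : ℝ) * 3 ^ b := by
    have h6 : 0 ≤ ((g * 2 ^ V : ℕ) : ℝ) * 3 ^ b := by positivity
    nlinarith
  have hgR : (0 : ℝ) < g := by exact_mod_cast hg
  have h6 : Real.logb 2 ((2 : ℝ) ^ L) ≤ Real.logb 2 (2 * ((g * 2 ^ V : ℕ) : ℝ) * 3 ^ b) :=
    Real.logb_le_logb_of_le (by norm_num) h2L h5
  have h7 : Real.logb 2 (2 * ((g * 2 ^ V : ℕ) : ℝ) * 3 ^ b) =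
      V + Real.logb 2 (2 * g) + th * b := by
    push_cast
    rw [show (2 : ℝ) * (g * 2 ^ V) * 3 ^ b = 2 * g * 2 ^ V * 3 ^ b by ring,
      Real.logb_mul (by positivity) (by positivity), Real.logb_mul (by positivity) (by positivity),
      Real.logb_pow, Real.logb_pow, Real.logb_self_eq_one (by norm_num)]
    unfold th
    ring
  rw [h7, Real.logb_pow, Real.logb_self_eq_one (by norm_num), mul_one] at h6
  exact h6

/-- (2) -/
private lemma u1_rho {G : ℕ} {i : ℚ} (hi : i ≠ (G : ℚ)) {s : ℕ} (hint : IntAt i 0 s) :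
    3 - th * s ≤ Real.logb 2 (|(G : ℝ) - i| * 8) := by
  obtain ⟨k, hk⟩ := hint
  rw [pow_zero, mul_one] at hk
  have hk' : (i : ℝ) * 3 ^ s = k := by exact_mod_cast hk
  have h3b : (0 : ℝ) < 3 ^ s := by positivity
  have hne : (G : ℤ) * 3 ^ s - k ≠ 0 := by
    intro h
    apply hi
    have h1 : ((G : ℚ)) * 3 ^ s = k := by
      have : (((G : ℤ) * 3 ^ s - k : ℤ) : ℚ) = 0 := by rw [h]; norm_num
      push_cast at this
      linarith
    rw [← h1] at hk
    exact mul_right_cancel₀ (by positivity) hk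
  have h1 : (1 : ℝ) ≤ |(G : ℝ) - i| * 3 ^ s := by
    have h2 : (1 : ℤ) ≤ |(G : ℤ) * 3 ^ s - k| := Int.one_le_abs hne
    have h3 : (1 : ℝ) ≤ |(G : ℝ) * 3 ^ s - k| := by exact_mod_cast h2
    have h4 : (G : ℝ) * 3 ^ s - k = ((G : ℝ) - i) * 3 ^ s := by rw [← hk']; ring
    rw [h4, abs_mul, abs_of_pos h3b] at h3
    exact h3
  have h2 : (8 : ℝ) / 3 ^ s ≤ |(G : ℝ) - i| * 8 := by
    rw [div_le_iff₀ h3b]
    linarith
  have h3 := Real.logb_le_logb_of_le (by norm_num : (1 : ℝ) < 2) (by positivity) h2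
  have h4 : Real.logb 2 ((8 : ℝ) / 3 ^ s) = 3 - th * s := by
    rw [Real.logb_div (by norm_num) (by positivity), Real.logb_pow]
    have h5 : Real.logb 2 (8 : ℝ) = 3 := by
      rw [show (8 : ℝ) = 2 ^ (3 : ℕ) by norm_num, Real.logb_pow,
        Real.logb_self_eq_one (by norm_num)]
      norm_num
    rw [h5]
    unfold th
    ring
  rw [h4] at h3
  exact h3

theorem u1 (h1 : SizeSum) : Mahler := by
  classical
  intro g hg ε hε
  have hth := th_pos
  have hone := u1_one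
  have hlt2 := th_lt
  have hgR : (0 : ℝ) < g := by exact_mod_cast hg
  have hg1 : (1 : ℝ) ≤ g := by exact_mod_cast hg
  obtain ⟨τ₀, hτ₀, hS⟩ := h1 3 (ε / 14) (by positivity)
  set R : ℝ := Real.logb 2 (8 * g) with hR
  have hR0 : 0 ≤ R := Real.logb_nonneg (by norm_num) (by linarith)
  have hR2 : Real.logb 2 (2 * g) ≤ R :=
    Real.logb_le_logb_of_le (by norm_num) (by positivity) (by linarith)
  have hR2' : 0 ≤ Real.logb 2 (2 * (g : ℝ)) := Real.logb_nonneg (by norm_num) (by linarith)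
  refine ⟨⌈τ₀⌉₊ + ⌈R + 2⌉₊ + ⌈2 * R / ε⌉₊, ?_⟩
  intro n hn F V H hF hV hH i hi hi0 hiG a b hb hcov
  have hn1 : τ₀ ≤ n := (Nat.le_ceil _).trans (by exact_mod_cast (by omega : ⌈τ₀⌉₊ ≤ n))
  have hn2 : R + 2 ≤ n := (Nat.le_ceil _).trans (by exact_mod_cast (by omega : ⌈R + 2⌉₊ ≤ n))
  have hn3 : 2 * R / ε ≤ n := (Nat.le_ceil _).trans (by exact_mod_cast (by omega : ⌈2 * R / ε⌉₊ ≤ n))
  have hn4 : 2 * R ≤ ε * n := by
    rw [div_le_iff₀ hε] at hn3
    linarith
  set G : ℕ := g * 2 ^ V with hG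
  have hG0 : 0 < G := by positivity
  have hGR : (0 : ℝ) < G := by exact_mod_cast hG0
  have hrho := hF.rho i hi hiG
  have hGi : (G : ℝ) - i ≠ 0 := by
    rw [sub_ne_zero]
    intro h
    apply hiG
    exact_mod_cast h.symm
  have hpos : 0 < |(G : ℝ) - i| * 8 := by positivity
  obtain ⟨hsb, hra, haL⟩ := hcov
  have hsi : F.s i ≤ H := hsb.trans hb
  have hHn : (H : ℝ) ≤ n := by exact_mod_cast hH
  have hVn : (V : ℝ) ≤ n := by exact_mod_cast hV
  have hbH : (b : ℝ) ≤ H := by exact_mod_cast hb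
  have hthH : th * (b : ℝ) ≤ th * H := mul_le_mul_of_nonneg_left hbH hth.le
  have hsH : th * (F.s i : ℝ) ≤ th * H :=
    mul_le_mul_of_nonneg_left (by exact_mod_cast hsi) hth.le
  have hH0 : 0 ≤ th * (H : ℝ) := by positivity
  -- (1)
  have hL : (F.L i : ℝ) ≤ V + Real.logb 2 (2 * g) + th * b := by
    refine u1_L hg hi0 (hF.int i hi (F.L i) b hsb le_rfl) ?_
    rw [hrho] at hra
    have h2 := (logb_iff hpos a b).1 hra
    exact lt_of_lt_of_le h2 (pow_le_pow_right₀ (by norm_num) haL)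
  -- (2)
  have hr : 3 - th * F.s i ≤ F.ρ i := by
    rw [hrho]
    exact u1_rho hiG (hF.int i hi 0 (F.s i) le_rfl (Nat.zero_le _))
  -- the family
  set A : ℕ := V + ⌈Real.logb 2 (2 * (g : ℝ))⌉₊ + ⌈th * H⌉₊ + n with hA
  have hA1 : (V : ℝ) + Real.logb 2 (2 * g) + th * H + n ≤ A := by
    have e1 := Nat.le_ceil (Real.logb 2 (2 * (g : ℝ)))
    have e2 := Nat.le_ceil (th * (H : ℝ))
    rw [hA]
    push_cast
    linarith
  have hA2 : (A : ℝ) ≤ V + Real.logb 2 (2 * g) + th * H + n + 2 := by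
    have e1 := Nat.ceil_lt_add_one hR2'
    have e2 := Nat.ceil_lt_add_one hH0
    rw [hA]
    push_cast
    linarith
  let F₃ : Faces ℚ := ⟨{0, (G : ℚ), i}, fun j => if j = 0 then A else if j = G then V else F.L i,
    fun j => if j = 0 then 0 else if j = G then 0 else F.s i,
    fun j => if j = 0 then R + V else if j = G then - (th * H) else F.ρ i⟩
  have hGq : (G : ℚ) ≠ 0 := by exact_mod_cast hG0.ne'
  have L0 : F₃.L 0 = A := by simp [F₃]
  have LG : F₃.L G = V := by simp [F₃, hG0.ne']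
  have Li : F₃.L i = F.L i := by simp [F₃, hi0, hiG]
  have s0 : F₃.s 0 = 0 := by simp [F₃]
  have sG : F₃.s G = 0 := by simp [F₃, hG0.ne']
  have si : F₃.s i = F.s i := by simp [F₃, hi0, hiG]
  have r0 : F₃.ρ 0 = R + V := by simp [F₃]
  have rG : F₃.ρ G = - (th * H) := by simp [F₃, hG0.ne']
  have ri : F₃.ρ i = F.ρ i := by simp [F₃, hi0, hiG]
  have hmem : ∀ j, j ∈ F₃.I ↔ j = 0 ∨ j = (G : ℚ) ∨ j = i := by
    intro j
    simp [F₃]
  have hp0 : (2 : ℝ) ^ (R + V) = 8 * G := by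
    rw [hR, Real.rpow_add (by norm_num), Real.rpow_logb (by norm_num) (by norm_num) (by positivity),
      Real.rpow_natCast, hG]
    push_cast
    ring
  have hpi : (2 : ℝ) ^ (F.ρ i) = |(G : ℝ) - i| * 8 := by
    rw [hrho, Real.rpow_logb (by norm_num) (by norm_num) hpos]
  have hmax1 : ∀ x y : ℝ, (2 : ℝ) ^ x ≤ 2 ^ max x y := fun x y =>
    Real.rpow_le_rpow_of_exponent_le (by norm_num) (le_max_left _ _)
  have hmax2 : ∀ x y : ℝ, (2 : ℝ) ^ y ≤ 2 ^ max x y := fun x y =>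
    Real.rpow_le_rpow_of_exponent_le (by norm_num) (le_max_right _ _)
  have hi3 : |(i : ℝ)| ≤ G + |(G : ℝ) - i| := by
    have h4 := abs_sub_abs_le_abs_sub (i : ℝ) (G : ℝ)
    rw [abs_sub_comm, Nat.abs_cast] at h4
    linarith
  have hAri : Ari F₃ := by
    refine ⟨?_, ?_⟩
    · intro j hj
      rcases (hmem j).1 hj with rfl | rfl | rfl
      · exact ⟨0, by simp⟩
      · rw [LG, sG]
        exact ⟨g, by rw [hG]; push_cast; ring⟩
      · rw [Li, si]
        exact hF.int j hi _ _ le_rfl le_rfl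
    · have hsymm : ∀ j k : ℚ, |(j : ℝ) - k| ≤ 2 ^ max (F₃.ρ j) (F₃.ρ k) →
          |(k : ℝ) - j| ≤ 2 ^ max (F₃.ρ k) (F₃.ρ j) := by
        intro j k h
        rw [abs_sub_comm, max_comm]
        exact h
      have hself : ∀ j : ℚ, |(j : ℝ) - j| ≤ 2 ^ max (F₃.ρ j) (F₃.ρ j) := by
        intro j
        rw [sub_self, abs_zero]
        positivity
      have d0G : |((0 : ℚ) : ℝ) - ((G : ℚ) : ℝ)| ≤ 2 ^ max (F₃.ρ 0) (F₃.ρ G) := by
        rw [r0]
        refine le_trans ?_ (hmax1 _ _)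
        rw [hp0, Rat.cast_zero, zero_sub, abs_neg, Rat.cast_natCast, Nat.abs_cast]
        linarith
      have dGi : |((G : ℚ) : ℝ) - (i : ℝ)| ≤ 2 ^ max (F₃.ρ G) (F₃.ρ i) := by
        rw [ri]
        refine le_trans ?_ (hmax2 _ _)
        rw [hpi, Rat.cast_natCast]
        have := abs_nonneg ((G : ℝ) - i)
        linarith
      have d0i : |((0 : ℚ) : ℝ) - (i : ℝ)| ≤ 2 ^ max (F₃.ρ 0) (F₃.ρ i) := by
        rw [r0, ri]
        have e1 := hmax1 (R + V) (F.ρ i)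
        have e2 := hmax2 (R + V) (F.ρ i)
        rw [hp0] at e1
        rw [hpi] at e2
        rw [Rat.cast_zero, zero_sub, abs_neg]
        have := abs_nonneg ((G : ℝ) - i)
        linarith
      intro j hj k hk
      rcases (hmem j).1 hj with rfl | rfl | rfl <;> rcases (hmem k).1 hk with rfl | rfl | rfl
      · exact hself _
      · exact d0G
      · exact d0i
      · exact hsymm _ _ d0G
      · exact hself _
      · exact dGi
      · exact hsymm _ _ d0i
      · exact hsymm _ _ dGi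
      · exact hself _
  have hcard : F₃.I.card ≤ 3 := card_le_three
  have hτ : τ₀ ≤ (A : ℝ) - (- (th * H)) - th * ((0 : ℕ) : ℝ) := by
    rw [Nat.cast_zero, mul_zero]
    have : (0 : ℝ) ≤ V := Nat.cast_nonneg _
    linarith
  have hsum := hS F₃ hAri F₃.I Subset.rfl hcard A 0 (- (th * H)) hτ
  have hV0 : (0 : ℝ) ≤ V := Nat.cast_nonneg _
  have z0 : sz F₃ 0 A 0 (- (th * H)) = A - (R + V) := by
    unfold sz
    rw [L0, s0, r0, min_self, max_eq_left (by linarith : - (th * (H : ℝ)) ≤ R + V)]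
    simp
  have zG : sz F₃ G A 0 (- (th * H)) = V + th * H := by
    unfold sz
    rw [LG, sG, rG, max_self, min_eq_left (by linarith : (V : ℝ) ≤ A)]
    simp
  have zi : sz F₃ i A 0 (- (th * H)) = th * F.lam th i := by
    unfold sz Faces.lam
    rw [Li, si, ri, min_eq_left (by linarith : (F.L i : ℝ) ≤ A),
      max_eq_left (by linarith : - (th * (H : ℝ)) ≤ F.ρ i)]
    have e1 : max (F.s i : ℝ) ((0 : ℕ) : ℝ) = F.s i := by simp
    rw [e1]
    field_simp
  have hsum2 : (A - (R + V)) + (V + th * H) + th * F.lam th i ≤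
      ∑ j ∈ F₃.I, max 0 (sz F₃ j A 0 (- (th * H))) := by
    have e1 : F₃.I = {0, (G : ℚ), i} := rfl
    have e2 : (0 : ℚ) ∉ ({(G : ℚ), i} : Finset ℚ) := by
      rw [mem_insert, mem_singleton, not_or]
      exact ⟨hGq.symm, hi0.symm⟩
    have e3 : (G : ℚ) ∉ ({i} : Finset ℚ) := by
      rw [mem_singleton]
      exact hiG.symm
    rw [e1, sum_insert e2, sum_insert e3, sum_singleton, z0, zG, zi]
    have f1 := le_max_right 0 ((A : ℝ) - (R + V))
    have f2 := le_max_right 0 ((V : ℝ) + th * H)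
    have f3 := le_max_right 0 (th * F.lam th i)
    linarith
  have hfin := hsum2.trans hsum
  rw [Nat.cast_zero, mul_zero, sub_zero, sub_neg_eq_add] at hfin
  have hbound : (A : ℝ) + th * H ≤ 7 * n := by
    have e1 : th * (H : ℝ) ≤ 2 * n := by
      calc th * (H : ℝ) ≤ 2 * H := mul_le_mul_of_nonneg_right hlt2.le (Nat.cast_nonneg _)
        _ ≤ 2 * n := by linarith
    linarith
  have hε14 : ε / 14 * ((A : ℝ) + th * H) ≤ ε / 14 * (7 * n) :=
    mul_le_mul_of_nonneg_left hbound (by positivity)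
  have e5 : (1 + ε / 14) * ((A : ℝ) + th * H) = A + th * H + ε / 14 * (A + th * H) := by ring
  have e6 : ε / 14 * (7 * (n : ℝ)) = ε * n / 2 := by ring
  rw [e5] at hfin
  rw [e6] at hε14
  have hlam : th * F.lam th i ≤ ε * n := by linarith
  rcases le_or_gt 0 (F.lam th i) with h | h
  · refine le_trans ?_ hlam
    exact le_mul_of_one_le_left h hone.le
  · have : 0 ≤ ε * (n : ℝ) := by positivity
    linarith

end MPcc0Tri3
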