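import Pool.Agent.Lib.MP_cc0c1a_nt.Tri3.SpecU

/-!
# MP_cc0c1a_nt / Tri3 / U2: horizontal neighbours (helper17)
-/

set_option autoImplicit false

namespace MPcc0Tri3

open Finset MPcc0Tri MPcc0Tri2

private lemma u2_th : 1 < th := by
  unfold th
  rw [Real.lt_logb_iff_rpow_lt (by norm_num) (by norm_num)]
  norm_num

private lemma u2_life {F : Faces ℚ} {w : ℝ} {i : ℚ} (hw : 3 ≤ w) (hi : i ∈ F.big th w) :
    F.ρ i + th * F.s i + 3 * th ≤ F.L i := by
  have h1 : w ≤ F.lam th i := by
    unfold Faces.big at hi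
    exact (mem_filter.1 hi).2
  have h2 : 3 + (F.s i : ℝ) ≤ ((F.L i : ℝ) - F.ρ i) / th := by
    unfold Faces.lam at h1
    linarith
  rw [le_div_iff₀ th_pos] at h2
  linarith

private lemma u2_mem {F : Faces ℚ} {w : ℝ} {i : ℚ} (hi : i ∈ F.big th w) : i ∈ F.I := by
  unfold Faces.big at hi
  exact (mem_filter.1 hi).1

private lemma u2_alive {F : Faces ℚ} {i : ℚ} {a b : ℕ} (h : F.Cov th i a b) : F.Alive th i b :=
  ⟨h.1, h.2.1.trans_le (by exact_mod_cast h.2.2)⟩

private lemma u2_two {F : Faces ℚ} (hD : Dis F) {i j : ℚ} (hi : i ∈ F.I) (hj : j ∈ F.I) {a b : ℕ}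
    (ci : F.Cov th i a b) (cj : F.Cov th j a b) : i = j := by
  by_contra hne
  have h1 : (a : ℝ) ≤ F.L i := by exact_mod_cast ci.2.2
  have h2 : (a : ℝ) ≤ F.L j := by exact_mod_cast cj.2.2
  have h3 := ci.2.1
  have h4 := cj.2.1
  rcases hD i hi j hj hne b (u2_alive ci) (u2_alive cj) with h | h <;> linarith

private lemma u2_F1 {F : Faces ℚ} (hD : Dis F) {i k : ℚ} (hi : i ∈ F.I) (hk : k ∈ F.I)
    (hne : i ≠ k) {a b : ℕ} (ci : F.Cov th i a b) (ck : F.Cov th k (a + 1) b) : F.L i = a := by
  by_contra h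
  have h1 : a + 1 ≤ F.L i := by
    have := ci.2.2
    omega
  refine hne (u2_two hD hi hk (a := a + 1) (b := b) ⟨ci.1, ?_, h1⟩ ck)
  have := ci.2.1
  push_cast
  linarith

private lemma u2_F2 {F : Faces ℚ} (hD : Dis F) {i k : ℚ} (hi : i ∈ F.I) (hk : k ∈ F.I)
    (hne : i ≠ k) {a b : ℕ} (ci : F.Cov th i a b) (ck : F.Cov th k (a + 1) b) :
    (a : ℝ) ≤ F.ρ k + th * b := by
  by_contra h
  push Not at h
  exact hne (u2_two hD hi hk ci ⟨ck.1, h, (Nat.le_succ a).trans ck.2.2⟩)

/-- the face of the cell above -/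
private lemma u2_F3 {F : Faces ℚ} (hD : Dis F) {i k m : ℚ} (hi : i ∈ F.I) (hk : k ∈ F.I)
    (hm : m ∈ F.I) (hne : i ≠ k) {a b : ℕ} (ci : F.Cov th i a b) (ck : F.Cov th k (a + 1) b)
    (cm : F.Cov th m (a + 1) (b + 1)) : m ≠ k ∧ m ≠ i ∧ F.s m = b + 1 := by
  have hth := u2_th
  have h1 := u2_F1 hD hi hk hne ci ck
  have h2 := u2_F2 hD hi hk hne ci ck
  have hmk : m ≠ k := by
    rintro rfl
    have := cm.2.1
    push_cast at this
    nlinarith
  refine ⟨hmk, ?_, ?_⟩
  · rintro rfl
    have := cm.2.2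
    omega
  · by_contra h
    have h3 : F.s m ≤ b := by
      have := cm.1
      omega
    refine hmk (u2_two hD hm hk (a := a + 1) (b := b) ⟨h3, ?_, cm.2.2⟩ ck)
    have := cm.2.1
    push_cast at this ⊢
    linarith

/-- Lemma A -/
private lemma u2_A {F : Faces ℚ} {w : ℝ} {i k m : ℚ} {a b : ℕ} (hD : Dis F) (hw : 3 ≤ w)
    (hi : i ∈ F.big th w) (hk : k ∈ F.big th w) (hm : m ∈ F.big th w) (hne : i ≠ k)
    (ci : F.Cov th i a b) (ck : F.Cov th k (a + 1) b) (ai : F.Alive th i (b + 1))
    (ak : F.Alive th k (b + 1)) (cm : F.Cov th m (a + 1) (b + 1)) : False := by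
  have hth := u2_th
  have h1 := u2_F1 hD (u2_mem hi) (u2_mem hk) hne ci ck
  obtain ⟨hmk, hmi, hsm⟩ := u2_F3 hD (u2_mem hi) (u2_mem hk) (u2_mem hm) hne ci ck cm
  have hlm := u2_life hw hm
  have hLm : (a : ℝ) + 1 ≤ F.L m := by exact_mod_cast cm.2.2
  have hLk : (a : ℝ) + 1 ≤ F.L k := by exact_mod_cast ck.2.2
  have hLi : (F.L i : ℝ) = a := by exact_mod_cast h1
  have e1 := cm.2.1
  have e2 := ai.2
  have e3 := ck.2.1
  rw [hsm] at hlm
  push_cast at hlm e1 e2 e3
  have h3 : (a : ℝ) ≤ F.ρ m + th * (b + 1) := by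
    rcases hD i (u2_mem hi) m (u2_mem hm) (Ne.symm hmi) (b + 1) ai (u2_alive cm) with h | h
    · push_cast at h
      linarith
    · push_cast at h
      linarith
  rcases hD k (u2_mem hk) m (u2_mem hm) (Ne.symm hmk) (b + 1) ak (u2_alive cm) with h | h
  · push_cast at h
    linarith
  · push_cast at h
    linarith

theorem u2 : Horiz := by
  intro F w i k a b hD hw hi hk hne ci ck
  by_contra hcon
  push Not at hcon
  have cov : ∀ a' b' : ℕ, a ≤ a' → a' ≤ a + 3 → b ≤ b' → b' ≤ b + 2 →
      ∃ m ∈ F.big th w, F.Cov th m a' b' := hcon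
  have hth := u2_th
  have hI := u2_mem hi
  have hK := u2_mem hk
  have h1 := u2_F1 hD hI hK hne ci ck
  have h2 := u2_F2 hD hI hK hne ci ck
  obtain ⟨m, hm, cm⟩ := cov (a + 1) (b + 1) (by omega) (by omega) (by omega) (by omega)
  have hM := u2_mem hm
  obtain ⟨hmk, hmi, hsm⟩ := u2_F3 hD hI hK hM hne ci ck cm
  have hlm := u2_life hw hm
  have hli := u2_life hw hi
  have hlk := u2_life hw hk
  have hLm : (a : ℝ) + 1 ≤ F.L m := by exact_mod_cast cm.2.2
  have hLk : (a : ℝ) + 1 ≤ F.L k := by exact_mod_cast ck.2.2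
  have hLi : (F.L i : ℝ) = a := by exact_mod_cast h1
  have em := cm.2.1
  have ek := ck.2.1
  have ei := ci.2.1
  rw [hsm] at hlm
  push_cast at hlm em ek ei
  have hsi := ci.1
  have hsk := ck.1
  have am2 : F.Alive th m (b + 2) := by
    refine ⟨by omega, ?_⟩
    push_cast
    linarith
  by_cases ai : F.Alive th i (b + 1)
  · by_cases ak : F.Alive th k (b + 1)
    · exact u2_A hD hw hi hk hm hne ci ck ai ak cm
    · -- case 3
      have h3 : (F.L k : ℝ) ≤ F.ρ k + th * (b + 1) := by
        by_contra h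
        push Not at h
        exact ak ⟨by omega, by push_cast; exact h⟩
      have h4 : (F.s k : ℝ) + 2 ≤ b := by
        by_contra h
        push Not at h
        nlinarith
      have h4' : F.s k + 2 ≤ b := by exact_mod_cast h4
      have hb1 : ((b - 1 : ℕ) : ℝ) = b - 1 := by
        rw [Nat.cast_sub (by omega), Nat.cast_one]
      have ck1 : F.Cov th k a (b - 1) := by
        refine ⟨by omega, ?_, ?_⟩
        · rw [hb1]
          linarith
        · have := ck.2.2
          omega
      have hsi' : F.s i = b := by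
        by_contra h
        refine hne (u2_two hD hI hK (a := a) (b := b - 1) ⟨by omega, ?_, h1.ge⟩ ck1)
        rw [hb1]
        linarith
      rw [hsi'] at hli
      have ci1 : F.Cov th i a (b + 1) := by
        refine ⟨by omega, ?_, h1.ge⟩
        push_cast
        linarith
      have ai2 : F.Alive th i (b + 1 + 1) := by
        refine ⟨by omega, ?_⟩
        push_cast
        linarith
      obtain ⟨t, ht, ct⟩ := cov (a + 1) (b + 1 + 1) (by omega) (by omega) (by omega) (by omega)
      exact u2_A hD hw hi hm ht (Ne.symm hmi) ci1 cm ai2 am2 ct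
  · -- case 2
    have h3 : (F.L i : ℝ) ≤ F.ρ i + th * (b + 1) := by
      by_contra h
      push Not at h
      exact ai ⟨by omega, by push_cast; exact h⟩
    have h4 : (F.s i : ℝ) + 2 ≤ b := by
      by_contra h
      push Not at h
      nlinarith
    have h4' : F.s i + 2 ≤ b := by exact_mod_cast h4
    have hb1 : ((b - 1 : ℕ) : ℝ) = b - 1 := by
      rw [Nat.cast_sub (by omega), Nat.cast_one]
    have ci1 : F.Cov th i a (b - 1) := by
      refine ⟨by omega, ?_, h1.ge⟩
      rw [hb1]
      linarith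
    have hsk' : F.s k = b := by
      by_contra h
      refine hne (u2_two hD hI hK (a := a) (b := b - 1) ci1 ⟨by omega, ?_, ?_⟩)
      · rw [hb1]
        linarith
      · have := ck.2.2
        omega
    rw [hsk'] at hlk
    have ak1 : F.Alive th k (b + 1) := by
      refine ⟨by omega, ?_⟩
      push_cast
      linarith
    have ak2 : F.Alive th k (b + 2) := by
      refine ⟨by omega, ?_⟩
      push_cast
      linarith
    have h5 : (F.L m : ℝ) ≤ F.ρ k + th * (b + 1) := by
      rcases hD k hK m hM (Ne.symm hmk) (b + 1) ak1 (u2_alive cm) with h | h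
      · push_cast at h
        linarith
      · push_cast at h
        exact h
    have h6 : F.L m < a + 3 := by
      have h7 : (F.L m : ℝ) < a + 3 := by
        have := th_lt
        linarith
      exact_mod_cast h7
    have hLm' : a + 1 ≤ F.L m := cm.2.2
    obtain ⟨t, ht, ct⟩ := cov (F.L m + 1) (b + 1) (by omega) (by omega) (by omega) (by omega)
    have hT := u2_mem ht
    have htm : t ≠ m := by
      rintro rfl
      have := ct.2.2
      omega
    have cmL : F.Cov th m (F.L m) (b + 1) := ⟨cm.1, by push_cast; linarith, le_rfl⟩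
    by_cases htk : t = k
    · subst htk
      obtain ⟨u, hu, cu⟩ := cov (F.L m + 1) (b + 1 + 1) (by omega) (by omega) (by omega)
        (by omega)
      exact u2_A hD hw hm hk hu hmk cmL ct am2 ak2 cu
    · have et := ct.2.1
      have hLt : (F.L m : ℝ) + 1 ≤ F.L t := by exact_mod_cast ct.2.2
      push_cast at et
      have h7 : (F.L t : ℝ) ≤ F.ρ k + th * (b + 1) := by
        rcases hD t hT k hK htk (b + 1) (u2_alive ct) ak1 with h | h
        · push_cast at h
          exact h
        · push_cast at h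
          linarith
      have h8 : (F.L m : ℝ) ≤ F.ρ t + th * (b + 1) := by
        rcases hD t hT m hM htm (b + 1) (u2_alive ct) (u2_alive cm) with h | h
        · push_cast at h
          linarith
        · push_cast at h
          exact h
      have hlt := u2_life hw ht
      have h9 : (F.s t : ℝ) < b := by
        by_contra h
        push Not at h
        nlinarith
      have h9' : F.s t < b := by exact_mod_cast h9
      have h10 : (F.L t : ℝ) < F.L k := by linarith
      have h10' : F.L t < F.L k := by exact_mod_cast h10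
      refine htk (u2_two hD hT hK (a := F.L t) (b := b) ⟨by omega, ?_, le_rfl⟩
        ⟨by omega, ?_, h10'.le⟩)
      · linarith
      · linarith

end MPcc0Tri3
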