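import Pool.Agent.Lib.MP_cc0c1a_nt.Tri3.SpecU

/-!
# MP_cc0c1a_nt / Tri3 / U3: one face in a box
-/

set_option autoImplicit false

namespace MPcc0Tri3

open Finset MPcc0Tri MPcc0Tri2

/-- a cell is covered by only one face -/
private lemma u3_uniq {F : Faces ℚ} {w : ℝ} (hD : Dis F) {i k : ℚ} (hi : i ∈ F.big th w)
    (hk : k ∈ F.big th w) {a b : ℕ} (h1 : F.Cov th i a b) (h2 : F.Cov th k a b) : i = k := by
  by_contra hne
  have hi' : i ∈ F.I := (mem_filter.1 hi).1
  have hk' : k ∈ F.I := (mem_filter.1 hk).1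
  obtain ⟨s1, r1, l1⟩ := h1
  obtain ⟨s2, r2, l2⟩ := h2
  have l1' : (a : ℝ) ≤ F.L i := by exact_mod_cast l1
  have l2' : (a : ℝ) ≤ F.L k := by exact_mod_cast l2
  rcases hD i hi' k hk' hne b ⟨s1, lt_of_lt_of_le r1 l1'⟩ ⟨s2, lt_of_lt_of_le r2 l2'⟩ with h | h
  · linarith
  · linarith

theorem u3 (h1 : Horiz) : Conn := by
  intro F w a₀ a₁ b₀ b₁ hD hw h2 hab hbb hcov
  -- the rows
  have hrow : ∀ b, b₀ ≤ b → b ≤ b₁ → ∃ i ∈ F.big th w,
      ∀ d, d ≤ a₁ + 2 - a₀ → F.Cov th i (a₀ - 2 + d) b := by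
    intro b hb hb'
    obtain ⟨i, hi, hi0⟩ := hcov (a₀ - 2) b le_rfl (by omega) hb (by omega)
    refine ⟨i, hi, fun d => ?_⟩
    induction d with
    | zero => intro _; exact hi0
    | succ d ih =>
      intro hd
      have h3 := ih (by omega)
      obtain ⟨k, hk, hk0⟩ := hcov (a₀ - 2 + (d + 1)) b (by omega) (by omega) hb (by omega)
      by_cases hik : i = k
      · rw [hik]; exact hk0
      · exfalso
        obtain ⟨a', b', c1, c2, c3, c4, c5⟩ := h1 F w i k (a₀ - 2 + d) b hD hw hi hk hik h3 hk0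
        obtain ⟨m, hm, hm0⟩ := hcov a' b' (by omega) (by omega) (by omega) (by omega)
        exact c5 m hm hm0
  obtain ⟨i, hi, hi0⟩ := hrow b₀ le_rfl hbb
  have hall : ∀ e, b₀ + e ≤ b₁ → ∀ d, d ≤ a₁ + 2 - a₀ → F.Cov th i (a₀ - 2 + d) (b₀ + e) := by
    intro e
    induction e with
    | zero => intro _; exact hi0
    | succ e ih =>
      intro he
      have h3 := ih (by omega)
      obtain ⟨k, hk, hk0⟩ := hrow (b₀ + (e + 1)) (by omega) he
      have h4 := h3 0 (by omega)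
      have h5 := h3 2 (by omega)
      have h6 : F.Cov th i (a₀ - 2 + 2) (b₀ + (e + 1)) := by
        refine ⟨by have := h4.1; omega, ?_, h5.2.2⟩
        have h7 := h4.2.1
        have h8 := th_lt
        push_cast at h7 ⊢
        linarith
      rw [u3_uniq hD hi hk h6 (hk0 2 (by omega))]
      exact hk0
  refine ⟨i, hi, fun a b ha ha' hb hb' => ?_⟩
  have h3 := hall (b - b₀) (by omega) (a - (a₀ - 2)) (by omega)
  rwa [show a₀ - 2 + (a - (a₀ - 2)) = a by omega, show b₀ + (b - b₀) = b by omega] at h3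

end MPcc0Tri3
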