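import Pool.Agent.Lib.MP_cc0c1a_nt.Tri3.SpecU

/-!
# MP_cc0c1a_nt / Tri3 / V2: splitting by scales in a window
-/

set_option autoImplicit false

namespace MPcc0Tri3

open Finset MPcc0Tri MPcc0Tri2

private theorem v2_scale (x : ℝ) (m₀ k : ℕ) (h1 : (2 : ℝ) ^ m₀ ≤ x) (h2 : x < (2 : ℝ) ^ k) :
    ∃ m, m₀ ≤ m ∧ m < k ∧ (2 : ℝ) ^ m ≤ x ∧ x < (2 : ℝ) ^ (m + 1) := by
  classical
  have hex : ∃ m : ℕ, x < (2 : ℝ) ^ m := ⟨k, h2⟩
  set m' := Nat.find hex with hm'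
  have hs : x < (2 : ℝ) ^ m' := Nat.find_spec hex
  have hk : m' ≤ k := Nat.find_min' hex h2
  have h0 : m₀ < m' := by
    by_contra hcon
    push Not at hcon
    have h3 : (2 : ℝ) ^ m' ≤ (2 : ℝ) ^ m₀ := pow_le_pow_right₀ (by norm_num) hcon
    linarith
  refine ⟨m' - 1, by omega, by omega, ?_, ?_⟩
  · have := Nat.find_min hex (m := m' - 1) (by omega)
    push Not at this
    exact this
  · have h4 : m' - 1 + 1 = m' := by omega
    rw [h4]
    exact hs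

open Classical in
private theorem v2_row (x : ℝ) (L : ℕ) (hx : x < L) :
    (((range (L + 1)).filter (fun a : ℕ => x < (a : ℝ))).card : ℝ) ≤ L - x + 1 := by
  rcases le_or_gt 0 x with h0 | h0
  · have hsub : (range (L + 1)).filter (fun a : ℕ => x < (a : ℝ)) ⊆ Ioc ⌊x⌋₊ L := by
      intro a ha
      rw [mem_filter, mem_range] at ha
      rw [mem_Ioc]
      exact ⟨(Nat.floor_lt h0).2 ha.2, by omega⟩
    have h1 := card_le_card hsub
    rw [Nat.card_Ioc] at h1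
    have h2 : ⌊x⌋₊ ≤ L := by
      have := (Nat.floor_lt h0).2 hx
      omega
    have h3 : (((range (L + 1)).filter (fun a : ℕ => x < (a : ℝ))).card : ℝ) ≤
        ((L - ⌊x⌋₊ : ℕ) : ℝ) := by exact_mod_cast h1
    rw [Nat.cast_sub h2] at h3
    have h4 := Nat.lt_floor_add_one x
    linarith
  · have h1 := card_filter_le (range (L + 1)) (fun a : ℕ => x < (a : ℝ))
    rw [card_range] at h1
    have h3 : (((range (L + 1)).filter (fun a : ℕ => x < (a : ℝ))).card : ℝ) ≤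
        ((L + 1 : ℕ) : ℝ) := by exact_mod_cast h1
    push_cast at h3
    linarith

private theorem v2_lam (F : Faces ℚ) (i : ℚ) :
    (F.L i : ℝ) = F.ρ i + th * F.s i + th * F.lam th i := by
  unfold Faces.lam
  have := th_pos.ne'
  field_simp
  ring

theorem v2 : Split3 := by
  classical
  intro F A₀ A₁ B₀ B₁ M m₀ k hM hmk hA hB
  set row : ℚ × ℕ → Finset (ℕ × ℕ) := fun z =>
    ((range (F.L z.1 + 1)).filter (fun a : ℕ => F.ρ z.1 + th * z.2 < (a : ℝ))).image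
      (fun a => (a, z.2)) with hrow
  set BB : ℕ → Finset (ℚ × ℕ) := fun m => Base3 F (2 ^ m : ℕ) (M * 2 ^ m)
    (A₀ + 8 * (M * 2 ^ m)) (A₁ - 8 * (M * 2 ^ m)) (B₀ + 4 * (M * 2 ^ m))
    (B₁ - 8 * (M * 2 ^ m)) with hBB
  set G : ℕ → Finset (ℚ × ℕ) := fun m => (BB m).filter
    (fun z => F.lam th z.1 < (2 : ℝ) ^ (m + 1)) with hG
  have hth := th_pos
  have hth2 := th_lt
  -- rows
  have hrowc : ∀ m, ∀ z ∈ G m, ((row z).card : ℝ) ≤ 5 * (2 : ℝ) ^ m := by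
    intro m z hz
    simp only [hG, hBB, Base3, mem_filter, mem_product, Faces.big] at hz
    obtain ⟨⟨⟨⟨_, hbig⟩, _⟩, ⟨hal1, hal2⟩, _⟩, hlt⟩ := hz
    have h1 := v2_row (F.ρ z.1 + th * z.2) (F.L z.1) hal2
    have h2 : ((row z).card : ℝ) ≤ (((range (F.L z.1 + 1)).filter
        (fun a : ℕ => F.ρ z.1 + th * z.2 < (a : ℝ))).card : ℝ) := by
      exact_mod_cast card_image_le
    have h3 := v2_lam F z.1
    have h4 : th * (F.s z.1 : ℝ) ≤ th * (z.2 : ℝ) :=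
      mul_le_mul_of_nonneg_left (by exact_mod_cast hal1) hth.le
    push_cast at hbig
    have h5 : (1 : ℝ) ≤ (2 : ℝ) ^ m := one_le_pow₀ (by norm_num)
    have h6 : th * F.lam th z.1 ≤ 2 * (2 : ℝ) ^ (m + 1) := by
      have h7 : 0 ≤ F.lam th z.1 := by linarith
      calc th * F.lam th z.1 ≤ 2 * F.lam th z.1 := mul_le_mul_of_nonneg_right hth2.le h7
        _ ≤ 2 * (2 : ℝ) ^ (m + 1) := by linarith
    rw [pow_succ] at h6
    linarith
  -- covering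
  have hsub : Unc3 F (2 ^ k : ℕ) (A₀ + 8 * (M * 2 ^ k)) (A₁ - 8 * (M * 2 ^ k))
      (B₀ + 4 * (M * 2 ^ k)) (B₁ - 8 * (M * 2 ^ k)) ⊆ Unc3 F (2 ^ m₀ : ℕ) A₀ A₁ B₀ B₁ ∪
        (Ico m₀ k).biUnion (fun m => (G m).biUnion row) := by
    rintro ⟨a, b⟩ hp
    rw [mem_union]
    by_cases hu : (a, b) ∈ Unc3 F (2 ^ m₀ : ℕ) A₀ A₁ B₀ B₁
    · exact Or.inl hu
    · right
      simp only [Unc3, mem_filter, mem_product, mem_Ioc, mem_Ico] at hp hu
      obtain ⟨⟨⟨ha1, ha2⟩, hb1, hb2⟩, hunc⟩ := hp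
      have hreg : (A₀ < a ∧ a ≤ A₁) ∧ B₀ ≤ b ∧ b < B₁ := by
        refine ⟨⟨by omega, by omega⟩, by omega, by omega⟩
      have hex : ∃ i ∈ F.big th ((2 ^ m₀ : ℕ) : ℝ), F.Cov th i a b := by
        by_contra hcon
        push Not at hcon
        exact hu ⟨hreg, hcon⟩
      obtain ⟨i, hi, hcov⟩ := hex
      have hiI : i ∈ F.I := (mem_filter.1 hi).1
      have hi1 : ((2 ^ m₀ : ℕ) : ℝ) ≤ F.lam th i := (mem_filter.1 hi).2
      have hi2 : F.lam th i < ((2 ^ k : ℕ) : ℝ) := by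
        by_contra hcon
        push Not at hcon
        exact hunc i (mem_filter.2 ⟨hiI, hcon⟩) hcov
      push_cast at hi1 hi2
      obtain ⟨m, hm1, hm2, hm3, hm4⟩ := v2_scale _ m₀ k hi1 hi2
      obtain ⟨hc1, hc2, hc3⟩ := hcov
      have hnn : 2 * (M * 2 ^ m) ≤ M * 2 ^ k := by
        have h1 : 2 ^ (m + 1) ≤ 2 ^ k := Nat.pow_le_pow_right (by norm_num) hm2
        calc 2 * (M * 2 ^ m) = M * 2 ^ (m + 1) := by rw [pow_succ]; ring
          _ ≤ M * 2 ^ k := Nat.mul_le_mul_left _ h1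
      have hP : 2 ^ m ≤ M * 2 ^ m := Nat.le_mul_of_pos_left _ hM
      have hL : F.L i + ⌈th * ((M * 2 ^ m : ℕ) : ℝ)⌉₊ ≤ A₁ - 8 * (M * 2 ^ m) := by
        have h1 : ⌈th * ((M * 2 ^ m : ℕ) : ℝ)⌉₊ ≤ 2 * (M * 2 ^ m) := by
          rw [Nat.ceil_le]
          push_cast
          have h2 : (0 : ℝ) ≤ (M : ℝ) * 2 ^ m := by positivity
          exact mul_le_mul_of_nonneg_right hth2.le h2
        have h2 : F.L i ≤ a + 4 * 2 ^ m := by
          have h3 := v2_lam F i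
          have h4 : th * (F.s i : ℝ) ≤ th * (b : ℝ) :=
            mul_le_mul_of_nonneg_left (by exact_mod_cast hc1) hth.le
          have h5 : th * F.lam th i ≤ 2 * (2 : ℝ) ^ (m + 1) := by
            have h6 : (0 : ℝ) ≤ F.lam th i := le_trans (by positivity) hm3
            calc th * F.lam th i ≤ 2 * F.lam th i := mul_le_mul_of_nonneg_right hth2.le h6
              _ ≤ 2 * (2 : ℝ) ^ (m + 1) := by linarith
          rw [pow_succ] at h5
          have h7 : (F.L i : ℝ) ≤ ((a + 4 * 2 ^ m : ℕ) : ℝ) := by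
            push_cast
            linarith
          exact_mod_cast h7
        omega
      rw [mem_biUnion]
      refine ⟨m, mem_Ico.2 ⟨hm1, hm2⟩, ?_⟩
      rw [mem_biUnion]
      refine ⟨(i, b), ?_, ?_⟩
      · simp only [hG, hBB, Base3, mem_filter, mem_product, mem_range]
        refine ⟨⟨⟨mem_filter.2 ⟨hiI, ?_⟩, ?_⟩, ⟨hc1, ?_⟩, ?_, ?_, ?_, hL⟩, hm4⟩
        · push_cast
          exact hm3
        · omega
        · have : (a : ℝ) ≤ F.L i := by exact_mod_cast hc3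
          linarith
        · omega
        · omega
        · omega
      · simp only [hrow, mem_image, mem_filter, mem_range]
        exact ⟨a, ⟨by omega, hc2⟩, rfl⟩
  -- counting
  have h1 : (Unc3 F (2 ^ k : ℕ) (A₀ + 8 * (M * 2 ^ k)) (A₁ - 8 * (M * 2 ^ k))
      (B₀ + 4 * (M * 2 ^ k)) (B₁ - 8 * (M * 2 ^ k))).card ≤
        (Unc3 F (2 ^ m₀ : ℕ) A₀ A₁ B₀ B₁).card +
        ∑ m ∈ Ico m₀ k, ∑ z ∈ G m, (row z).card := by
    refine (card_le_card hsub).trans ((card_union_le _ _).trans (Nat.add_le_add_left ?_ _))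
    exact card_biUnion_le.trans (sum_le_sum fun m _ => card_biUnion_le)
  have h2 : ((Unc3 F (2 ^ k : ℕ) (A₀ + 8 * (M * 2 ^ k)) (A₁ - 8 * (M * 2 ^ k))
      (B₀ + 4 * (M * 2 ^ k)) (B₁ - 8 * (M * 2 ^ k))).card : ℝ) ≤
        ((Unc3 F (2 ^ m₀ : ℕ) A₀ A₁ B₀ B₁).card : ℝ) +
        ∑ m ∈ Ico m₀ k, ∑ z ∈ G m, ((row z).card : ℝ) := by exact_mod_cast h1
  refine h2.trans ?_
  have h3 : ∑ m ∈ Ico m₀ k, ∑ z ∈ G m, ((row z).card : ℝ) ≤
      ∑ m ∈ Ico m₀ k, 5 * (2 : ℝ) ^ m * ((BB m).card : ℝ) := by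
    refine sum_le_sum fun m _ => ?_
    calc ∑ z ∈ G m, ((row z).card : ℝ) ≤ ∑ _z ∈ G m, 5 * (2 : ℝ) ^ m :=
          sum_le_sum fun z hz => hrowc m z hz
      _ = ((G m).card : ℝ) * (5 * (2 : ℝ) ^ m) := by rw [sum_const, nsmul_eq_mul]
      _ ≤ ((BB m).card : ℝ) * (5 * (2 : ℝ) ^ m) := by
          refine mul_le_mul_of_nonneg_right ?_ (by positivity)
          exact_mod_cast card_filter_le _ _
      _ = 5 * (2 : ℝ) ^ m * ((BB m).card : ℝ) := by ring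
  linarith

end MPcc0Tri3
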