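import Pool.Agent.Lib.MP_cc0c1a_nt.Tri3.SpecU

/-!
# MP_cc0c1a_nt / Tri3 / V3: all scales in a window
-/

set_option autoImplicit false

namespace MPcc0Tri3

open Finset MPcc0Tri MPcc0Tri2

/-- The growth of the sums. -/
private lemma v3_grow (z : ℕ → ℝ) (U K ε : ℝ) (m₀ k₁ : ℕ) (hU : 0 ≤ U) (hε : 0 < ε)
    (hK : 0 < K) (hKe : 1 + 5 / K = 2 ^ ε)
    (h : ∀ k, m₀ ≤ k → k ≤ k₁ → K * 2 ^ k * z k ≤ U + ∑ m ∈ Ico m₀ k, 5 * (2 : ℝ) ^ m * z m)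
    (hm : m₀ ≤ k₁) :
    U + ∑ m ∈ Ico m₀ k₁, 5 * (2 : ℝ) ^ m * z m ≤ ((2 : ℝ) ^ k₁) ^ ε * U := by
  have key : ∀ j, m₀ + j ≤ k₁ →
      U + ∑ m ∈ Ico m₀ (m₀ + j), 5 * (2 : ℝ) ^ m * z m ≤ ((2 : ℝ) ^ ε) ^ j * U := by
    intro j
    induction j with
    | zero =>
      intro _
      simp
    | succ j ih =>
      intro hj
      have h1 := ih (by omega)
      have h2 := h (m₀ + j) (by omega) (by omega)
      rw [← add_assoc, sum_Ico_succ_top (by omega)]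
      have h3 : 5 * (2 : ℝ) ^ (m₀ + j) * z (m₀ + j) ≤
          5 / K * (U + ∑ m ∈ Ico m₀ (m₀ + j), 5 * (2 : ℝ) ^ m * z m) := by
        calc 5 * (2 : ℝ) ^ (m₀ + j) * z (m₀ + j) =
            5 / K * (K * 2 ^ (m₀ + j) * z (m₀ + j)) := by
              field_simp
          _ ≤ _ := mul_le_mul_of_nonneg_left h2 (by positivity)
      calc U + (∑ m ∈ Ico m₀ (m₀ + j), 5 * (2 : ℝ) ^ m * z m +
            5 * (2 : ℝ) ^ (m₀ + j) * z (m₀ + j)) ≤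
          (1 + 5 / K) * (U + ∑ m ∈ Ico m₀ (m₀ + j), 5 * (2 : ℝ) ^ m * z m) := by linarith
        _ ≤ (1 + 5 / K) * (((2 : ℝ) ^ ε) ^ j * U) :=
          mul_le_mul_of_nonneg_left h1 (by positivity)
        _ = ((2 : ℝ) ^ ε) ^ (j + 1) * U := by
          rw [hKe]
          ring
  obtain ⟨j, rfl⟩ := Nat.exists_eq_add_of_le hm
  refine (key j le_rfl).trans ?_
  apply mul_le_mul_of_nonneg_right _ hU
  have h1 : (1 : ℝ) ≤ 2 ^ ε := Real.one_le_rpow (by norm_num) hε.le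
  calc ((2 : ℝ) ^ ε) ^ j ≤ ((2 : ℝ) ^ ε) ^ (m₀ + j) := pow_le_pow_right₀ h1 (by omega)
    _ = ((2 : ℝ) ^ (m₀ + j)) ^ ε := by
      rw [← Real.rpow_natCast, ← Real.rpow_mul (by norm_num), mul_comm, Real.rpow_mul (by norm_num),
        Real.rpow_natCast]

/-- Monotonicity of the set of the uncovered cells. -/
private lemma v3_sub (F : Faces ℚ) (w w' : ℝ) (A₀ A₁ B₀ B₁ A₀' A₁' B₀' B₁' : ℕ) (hw : w ≤ w')
    (h1 : A₀' ≤ A₀) (h2 : A₁ ≤ A₁') (h3 : B₀' ≤ B₀) (h4 : B₁ ≤ B₁') :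
    Unc3 F w A₀ A₁ B₀ B₁ ⊆ Unc3 F w' A₀' A₁' B₀' B₁' := by
  classical
  intro p hp
  unfold Unc3 at hp ⊢
  rw [mem_filter, mem_product, mem_Ioc, mem_Ico] at hp ⊢
  obtain ⟨⟨⟨e1, e2⟩, e3, e4⟩, e5⟩ := hp
  refine ⟨⟨⟨by omega, by omega⟩, by omega, by omega⟩, fun i hi => e5 i ?_⟩
  unfold Faces.big at hi ⊢
  rw [mem_filter] at hi ⊢
  exact ⟨hi.1, hw.trans hi.2⟩

theorem v3 (h1 : OneScale3) (h2 : Split3) : GeoC := by
  intro ε hε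
  have h2e : (1 : ℝ) < 2 ^ ε := Real.one_lt_rpow (by norm_num) hε
  set K : ℝ := 5 / (2 ^ ε - 1) with hK
  have hK0 : 0 < K := div_pos (by norm_num) (by linarith)
  have hKe : 1 + 5 / K = 2 ^ ε := by
    rw [hK]
    have : (2 : ℝ) ^ ε - 1 ≠ 0 := by linarith
    field_simp
    ring
  obtain ⟨M, w₀, hM, hw₀, hone⟩ := h1 K hK0
  have hMR : (0 : ℝ) < M := by exact_mod_cast hM
  refine ⟨1 / (16 * M), by positivity, fun κ hκ => ?_⟩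
  refine ⟨2 ^ w₀, by positivity, κ, hκ, 8 * M * 2 ^ w₀, ?_⟩
  intro q hq F A₀ B₀ hAri hDis hA₀ hcard
  have hqpos : 0 < q := lt_of_lt_of_le (by positivity) hq
  have h8 : 0 < 8 * M := by omega
  have hdiv : 2 ^ w₀ ≤ q / (8 * M) := by
    rw [Nat.le_div_iff_mul_le h8]
    calc 2 ^ w₀ * (8 * M) = 8 * M * 2 ^ w₀ := by ring
      _ ≤ q := hq
  have hne : q / (8 * M) ≠ 0 := by
    have : 0 < 2 ^ w₀ := by positivity
    omega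
  set k₁ : ℕ := Nat.log 2 (q / (8 * M)) with hk₁
  have hk1 : 2 ^ k₁ ≤ q / (8 * M) := Nat.pow_log_le_self 2 hne
  have hk2 : q / (8 * M) < 2 ^ (k₁ + 1) := Nat.lt_pow_succ_log_self (by norm_num) _
  have hk0 : w₀ ≤ k₁ := (Nat.le_log_iff_pow_le (by norm_num) hne).2 hdiv
  have hk8 : 8 * (M * 2 ^ k₁) ≤ q := by
    rw [Nat.le_div_iff_mul_le h8] at hk1
    calc 8 * (M * 2 ^ k₁) = 2 ^ k₁ * (8 * M) := by ring
      _ ≤ q := hk1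
  have hk16 : q < 16 * M * 2 ^ k₁ := by
    rw [Nat.div_lt_iff_lt_mul h8] at hk2
    calc q < 2 ^ (k₁ + 1) * (8 * M) := hk2
      _ = 16 * M * 2 ^ k₁ := by ring
  set U : ℝ := ((Unc3 F (2 ^ w₀ : ℕ) A₀ (A₀ + 4 * q) B₀ (B₀ + 4 * q)).card : ℝ) with hU
  have hU0 : 0 ≤ U := Nat.cast_nonneg _
  have hgr := v3_grow (fun k => ((Base3 F (2 ^ k : ℕ) (M * 2 ^ k)
    (A₀ + 8 * (M * 2 ^ k)) (A₀ + 4 * q - 8 * (M * 2 ^ k)) (B₀ + 4 * (M * 2 ^ k))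
    (B₀ + 4 * q - 8 * (M * 2 ^ k))).card : ℝ)) U K ε w₀ k₁ hU0 hε hK0 hKe (by
      intro k hk hkk
      have hpow : 2 ^ k ≤ 2 ^ k₁ := Nat.pow_le_pow_right (by norm_num) hkk
      have h8k : 8 * (M * 2 ^ k) ≤ q :=
        (Nat.mul_le_mul_left _ (Nat.mul_le_mul_left _ hpow)).trans hk8
      have hww : w₀ ≤ 2 ^ k := (Nat.lt_two_pow_self).le.trans
        (Nat.pow_le_pow_right (by norm_num) hk)
      have e1 := hone (2 ^ k) hww F (A₀ + 8 * (M * 2 ^ k)) (A₀ + 4 * q - 8 * (M * 2 ^ k))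
        (B₀ + 4 * (M * 2 ^ k)) (B₀ + 4 * q - 8 * (M * 2 ^ k)) hAri hDis (by omega) (by omega)
      have e2 := h2 F A₀ (A₀ + 4 * q) B₀ (B₀ + 4 * q) M w₀ k hM hk (by omega) (by omega)
      have e3 : ((2 ^ k : ℕ) : ℝ) = 2 ^ k := by push_cast; rfl
      refine le_trans ?_ (e1.trans e2)
      rw [e3]) hk0
  have e2 := h2 F A₀ (A₀ + 4 * q) B₀ (B₀ + 4 * q) M w₀ k₁ hM hk0 (by omega) (by omega)
  have hqR : (0 : ℝ) < q := by exact_mod_cast hqpos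
  have hδ : 1 / (16 * (M : ℝ)) * q ≤ ((2 ^ k₁ : ℕ) : ℝ) := by
    rw [div_mul_eq_mul_div, one_mul, div_le_iff₀ (by positivity)]
    have : (q : ℝ) < 16 * M * (2 ^ k₁ : ℕ) := by exact_mod_cast hk16
    linarith
  have e3 := card_le_card (v3_sub F (1 / (16 * M) * q) (2 ^ k₁ : ℕ) (A₀ + q) (A₀ + 3 * q) (B₀ + q)
    (B₀ + 3 * q) (A₀ + 8 * (M * 2 ^ k₁)) (A₀ + 4 * q - 8 * (M * 2 ^ k₁)) (B₀ + 4 * (M * 2 ^ k₁))
    (B₀ + 4 * q - 8 * (M * 2 ^ k₁)) hδ (by omega) (by omega) (by omega) (by omega))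
  have e4 : κ * (q : ℝ) ^ 2 ≤ ((2 : ℝ) ^ k₁) ^ ε * U := by
    refine hcard.trans (le_trans ?_ (e2.trans hgr))
    exact_mod_cast e3
  have e5 : ((2 : ℝ) ^ k₁) ^ ε ≤ (q : ℝ) ^ ε := by
    apply Real.rpow_le_rpow (by positivity) _ hε.le
    have e6 : 2 ^ k₁ ≤ q := by
      have : 2 ^ k₁ ≤ M * 2 ^ k₁ := Nat.le_mul_of_pos_left _ hM
      omega
    exact_mod_cast e6
  have e6 : κ * (q : ℝ) ^ 2 ≤ (q : ℝ) ^ ε * U := e4.trans (mul_le_mul_of_nonneg_right e5 hU0)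
  have e7 : (q : ℝ) ^ (2 - ε) = (q : ℝ) ^ 2 / (q : ℝ) ^ ε := by
    rw [Real.rpow_sub hqR, Real.rpow_two]
  rw [e7, ← mul_div_assoc, div_le_iff₀ (by positivity)]
  linarith

end MPcc0Tri3
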