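import Pool.Agent.Lib.MP_cc0c1a_nt.Tri3.SpecU

/-!
# MP_cc0c1a_nt / Tri3 / V4: uncovered cells at the top scale
-/

set_option autoImplicit false

namespace MPcc0Tri3

open Finset MPcc0Tri MPcc0Tri2

private lemma v4_one : 1 < th := by
  unfold th
  rw [Real.lt_logb_iff_rpow_lt (by norm_num) (by norm_num)]
  norm_num

/-- The numerical inequality. -/
private lemma v4_num {t q N : ℝ} (ht1 : 1 ≤ t) (ht2 : t ≤ 2) (hN : 0 ≤ N) (hq : 100 ≤ q)
    (hqN : N ≤ q) : q ^ 2 / 4 ≤ t * q ^ 2 / 2 -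
      ((t / 2) * (q / 4) * (11 / 10 * q) + (t + 2) * (11 / 10 * q + N)) := by
  have h1 : (t + 2) * (11 / 10 * q + N) ≤ 4 * (11 / 10 * q + N) :=
    mul_le_mul_of_nonneg_right (by linarith) (by linarith)
  have h2 : t * q ^ 2 / 2 - (t / 2) * (q / 4) * (11 / 10 * q) = t * (29 / 80 * q ^ 2) := by ring
  have h3 : 1 * (29 / 80 * q ^ 2) ≤ t * (29 / 80 * q ^ 2) :=
    mul_le_mul_of_nonneg_right ht1 (by positivity)
  have h4 : 100 * q ≤ q ^ 2 := by nlinarith
  linarith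

theorem v4 (h1 : SizeSum) (h2 : TriCount) (h3 : FaceTri) (h4 : NumBound) : TopUnc := by
  classical
  intro δ hδ
  have hth := th_pos
  have hone := v4_one
  have hlt := th_lt
  set d : ℝ := min δ 1 with hd
  have hd0 : 0 < d := lt_min hδ one_pos
  have hd1 : d ≤ 1 := min_le_right _ _
  have hdδ : d ≤ δ := min_le_left _ _
  set N : ℕ := ⌈1800 / d ^ 2⌉₊ with hN
  have hNR : 1800 / d ^ 2 ≤ (N : ℝ) := Nat.le_ceil _
  obtain ⟨τ₀, hτ₀, hsz⟩ := h1 N (1 / 10) (by norm_num)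
  refine ⟨100 + N + ⌈τ₀⌉₊ + ⌈2 / d⌉₊, ?_⟩
  intro q hq F A₀ B₀ hAri hDis hA₀ hlam
  have hqR0 : ((100 + N + ⌈τ₀⌉₊ + ⌈2 / d⌉₊ : ℕ) : ℝ) ≤ q := by exact_mod_cast hq
  push_cast at hqR0
  have hτc : τ₀ ≤ (⌈τ₀⌉₊ : ℝ) := Nat.le_ceil _
  have hdc : 2 / d ≤ (⌈2 / d⌉₊ : ℝ) := Nat.le_ceil _
  have hN0 : (0 : ℝ) ≤ N := Nat.cast_nonneg _
  have hd20 : 0 < 2 / d := by positivity
  have hq100 : (100 : ℝ) ≤ q := by linarith
  have hqN : (N : ℝ) ≤ q := by linarith
  have hqτ : τ₀ ≤ (q : ℝ) := by linarith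
  have hqd : 2 / d ≤ (q : ℝ) := by linarith
  have hdq : 2 ≤ d * q := by
    rw [div_le_iff₀ hd0] at hqd
    linarith
  have hdq' : d * q ≤ q := by nlinarith
  set w : ℕ := ⌊d * q⌋₊ with hw
  have hw1 : (w : ℝ) ≤ d * q := Nat.floor_le (by positivity)
  have hw2 : d * q < w + 1 := Nat.lt_floor_add_one _
  have hw3 : 1 ≤ w := Nat.le_floor (by push_cast; linarith)
  have hwq : w ≤ q := by
    have : (w : ℝ) ≤ q := hw1.trans hdq'
    exact_mod_cast this
  have hwqR : (w : ℝ) ≤ q := by exact_mod_cast hwq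
  have hw4 : d * q / 2 ≤ w := by linarith
  have hwR : (1 : ℝ) ≤ w := by exact_mod_cast hw3
  have hA₀R : 4 * (q : ℝ) ≤ A₀ := by exact_mod_cast hA₀
  set A : ℕ := A₀ + 3 * q with hA
  set B : ℕ := B₀ + q with hB
  set ρ : ℝ := A - th * q - th * B with hρ
  have hAc : (A : ℝ) = A₀ + 3 * q := by
    rw [hA]
    push_cast
    ring
  have hBc : (B : ℝ) = B₀ + q := by
    rw [hB]
    push_cast
    ring
  have hx : (q : ℝ) = ((A : ℝ) - ρ) / th - B := by
    rw [hρ]
    field_simp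
    ring
  have hthq : th * (q : ℝ) ≤ 2 * q := mul_le_mul_of_nonneg_right hlt.le (Nat.cast_nonneg _)
  have hthq' : th * (q : ℝ) < 2 * q := mul_lt_mul_of_pos_right hlt (by linarith)
  have hthw : th * (w : ℝ) ≤ 2 * w := mul_le_mul_of_nonneg_right hlt.le (Nat.cast_nonneg _)
  have hρB : ρ + th * B = A - th * q := by
    rw [hρ]
    ring
  have hρB0 : 0 ≤ ρ + th * B := by
    rw [hρB, hAc]
    linarith
  -- the triangle lies in the window
  have hwin : ∀ p ∈ tri A B ρ, A₀ + q < p.1 ∧ p.1 ≤ A₀ + 3 * q ∧ B₀ + q ≤ p.2 ∧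
      p.2 < B₀ + 3 * q := by
    intro p hp
    obtain ⟨e1, e2, e3⟩ := (h2.1 A B ρ p).1 hp
    have e2R : (B : ℝ) ≤ p.2 := by exact_mod_cast e2
    have e1R : (p.1 : ℝ) ≤ A := by exact_mod_cast e1
    refine ⟨?_, e1, e2, ?_⟩
    · have f1 : th * (B : ℝ) ≤ th * p.2 := mul_le_mul_of_nonneg_left e2R hth.le
      have f2 : ((A₀ + q : ℕ) : ℝ) < p.1 := by
        push_cast
        linarith
      exact_mod_cast f2
    · have f1 : th * (p.2 : ℝ) < th * (q + B) := by
        rw [mul_add]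
        linarith
      have f2 : (p.2 : ℝ) < q + B := lt_of_mul_lt_mul_left f1 hth.le
      have f3 : ((p.2 : ℕ) : ℝ) < ((B₀ + 3 * q : ℕ) : ℝ) := by
        push_cast
        linarith
      exact_mod_cast f3
  -- the faces which meet the triangle
  set J : Finset ℚ := (F.big th (δ * q)).filter fun j => ∃ p ∈ tri A B ρ, F.Cov th j p.1 p.2
    with hJ
  have hJI : J ⊆ F.I := by
    intro j hj
    exact (mem_filter.1 (mem_filter.1 hj).1).1
  let T : ℚ → Finset (ℕ × ℕ) := fun j => (tri A B ρ).filter fun p => F.Cov th j p.1 p.2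
  have hTmem : ∀ j, ∀ p, p ∈ T j ↔ p ∈ tri A B ρ ∧ F.Cov th j p.1 p.2 := by
    intro j p
    simp only [T, mem_filter]
  have hJsz : ∀ j ∈ J, 0 ≤ sz F j A B ρ := by
    intro j hj
    obtain ⟨-, p, hp, hcov⟩ := mem_filter.1 hj
    by_contra hneg
    push Not at hneg
    have e1 := (h3 F j A B ρ (T j) hρB0 (hTmem j)).2.1 hneg
    have e2 : p ∈ T j := (hTmem j p).2 ⟨hp, hcov⟩
    rw [e1] at e2
    simp at e2
  have hJlam : ∀ j ∈ J, F.lam th j ≤ q / 4 := by
    intro j hj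
    obtain ⟨hbig, p, hp, hcov⟩ := mem_filter.1 hj
    obtain ⟨e1, e2, e3, e4⟩ := hwin p hp
    exact hlam j hbig p.1 p.2 e1 e2 e3 e4 hcov
  have hnum := h4 F A B w ρ q J hDis hw3 (by omega) (by
    have : ρ - th * w + th * (B - w) = (ρ + th * B) - 2 * (th * w) := by ring
    rw [this, hρB, hAc]
    linarith) hx (Nat.cast_nonneg _) hJI (by
    intro j hj
    refine ⟨?_, hJsz j hj⟩
    have e1 := (mem_filter.1 (mem_filter.1 hj).1).2
    have e2 : d * (q : ℝ) ≤ δ * q := mul_le_mul_of_nonneg_right hdδ (Nat.cast_nonneg _)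
    exact (hw1.trans e2).trans e1)
  have hJcard : J.card ≤ N := by
    have e1 : ((q : ℝ) + 3 * w + 1) ^ 2 ≤ (5 * q) ^ 2 :=
      pow_le_pow_left₀ (by positivity) (by linarith) 2
    have e2 : (d * q / 2) ^ 2 ≤ (w : ℝ) ^ 2 := pow_le_pow_left₀ (by positivity) hw4 2
    have e3 : (J.card : ℝ) * (d * q / 2) ^ 2 ≤ 18 * (5 * q) ^ 2 := by
      have := mul_le_mul_of_nonneg_left e2 (Nat.cast_nonneg (α := ℝ) J.card)
      linarith
    have e4 : (J.card : ℝ) ≤ 1800 / d ^ 2 := by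
      rw [le_div_iff₀ (by positivity)]
      have hq2 : (0 : ℝ) < q ^ 2 := by positivity
      have e5 : ((J.card : ℝ) * d ^ 2) * q ^ 2 ≤ 1800 * q ^ 2 := by
        have e6 : (J.card : ℝ) * (d * q / 2) ^ 2 = ((J.card : ℝ) * d ^ 2) * q ^ 2 / 4 := by ring
        have e7 : 18 * (5 * (q : ℝ)) ^ 2 = 1800 * q ^ 2 / 4 := by ring
        rw [e6, e7] at e3
        linarith
      exact le_of_mul_le_mul_right e5 hq2
    exact_mod_cast e4.trans hNR
  have hτn : (A : ℝ) - ρ - th * B = th * q := by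
    rw [hρ]
    ring
  have hτ1 : τ₀ ≤ (A : ℝ) - ρ - th * B := by
    rw [hτn]
    have e3 : 1 * (q : ℝ) ≤ th * q := mul_le_mul_of_nonneg_right hone.le (Nat.cast_nonneg _)
    linarith
  have hsum := hsz F hAri J hJI hJcard A B ρ hτ1
  rw [hτn] at hsum
  -- the covered cells of a face
  set lj : ℚ → ℝ := fun j => max 0 (sz F j A B ρ) / th with hlj
  have hlj0 : ∀ j, 0 ≤ lj j := fun j => div_nonneg (le_max_left _ _) hth.le
  have hljs : ∑ j ∈ J, lj j ≤ 11 / 10 * q := by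
    rw [hlj, ← sum_div, div_le_iff₀ hth]
    linarith
  have hTle : ∀ j ∈ J, ((T j).card : ℝ) ≤ (th / 2) * (q / 4) * lj j +
      (th + 2) * (lj j + 1) := by
    intro j hj
    have e1 := (h3 F j A B ρ (T j) hρB0 (hTmem j)).1
    have e2 : lj j ≤ q / 4 := by
      rw [hlj]
      simp only
      rw [div_le_iff₀ hth]
      apply max_le
      · positivity
      · have f1 := hJlam j hj
        have f2 : sz F j A B ρ ≤ th * F.lam th j := by
          unfold sz Faces.lam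
          have g1 := min_le_left (F.L j : ℝ) A
          have g2 := le_max_left (F.ρ j) ρ
          have g3 : th * (F.s j : ℝ) ≤ th * max (F.s j : ℝ) B :=
            mul_le_mul_of_nonneg_left (le_max_left _ _) hth.le
          have g4 : th * (((F.L j : ℝ) - F.ρ j) / th - F.s j) =
              (F.L j : ℝ) - F.ρ j - th * F.s j := by
            field_simp
          rw [g4]
          linarith
        have f3 : th * F.lam th j ≤ th * (q / 4) := mul_le_mul_of_nonneg_left f1 hth.le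
        linarith
    have e7 : th * (lj j) ^ 2 / 2 ≤ (th / 2) * (q / 4) * lj j := by
      have : th * (lj j) ^ 2 / 2 = (th / 2) * lj j * lj j := by ring
      rw [this]
      apply mul_le_mul_of_nonneg_right _ (hlj0 j)
      apply mul_le_mul_of_nonneg_left e2
      linarith
    have e8 : ((T j).card : ℝ) ≤ th * (lj j) ^ 2 / 2 + (th + 2) * (lj j + 1) := e1
    linarith
  -- the covered cells
  set S : Finset (ℕ × ℕ) := Unc3 F (δ * q) (A₀ + q) (A₀ + 3 * q) (B₀ + q) (B₀ + 3 * q) with hS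
  have hcov : (tri A B ρ) ⊆ S ∪ J.biUnion T := by
    intro p hp
    rw [mem_union]
    by_cases h : ∀ j ∈ F.big th (δ * q), ¬ F.Cov th j p.1 p.2
    · left
      rw [hS]
      unfold Unc3
      rw [mem_filter, mem_product, mem_Ioc, mem_Ico]
      obtain ⟨e1, e2, e3, e4⟩ := hwin p hp
      exact ⟨⟨⟨e1, e2⟩, e3, e4⟩, h⟩
    · push Not at h
      obtain ⟨j, hj, hj2⟩ := h
      right
      rw [mem_biUnion]
      exact ⟨j, mem_filter.2 ⟨hj, p, hp, hj2⟩, (hTmem j p).2 ⟨hp, hj2⟩⟩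
  have hle : ((tri A B ρ).card : ℝ) ≤ S.card + ∑ j ∈ J, ((T j).card : ℝ) := by
    have e1 := card_le_card hcov
    have e2 := card_union_le S (J.biUnion T)
    have e3 : (J.biUnion T).card ≤ ∑ j ∈ J, (T j).card := card_biUnion_le
    have e4 : (tri A B ρ).card ≤ S.card + ∑ j ∈ J, (T j).card := by omega
    exact_mod_cast e4
  have hsumT : ∑ j ∈ J, ((T j).card : ℝ) ≤ (th / 2) * (q / 4) * (11 / 10 * q) +
      (th + 2) * (11 / 10 * q + (N : ℝ)) := by
    have e1 := sum_le_sum hTle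
    rw [sum_add_distrib, ← mul_sum, ← mul_sum, sum_add_distrib, sum_const, nsmul_eq_mul,
      mul_one] at e1
    have e2 : (J.card : ℝ) ≤ (N : ℝ) := by exact_mod_cast hJcard
    have e3 : (th / 2) * (q / 4) * ∑ j ∈ J, lj j ≤
        (th / 2) * (q / 4) * (11 / 10 * q) := by
      apply mul_le_mul_of_nonneg_left hljs
      positivity
    have e4 : (th + 2) * (∑ j ∈ J, lj j + J.card) ≤
        (th + 2) * (11 / 10 * q + (N : ℝ)) := by
      apply mul_le_mul_of_nonneg_left _ (by linarith)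
      linarith
    linarith
  have htri := (h2.2 A B ρ q hρB0 hx (Nat.cast_nonneg _)).1
  have hfin := v4_num hone.le hlt.le hN0 hq100 hqN
  linarith

end MPcc0Tri3
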