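import Pool.Agent.Lib.MP_cc0c1a_nt.Tri3.PathEnd

set_option autoImplicit false

/-!
# MP_cc0c1a_nt / Tri3: every word occurs often in every macroscopic window (helper60)
-/

open Finset
open scoped Classical
open Pool.Agent.Results.MP_cc0c1a_nt.SyndeticPositions (fin_eq_dig Config IsFin Shows F dig)

namespace MPcc0Tri3

open MPcc0Tri MPcc0Tri2

theorem window (hM : Mahler) (hG : GeoC) (hT : TopUnc) (ℓ : ℕ) (ε : ℝ) (hε : 0 < ε) :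
    ∃ c : ℝ, 0 < c ∧ ∀ x : Config, IsFin x → x ≠ 0 → ∀ η : ℝ, 0 < η → ∃ N₀ : ℕ,
    ∀ (n₀ H : ℕ) (j₀ : ℤ), N₀ ≤ n₀ → η * n₀ ≤ H → (∃ i ≤ j₀, F^[n₀] x i ≠ 0) →
    (∃ i, j₀ + H ≤ i ∧ F^[n₀] x i ≠ 0) → ∀ w : Fin ℓ → Fin 6,
      ∃ S : Finset (ℕ × ℤ), c * (H : ℝ) ^ (2 - ε) ≤ (S.card : ℝ) ∧
        ∀ p ∈ S, n₀ ≤ p.1 ∧ p.1 < n₀ + H ∧ j₀ ≤ p.2 ∧ p.2 < j₀ + H ∧
          Shows (F^[p.1] x) p.2 w := by
  obtain ⟨Q, C₁, hQ, hocc⟩ := occ ℓ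
  obtain ⟨δ, hδ, hG1⟩ := hG (min ε 1) (lt_min hε one_pos)
  obtain ⟨q₁, hT1⟩ := hT δ hδ
  obtain ⟨w0, hw0, c0, hc0, q₂, hG2⟩ := hG1 (1 / 4) (by norm_num)
  set C2 : ℕ := C₁ + w0 + 1 + Q with hC2
  set Cf : ℕ := C₁ + 2 * w0 + 1 with hCf
  refine ⟨c0 / (8 ^ (2 - min ε 1) * (2 * Cf + 1) ^ 2), by positivity, ?_⟩
  intro x hx hne η hη
  obtain ⟨A, r, hA, rfl⟩ := fin_eq_dig' hx hne
  obtain ⟨v, g0, hg0, hQN⟩ := Nat.exists_eq_two_pow_mul_odd (n := Q * A) (by positivity)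
  obtain ⟨NL, hNL⟩ := left_bound A
  obtain ⟨NM, hNM⟩ := hM g0 hg0.pos (η / 128) (by positivity)
  obtain ⟨NH, hNH⟩ : ∃ NH : ℕ, ∀ n₀ H : ℕ, NH ≤ n₀ → η * n₀ ≤ H →
      8 * (q₁ + q₂) + 8 * C2 + 100 ≤ H := by
    obtain ⟨NH, hNH⟩ := exists_nat_ge ((8 * (q₁ + q₂) + 8 * C2 + 100 : ℝ) / η)
    refine ⟨NH, fun n₀ H h1 h2 => ?_⟩
    have h3 : (NH : ℝ) ≤ n₀ := by exact_mod_cast h1
    have h4 : (8 * (q₁ + q₂) + 8 * C2 + 100 : ℝ) / η ≤ n₀ := hNH.trans h3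
    rw [div_le_iff₀ hη] at h4
    have h5 : ((8 * (q₁ + q₂) + 8 * C2 + 100 : ℕ) : ℝ) ≤ H := by
      push_cast
      linarith
    exact_mod_cast h5
  refine ⟨NL + NM + NH + 8 * (C₁ + Q + r + 20) + 8 * C2, ?_⟩
  intro n₀ H j₀ hn₀ hH hl hr w
  have hHbig := hNH n₀ H (by omega) hH
  obtain ⟨V, hV⟩ : ∃ V : ℕ, V = 4 * n₀ := ⟨_, rfl⟩
  obtain ⟨q, hq⟩ : ∃ q : ℕ, q = (H - 2 * C2) / 4 := ⟨_, rfl⟩
  have hl' := inside_left hl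
  have h2 := hNL n₀ (by omega) r j₀ hl'
  have h4 := inside_right hQ hA hQN (by omega) hr
  obtain ⟨as, has⟩ : ∃ a : ℕ, (a : ℤ) = n₀ - j₀ + 1 + r - v :=
    ⟨(n₀ - j₀ + 1 + r - v : ℤ).toNat, Int.toNat_of_nonneg (by omega)⟩
  obtain ⟨bs, hbs⟩ : ∃ b : ℕ, (b : ℤ) = n₀ + j₀ - 1 - r :=
    ⟨(n₀ + j₀ - 1 - r : ℤ).toNat, Int.toNat_of_nonneg (by omega)⟩
  have hval := value_bound (Q := Q) (A := A) (r := r) (v := v) (g0 := g0) (n := n₀)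
    (a := as) (b := bs) (j := j₀) hQN has hbs hl'
  obtain ⟨A₀, hA₀⟩ : ∃ A₀ : ℕ, A₀ + 2 * q = V + as := ⟨V + as - 2 * q, by omega⟩
  obtain ⟨B₀, hB₀⟩ : ∃ B₀ : ℕ, B₀ = bs + 2 * C2 + 2 * q := ⟨_, rfl⟩
  obtain ⟨Fc, hArr, hcov⟩ := u4 g0 hg0 w0 V V V hw0
  have hAri := hArr.cls.ari
  have hDis := hArr.cls.dis
  have hthl := th_lt
  have hthp := th_pos
  have hVA : V ≤ A₀ := by omega
  -- the count
  have hqr : η * n₀ / 8 ≤ q := by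
    have h5 : H ≤ 8 * q := by omega
    have h6 : (H : ℝ) ≤ 8 * q := by exact_mod_cast h5
    linarith
  have htop := hT1 q (by omega) Fc A₀ B₀ hAri hDis (by omega) (by
    intro i hi a b p1 p2 p3 p4 hcv
    have hiI : i ∈ Fc.I := (mem_filter.1 hi).1
    have hiG := ne_G hArr hcv (by omega)
    have hi0 : i ≠ 0 := by
      refine ne_zero_of_value hg0.pos hArr hiI hcv ?_
      have e1 : (2 : ℝ) ^ a ≤ 2 ^ (V + as + 2 * q) := pow_le_pow_right₀ (by norm_num) (by omega)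
      have e2 : (3 : ℝ) ^ (bs + 2 * q) ≤ 3 ^ b := pow_le_pow_right₀ (by norm_num) (by omega)
      have e3 : (2 : ℝ) ^ (2 * q) ≤ 3 ^ (2 * q) := pow_le_pow_left₀ (by norm_num) (by norm_num) _
      have hQ1 : (1 : ℝ) ≤ Q := by exact_mod_cast hQ
      have h5 : (0 : ℝ) < 2 ^ as := by positivity
      have h6 : (2 : ℝ) ^ as ≤ 6 * (g0 * 3 ^ bs) := (le_mul_of_one_le_left h5.le hQ1).trans hval
      have h7 : (0 : ℝ) ≤ 6 * (g0 * 3 ^ bs) := by positivity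
      push_cast
      rw [pow_add, pow_add] at e1
      rw [pow_add] at e2
      calc (2 : ℝ) ^ a ≤ 2 ^ V * 2 ^ as * 2 ^ (2 * q) := e1
        _ ≤ 2 ^ V * (6 * (g0 * 3 ^ bs)) * 3 ^ (2 * q) := by gcongr
        _ = 6 * (g0 * 2 ^ V) * (3 ^ bs * 3 ^ (2 * q)) := by ring
        _ ≤ 8 * (g0 * 2 ^ V) * 3 ^ b := by gcongr; norm_num
    have hlam := hNM V (by omega) Fc V V hArr le_rfl le_rfl i hiI hi0 hiG a b (by omega) hcv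
    have hVr : (V : ℝ) = 4 * n₀ := by rw [hV]; push_cast; ring
    rw [hVr] at hlam
    linarith)
  have hcount := hG2 q (by omega) Fc A₀ B₀ hAri hDis (by omega) (by linarith)
  have hpt : ∀ p ∈ Unc3 Fc w0 A₀ (A₀ + 4 * q) B₀ (B₀ + 4 * q), ∃ z : ℕ × ℤ,
      (n₀ ≤ z.1 ∧ z.1 < n₀ + H ∧ j₀ ≤ z.2 ∧ z.2 < j₀ + H ∧
        Shows (F^[z.1] (dig ((A : ℝ) / 6 ^ r))) z.2 w) ∧
      |(p.1 : ℤ) - ((z.1 : ℤ) - z.2 + 1 + r - v + V)| ≤ Cf ∧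
      |(p.2 : ℤ) - ((z.1 : ℤ) + z.2 - 1 - r)| ≤ Cf := by
    intro p hp
    unfold Unc3 at hp
    rw [mem_filter, mem_product, mem_Ioc, mem_Ico] at hp
    obtain ⟨⟨⟨p1, p2⟩, p3, p4⟩, p5⟩ := hp
    have hmem : p ∈ Unc2 Fc (w0 : ℝ) V V 0 V := by
      unfold Unc2
      rw [mem_filter, mem_product, mem_Ioc, mem_Ico]
      exact ⟨⟨⟨by omega, by omega⟩, Nat.zero_le _, by omega⟩, p5⟩
    obtain ⟨α, k0, k1, k2, k3⟩ := hcov _ hmem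
    have k2' : V + α ≤ p.1 + 2 * w0 + 1 := by
      have hw0r : (0 : ℝ) < w0 := by exact_mod_cast hw0
      have hm : th * w0 ≤ 2 * w0 := mul_le_mul_of_nonneg_right hthl.le hw0r.le
      have : ((V + α : ℕ) : ℝ) ≤ ((p.1 + 2 * w0 + 1 : ℕ) : ℝ) := by
        push_cast
        push_cast at k2
        linarith
      exact_mod_cast this
    obtain ⟨m, j, m1, m2, m3⟩ := hocc A r v g0 hA hQN α p.2 k0 (by omega) k3 w
    rw [abs_le] at m1 m2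
    refine ⟨(m, j), ⟨?_, ?_, ?_, ?_, m3⟩, ?_, ?_⟩
    · simp only; omega
    · simp only; omega
    · simp only; omega
    · simp only; omega
    · rw [abs_le]; simp only; push_cast; omega
    · rw [abs_le]; simp only; push_cast; omega
  choose! f hf1 hf2 hf3 using hpt
  refine ⟨(Unc3 Fc w0 A₀ (A₀ + 4 * q) B₀ (B₀ + 4 * q)).image f, ?_, ?_⟩
  · have h1 := count_fibre (Unc3 Fc w0 A₀ (A₀ + 4 * q) B₀ (B₀ + 4 * q)) Cf f
      (fun z => (z.1 : ℤ) - z.2 + 1 + r - v + V) (fun z => (z.1 : ℤ) + z.2 - 1 - r)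
      (fun p hp => ⟨hf2 p hp, hf3 p hp⟩)
    have h2 : ((Unc3 Fc w0 A₀ (A₀ + 4 * q) B₀ (B₀ + 4 * q)).card : ℝ) ≤ (2 * Cf + 1) ^ 2 *
        (((Unc3 Fc w0 A₀ (A₀ + 4 * q) B₀ (B₀ + 4 * q)).image f).card : ℝ) := by
      exact_mod_cast h1
    have h3 : (H : ℝ) / 8 ≤ q := by
      have : H ≤ 8 * q := by omega
      have h4 : (H : ℝ) ≤ ((8 * q : ℕ) : ℝ) := by exact_mod_cast this
      push_cast at h4
      linarith
    have hm1 : min ε 1 ≤ ε := min_le_left _ _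
    have hm2 : min ε 1 ≤ 1 := min_le_right _ _
    have hH1 : (1 : ℝ) ≤ H := by
      have : 1 ≤ H := by omega
      exact_mod_cast this
    have h4 : ((H : ℝ) / 8) ^ (2 - min ε 1) ≤ (q : ℝ) ^ (2 - min ε 1) :=
      Real.rpow_le_rpow (by positivity) h3 (by linarith)
    rw [Real.div_rpow (by positivity) (by norm_num)] at h4
    have h5 : (0 : ℝ) < (2 * Cf + 1) ^ 2 := by positivity
    have h6 : (0 : ℝ) < 8 ^ (2 - min ε 1) := by positivity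
    have h9 : (H : ℝ) ^ (2 - ε) ≤ (H : ℝ) ^ (2 - min ε 1) :=
      Real.rpow_le_rpow_of_exponent_le hH1 (by linarith)
    have h7 : c0 / (8 ^ (2 - min ε 1) * (2 * Cf + 1) ^ 2) * (H : ℝ) ^ (2 - min ε 1) =
        c0 * ((H : ℝ) ^ (2 - min ε 1) / 8 ^ (2 - min ε 1)) / (2 * Cf + 1) ^ 2 := by
      field_simp
    refine (mul_le_mul_of_nonneg_left h9 (by positivity)).trans ?_
    rw [h7, div_le_iff₀ h5]
    have h8 := mul_le_mul_of_nonneg_left h4 hc0.le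
    linarith
  · intro z hz
    rw [mem_image] at hz
    obtain ⟨p, hp, rfl⟩ := hz
    exact hf1 p hp

end MPcc0Tri3
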