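import Pool.Agent.Lib.MP_cc0c1a_nt.Tri2.Final
import Pool.Agent.Lib.MP_cc0c1a_nt.Tri3.Window
import Pool.Agent.Lib.MP_cc0c1a_nt.Tri3.U1
import Pool.Agent.Lib.MP_cc0c1a_nt.Tri3.U2
import Pool.Agent.Lib.MP_cc0c1a_nt.Tri3.U3
import Pool.Agent.Lib.MP_cc0c1a_nt.Tri3.V1
import Pool.Agent.Lib.MP_cc0c1a_nt.Tri3.V2
import Pool.Agent.Lib.MP_cc0c1a_nt.Tri3.V3
import Pool.Agent.Lib.MP_cc0c1a_nt.Tri3.V4

set_option autoImplicit false

/-!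
# MP_cc0c1a_nt / Tri3: assembly (helper60)
-/

namespace MPcc0Tri3

open MPcc0Tri2

theorem mahler : Mahler := u1 sizeSum

theorem conn : Conn := u3 u2

theorem geoC : GeoC :=
  v3 (v1 t1 (t6 sizeSum t1 (t2 t1) numBound t5) (t7 sizeSum t1 numBound)) v2

theorem topUnc : TopUnc := v4 sizeSum t1 (t2 t1) numBound

end MPcc0Tri3
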