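import Pool.Agent.Lib.MP_cc0c1a_nt.Tri3.Dop
import Pool.Agent.Lib.MP_cc0c1a_nt.Tri3.Final3

set_option autoImplicit false

/-!
# MP_cc0c1a_nt / Tri3: most positions show all words in every macroscopic time window, final form
(helper60)
-/

open Finset
open scoped Classical
open Pool.Agent.Results.MP_cc0c1a_nt.SyndeticPositions (fin_eq_dig Config IsFin Shows F dig)

namespace MPcc0Tri3

lemma inside_mid {x : Config} {n : ℕ} {a b c : ℤ} (ha : Inside x n a) (hb : Inside x n b)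
    (h1 : a ≤ c) (h2 : c ≤ b) : Inside x n c := by
  obtain ⟨i, hi, hi'⟩ := ha.1
  obtain ⟨k, hk, hk'⟩ := hb.2
  exact ⟨⟨i, hi.trans h1, hi'⟩, ⟨k, h2.trans hk, hk'⟩⟩

lemma inside_eventually {A r : ℕ} (hA : 0 < A) (j : ℤ) :
    ∃ N : ℕ, ∀ n : ℕ, N ≤ n → Inside (dig ((A : ℝ) / 6 ^ r)) n j := by
  obtain ⟨v, g, hg, hAv⟩ := Nat.exists_eq_two_pow_mul_odd (n := A) hA.ne'
  have hpos : 0 < (6 : ℝ) ^ j * ((A : ℝ) / 6 ^ r) := by positivity
  obtain ⟨N1, hN1⟩ := pow_unbounded_of_one_lt (1 / ((6 : ℝ) ^ j * ((A : ℝ) / 6 ^ r)))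
    (by norm_num : (1 : ℝ) < 3 / 2)
  refine ⟨N1 + v + j.natAbs + 1, fun n hn => ⟨?_, ?_⟩⟩
  · by_contra hcon
    push Not at hcon
    have h1 := outside_left hcon
    rw [div_lt_iff₀ hpos] at hN1
    have h2 : (3 / 2 : ℝ) ^ N1 ≤ (3 / 2) ^ n := pow_le_pow_right₀ (by norm_num) (by omega)
    have h3 : (3 / 2 : ℝ) ^ N1 * ((6 : ℝ) ^ j * ((A : ℝ) / 6 ^ r)) ≤
        (3 / 2) ^ n * ((6 : ℝ) ^ j * ((A : ℝ) / 6 ^ r)) := by gcongr
    have h4 : (6 : ℝ) ^ j * ((A : ℝ) / 6 ^ r * (3 / 2) ^ n) =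
        (3 / 2) ^ n * ((6 : ℝ) ^ j * ((A : ℝ) / 6 ^ r)) := by ring
    linarith
  · by_contra hcon
    push Not at hcon
    have h1 := outside_right (Q := 1) (A := A) (r := r) (v := v) (g0 := g) (n := n) (j := j) hA hg
      (by rw [one_mul]; exact hAv) (by omega) hcon
    omega

/-- Most positions of a block are good, in every macroscopic time window. -/
theorem dop_blocks (ℓ : ℕ) {θ : ℝ} (hθ : 0 < θ) : ∃ B₀ : ℕ, 0 < B₀ ∧
    ∀ x : Config, IsFin x → x ≠ 0 → ∀ ε : ℝ, 0 < ε → ∃ N₀ : ℕ, ∀ N : ℕ, N₀ ≤ N →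
      ∀ B : ℕ, B₀ ≤ B → ∀ j₀ : ℤ, Inside x N j₀ → Inside x N (j₀ + B) →
      ∃ S : Finset ℕ, S ⊆ Finset.range B ∧ (1 - θ) * B ≤ (S.card : ℝ) ∧
        ∀ l ∈ S, ∀ w : Fin ℓ → Fin 6, ∃ n : ℕ, N ≤ n ∧ (n : ℝ) ≤ (1 + ε) * N ∧
          Shows (F^[n] x) (j₀ + l) w := by
  obtain ⟨B₀, hB₀, h⟩ := dop_windows mahler ℓ hθ
  refine ⟨B₀, hB₀, fun x hx hne ε hε => ?_⟩
  obtain ⟨N₀, hN₀⟩ := h x hx hne ε hε
  refine ⟨N₀, fun N hN B => ?_⟩
  induction B using Nat.strong_induction_on with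
  | _ B ih =>
    intro hB j₀ h1 h2
    rcases Nat.lt_or_ge B (2 * B₀) with hlt | hge
    · exact hN₀ N hN B hB hlt j₀ h1 h2
    · have hB' : ((B - B₀ : ℕ) : ℤ) = B - B₀ := by
        rw [Nat.cast_sub (by omega)]
      obtain ⟨S1, hS1, hc1, hg1⟩ := hN₀ N hN B₀ le_rfl (by omega) j₀ h1
        (inside_mid h1 h2 (by omega) (by omega))
      obtain ⟨S2, hS2, hc2, hg2⟩ := ih (B - B₀) (by omega) (by omega) (j₀ + B₀)
        (inside_mid h1 h2 (by omega) (by omega)) (inside_mid h1 h2 (by omega) (by omega))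
      refine ⟨S1 ∪ S2.image (fun l => B₀ + l), ?_, ?_, ?_⟩
      · intro l hl
        rw [mem_union, mem_image] at hl
        rw [mem_range]
        rcases hl with hl | ⟨l', hl', rfl⟩
        · have := mem_range.1 (hS1 hl)
          omega
        · have := mem_range.1 (hS2 hl')
          omega
      · rw [card_union_of_disjoint, card_image_of_injective _ (fun a b hab => by simpa using hab)]
        · have hcast : ((B - B₀ : ℕ) : ℝ) = B - B₀ := Nat.cast_sub (by omega)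
          rw [hcast] at hc2
          push_cast
          linarith
        · rw [disjoint_left]
          intro l hl hl'
          rw [mem_image] at hl'
          obtain ⟨l', -, hl''⟩ := hl'
          have := mem_range.1 (hS1 hl)
          omega
      · intro l hl w
        rw [mem_union, mem_image] at hl
        rcases hl with hl | ⟨l', hl', rfl⟩
        · exact hg1 l hl w
        · obtain ⟨n, hn1, hn2, hn3⟩ := hg2 l' hl' w
          refine ⟨n, hn1, hn2, ?_⟩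
          have e : j₀ + ((B₀ + l' : ℕ) : ℤ) = j₀ + B₀ + l' := by push_cast; ring
          rw [e]
          exact hn3

/-- The final form. -/
theorem final_dop (ℓ : ℕ) (θ : ℝ) (hθ : 0 < θ) : ∃ B₀ : ℕ, ∀ x : Config, IsFin x → x ≠ 0 →
    (∀ B : ℕ, B₀ ≤ B → ∀ j₀ : ℤ, (1 - θ) * B ≤
      (({j : ℤ | j₀ ≤ j ∧ j < j₀ + B ∧
        ∀ w : Fin ℓ → Fin 6, {n : ℕ | Shows (F^[n] x) j w}.Infinite}.ncard : ℕ) : ℝ)) ∧
    (∀ ε : ℝ, 0 < ε → ∃ N₀ : ℕ, ∀ N : ℕ, N₀ ≤ N → ∀ B : ℕ, B₀ ≤ B → ∀ j₀ : ℤ,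
      Inside x N j₀ → Inside x N (j₀ + B) → (1 - θ) * B ≤
      (({j : ℤ | j₀ ≤ j ∧ j < j₀ + B ∧ ∀ w : Fin ℓ → Fin 6,
        ∃ n : ℕ, N ≤ n ∧ (n : ℝ) ≤ (1 + ε) * N ∧ Shows (F^[n] x) j w}.ncard : ℕ) : ℝ)) := by
  obtain ⟨B₀, hB₀pos, hB₀⟩ := dop_blocks ℓ hθ
  have hfin : ∀ (B : ℕ) (j₀ : ℤ) (P : ℤ → Prop), {j : ℤ | j₀ ≤ j ∧ j < j₀ + B ∧ P j}.Finite := by
    intro B j₀ P
    exact (Set.finite_Ico j₀ (j₀ + B)).subset (fun j hj => ⟨hj.1, hj.2.1⟩)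
  have hcard : ∀ (B : ℕ) (j₀ : ℤ) (P : ℤ → Prop) (S : Finset ℕ), S ⊆ Finset.range B →
      (∀ l ∈ S, P (j₀ + l)) → S.card ≤ {j : ℤ | j₀ ≤ j ∧ j < j₀ + B ∧ P j}.ncard := by
    intro B j₀ P S hS hP
    have h1 : (S.image (fun l : ℕ => j₀ + (l : ℤ))).card = S.card := by
      apply Finset.card_image_of_injective
      intro a b hab
      simpa using hab
    rw [← h1, ← Set.ncard_coe_finset]
    apply Set.ncard_le_ncard _ (hfin B j₀ P)
    intro j hj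
    rw [Finset.mem_coe, Finset.mem_image] at hj
    obtain ⟨l, hl, rfl⟩ := hj
    have := Finset.mem_range.1 (hS hl)
    exact ⟨by omega, by omega, hP l hl⟩
  refine ⟨B₀, fun x hx hne => ⟨?_, ?_⟩⟩
  · intro B hB j₀
    obtain ⟨A, r, hxA⟩ := fin_eq_dig hx
    have hA : 0 < A := by
      rcases Nat.eq_zero_or_pos A with h | h
      · exfalso
        apply hne
        subst h
        rw [hxA]
        funext i
        apply Fin.ext
        unfold dig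
        simp
      · exact h
    obtain ⟨N₀, hN₀⟩ := hB₀ x hx hne 1 one_pos
    obtain ⟨N1, hN1⟩ := inside_eventually (r := r) hA j₀
    obtain ⟨N2, hN2⟩ := inside_eventually (r := r) hA (j₀ + B)
    rw [← hxA] at hN1 hN2
    have h : ∀ k : ℕ, ∃ S : Finset ℕ, S ⊆ Finset.range B ∧ (1 - θ) * B ≤ (S.card : ℝ) ∧
        ∀ l ∈ S, ∀ w : Fin ℓ → Fin 6, ∃ n : ℕ, k ≤ n ∧ Shows (F^[n] x) (j₀ + l) w := by
      intro k
      obtain ⟨S, h1, h2, h3⟩ := hN₀ (N₀ + N1 + N2 + k) (by omega) B hB j₀ (hN1 _ (by omega))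
        (hN2 _ (by omega))
      refine ⟨S, h1, h2, fun l hl w => ?_⟩
      obtain ⟨n, hn1, -, hn⟩ := h3 l hl w
      exact ⟨n, by omega, hn⟩
    choose S hS1 hS2 hS3 using h
    obtain ⟨S₀, hS₀⟩ := Finite.exists_infinite_fiber
      (fun k : ℕ => (⟨S k, Finset.mem_powerset.2 (hS1 k)⟩ : (Finset.range B).powerset))
    rw [Set.infinite_coe_iff] at hS₀
    have hS₀' : {k : ℕ | S k = (S₀ : Finset ℕ)}.Infinite := by
      refine hS₀.mono ?_
      intro k hk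
      have : (⟨S k, Finset.mem_powerset.2 (hS1 k)⟩ : (Finset.range B).powerset) = S₀ := hk
      rw [Set.mem_ofPred_eq, ← this]
    obtain ⟨k₀, hk₀⟩ := hS₀'.nonempty
    have hk₀' : S k₀ = (S₀ : Finset ℕ) := hk₀
    refine le_trans (hS2 k₀) (Nat.cast_le.2 (hcard B j₀ _ (S k₀) (hS1 k₀) ?_))
    intro l hl w
    rw [Set.infinite_iff_exists_gt]
    intro b
    obtain ⟨k, hk, hkb⟩ := hS₀'.exists_gt b
    have hk' : S k = (S₀ : Finset ℕ) := hk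
    obtain ⟨n, hn1, hn⟩ := hS3 k l (by rw [hk', ← hk₀']; exact hl) w
    exact ⟨n, hn, by omega⟩
  · intro ε hε
    obtain ⟨N₀, hN₀⟩ := hB₀ x hx hne ε hε
    refine ⟨N₀, fun N hN B hB j₀ hi1 hi2 => ?_⟩
    obtain ⟨S, h1, h2, h3⟩ := hN₀ N hN B hB j₀ hi1 hi2
    exact le_trans h2 (Nat.cast_le.2 (hcard B j₀ _ S h1 h3))

end MPcc0Tri3
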