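import Pool.Agent.Lib.MP_cc0c1a_nt.Tri3.SpecU

set_option autoImplicit false

/-!
# MP_cc0c1a_nt / Tri3: uncovered cells around one uncovered cell (helper60)
-/

namespace MPcc0Tri3

open Finset MPcc0Tri MPcc0Tri2

/-- Around an uncovered cell a positive proportion of the cells is not covered by large faces. -/
theorem topLocal (hU : UncBase) (hT : TriCount) (δ : ℝ) (hδ : 0 < δ) : ∃ q₀ : ℕ, ∀ q : ℕ, q₀ ≤ q →
    ∀ (F : Faces ℚ) (A₀ B₀ : ℕ), Ari F → Dis F → 2 * q ≤ A₀ →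
    (∀ i ∈ F.big th (δ * q), ¬ F.Cov th i (A₀ + 2 * q) (B₀ + 2 * q)) →
    1 / 2000 * (q : ℝ) ^ 2 ≤
      ((Unc3 F (δ * q) (A₀ + q) (A₀ + 3 * q) (B₀ + q) (B₀ + 3 * q)).card : ℝ) := by
  classical
  obtain ⟨D, hD1, hD2⟩ : ∃ D : ℕ, 64 ≤ D ∧ 1 / (D : ℝ) ≤ δ := by
    obtain ⟨D', hD'⟩ := exists_nat_ge (1 / δ)
    refine ⟨max 64 D', le_max_left _ _, ?_⟩
    have h1 : (1 / δ : ℝ) ≤ ((max 64 D' : ℕ) : ℝ) :=
      hD'.trans (by exact_mod_cast le_max_right 64 D')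
    have h2 : (0 : ℝ) < ((max 64 D' : ℕ) : ℝ) := lt_of_lt_of_le (by positivity) h1
    rw [div_le_iff₀ hδ] at h1
    rw [div_le_iff₀ h2]
    linarith
  have hD0 : (0 : ℝ) < D := by
    have : 0 < D := by omega
    exact_mod_cast this
  obtain ⟨w₀, hw₀⟩ := hU (D / 16) (by omega)
  refine ⟨(w₀ + 2) * D + 1000, ?_⟩
  intro q hq F A₀ B₀ hAri hDis hA₀ hz
  have hthp := th_pos
  have hthl := th_lt
  have hq1 : 2 * D ≤ q := by nlinarith
  obtain ⟨w, hw⟩ : ∃ w : ℕ, w = q / D := ⟨_, rfl⟩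
  obtain ⟨M, hM⟩ : ∃ M : ℕ, M = D / 16 := ⟨_, rfl⟩
  rw [← hM] at hw₀
  have hDpos : 0 < D := by omega
  have hww : w₀ ≤ w := by
    rw [hw, Nat.le_div_iff_mul_le hDpos]
    nlinarith
  have hwq : D * w ≤ q := by rw [hw]; exact Nat.mul_div_le q D
  have hwq' : q < D * (w + 1) := by rw [hw]; exact Nat.lt_mul_div_succ q hDpos
  have hM1 : 16 * M ≤ D := by rw [hM]; exact Nat.mul_div_le D 16
  have hM2 : D < 16 * (M + 1) := by rw [hM]; exact Nat.lt_mul_div_succ D (by norm_num)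
  have hMw1 : 16 * (M * w) ≤ q := by nlinarith
  have hw64 : 64 * w ≤ q := by nlinarith
  have hMw2 : q ≤ 42 * (M * w) := by
    have h1 : q ≤ 2 * (D * w) := by nlinarith
    have h2 : D ≤ 21 * M := by omega
    nlinarith
  have hwδ : (w : ℝ) ≤ δ * q := by
    have h1 : (D : ℝ) * w ≤ q := by exact_mod_cast hwq
    have h2 : 1 ≤ δ * D := by rwa [div_le_iff₀ hD0] at hD2
    have h3 : (0 : ℝ) ≤ w := Nat.cast_nonneg w
    nlinarith
  have hbigsub : ∀ i, i ∈ F.big th (δ * q) → i ∈ F.big th w := by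
    intro i hi
    unfold Faces.big at hi ⊢
    rw [mem_filter] at hi ⊢
    exact ⟨hi.1, hwδ.trans hi.2⟩
  by_cases hI : ∃ i ∈ F.big th (δ * q), ∃ b, F.Alive th i b ∧ 2 * (B₀ + 2 * q) ≤ 2 * b + q ∧
      2 * b < 2 * (B₀ + 2 * q) + q ∧ 2 * (A₀ + 2 * q) ≤ 2 * F.L i + q ∧
      2 * F.L i ≤ 2 * (A₀ + 2 * q) + q
  · obtain ⟨i, hi, b, hal, hb1, hb2, hL1, hL2⟩ := hI
    obtain ⟨S, hS⟩ : ∃ S : Finset (ℕ × ℕ), ∀ p, p ∈ S ↔
        p ∈ tri (F.L i + ⌈th * (M * w : ℕ)⌉₊) (b - M * w)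
          (F.L i - th * b - th * (M * w : ℕ)) ∧ ∀ j ∈ F.big th w, ¬ F.Cov th j p.1 p.2 :=
      ⟨(tri (F.L i + ⌈th * (M * w : ℕ)⌉₊) (b - M * w)
          (F.L i - th * b - th * (M * w : ℕ))).filter
        fun p => ∀ j ∈ F.big th w, ¬ F.Cov th j p.1 p.2, fun p => mem_filter⟩
    have hcard := hw₀ w hww F i b S hAri hDis (hbigsub i hi) hal (by omega) (by omega) hS
    have hceil : ⌈th * (M * w : ℕ)⌉₊ ≤ 2 * (M * w) + 1 := by
      rw [Nat.ceil_le]
      have h1 : (0 : ℝ) ≤ ((M * w : ℕ) : ℝ) := Nat.cast_nonneg _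
      have h2 : th * ((M * w : ℕ) : ℝ) ≤ 2 * ((M * w : ℕ) : ℝ) :=
        mul_le_mul_of_nonneg_right hthl.le h1
      push_cast at h1 h2 ⊢
      linarith
    have hsub : S ⊆ Unc3 F (δ * q) (A₀ + q) (A₀ + 3 * q) (B₀ + q) (B₀ + 3 * q) := by
      intro p hp
      obtain ⟨hp1, hp2⟩ := (hS p).1 hp
      rw [hT.1] at hp1
      obtain ⟨c1, c2, c3⟩ := hp1
      have hbM : M * w ≤ b := by omega
      have c2' : ((b - M * w : ℕ) : ℝ) ≤ p.2 := by exact_mod_cast c2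
      rw [Nat.cast_sub hbM] at c2'
      have c1' : (p.1 : ℝ) ≤ ((F.L i + ⌈th * (M * w : ℕ)⌉₊ : ℕ) : ℝ) := by exact_mod_cast c1
      have c1'' : (p.1 : ℝ) ≤ F.L i + (2 * (M * w : ℕ) + 1) := by
        have h1 : ((⌈th * (M * w : ℕ)⌉₊ : ℕ) : ℝ) ≤ ((2 * (M * w) + 1 : ℕ) : ℝ) := by
          exact_mod_cast hceil
        push_cast at h1 c1' ⊢
        linarith
      have hx0 : (0 : ℝ) ≤ ((M * w : ℕ) : ℝ) := Nat.cast_nonneg _
      -- lower bound for the column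
      have d1 : (F.L i : ℝ) - 4 * (M * w : ℕ) < p.1 := by
        have h1 : th * ((b : ℝ) - (M * w : ℕ)) ≤ th * p.2 :=
          mul_le_mul_of_nonneg_left c2' hthp.le
        have h2 : th * ((M * w : ℕ) : ℝ) ≤ 2 * ((M * w : ℕ) : ℝ) :=
          mul_le_mul_of_nonneg_right hthl.le hx0
        nlinarith
      have d1' : F.L i < p.1 + 4 * (M * w) := by
        have : (F.L i : ℝ) < ((p.1 + 4 * (M * w) : ℕ) : ℝ) := by push_cast at d1 ⊢; linarith
        exact_mod_cast this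
      -- upper bound for the row
      have hth1 : (1 : ℝ) < th := by
        unfold th
        rw [Real.lt_logb_iff_rpow_lt (by norm_num) (by norm_num)]
        norm_num
      have d2 : (p.2 : ℝ) < b + 4 * (M * w : ℕ) + 1 := by
        have h1 : th * (p.2 : ℝ) < th * b + th * (M * w : ℕ) + (2 * (M * w : ℕ) + 1) := by
          linarith
        have h2 : 2 * ((M * w : ℕ) : ℝ) + 1 ≤ th * (2 * (M * w : ℕ) + 1) :=
          le_mul_of_one_le_left (by positivity) hth1.le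
        have h3 : th * (p.2 : ℝ) < th * (b + 3 * (M * w : ℕ) + 1) := by linarith
        have h4 := lt_of_mul_lt_mul_left h3 hthp.le
        linarith
      have d2' : p.2 < b + 4 * (M * w) + 1 := by
        have : (p.2 : ℝ) < ((b + 4 * (M * w) + 1 : ℕ) : ℝ) := by push_cast at d2 ⊢; linarith
        exact_mod_cast this
      unfold Unc3
      rw [mem_filter, mem_product, mem_Ioc, mem_Ico]
      refine ⟨⟨⟨by omega, by omega⟩, by omega, by omega⟩, fun j hj => hp2 j (hbigsub j hj)⟩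
    have h1 : (S.card : ℝ) ≤
        ((Unc3 F (δ * q) (A₀ + q) (A₀ + 3 * q) (B₀ + q) (B₀ + 3 * q)).card : ℝ) := by
      exact_mod_cast card_le_card hsub
    have h2 : (q : ℝ) ≤ 42 * ((M * w : ℕ) : ℝ) := by exact_mod_cast hMw2
    have h3 : (0 : ℝ) ≤ q := Nat.cast_nonneg q
    nlinarith
  · push Not at hI
    obtain ⟨m, hm⟩ : ∃ m : ℕ, m = q / 10 := ⟨_, rfl⟩
    have hm1 : 10 * m ≤ q := by omega
    have hm2 : q < 10 * m + 10 := by omega
    -- one of two squares is uncovered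
    have key : (∀ a b, A₀ + 2 * q < a + m → a ≤ A₀ + 2 * q → B₀ + 2 * q ≤ b →
        b < B₀ + 2 * q + m → ∀ i ∈ F.big th (δ * q), ¬ F.Cov th i a b) ∨
        (∀ a b, A₀ + 2 * q < a + m → a ≤ A₀ + 2 * q → B₀ + 2 * q ≤ b + m →
        b < B₀ + 2 * q → ∀ i ∈ F.big th (δ * q), ¬ F.Cov th i a b) := by
      by_contra hcon
      push Not at hcon
      obtain ⟨⟨a1, b1, p1, p2, p3, p4, i, hi, hci⟩, ⟨a2, b2, r1, r2, r3, r4, k, hk, hck⟩⟩ := hcon
      have hiI : i ∈ F.I := (mem_filter.1 hi).1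
      have hkI : k ∈ F.I := (mem_filter.1 hk).1
      obtain ⟨si, ri, li⟩ := hci
      obtain ⟨sk, rk, lk⟩ := hck
      have li' : (a1 : ℝ) ≤ F.L i := by exact_mod_cast li
      have lk' : (a2 : ℝ) ≤ F.L k := by exact_mod_cast lk
      have hLi : 2 * (A₀ + 2 * q) + q < 2 * F.L i := by
        by_contra hcon
        push Not at hcon
        exact absurd (hI i hi b1 ⟨si, by linarith⟩ (by omega) (by omega) (by omega)) (by omega)
      have hLk : 2 * (A₀ + 2 * q) + q < 2 * F.L k := by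
        by_contra hcon
        push Not at hcon
        exact absurd (hI k hk b2 ⟨sk, by linarith⟩ (by omega) (by omega) (by omega)) (by omega)
      have hLi' : (A₀ : ℝ) + 2 * q + 4 * m < F.L i := by
        have : A₀ + 2 * q + 4 * m < F.L i := by omega
        exact_mod_cast this
      have hLk' : (A₀ : ℝ) + 2 * q + 4 * m < F.L k := by
        have : A₀ + 2 * q + 4 * m < F.L k := by omega
        exact_mod_cast this
      have ha1 : (a1 : ℝ) ≤ A₀ + 2 * q := by exact_mod_cast p2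
      have ha2 : (a2 : ℝ) ≤ A₀ + 2 * q := by exact_mod_cast r2
      have hb12 : (b1 : ℝ) ≤ b2 + 2 * m := by
        have : b1 ≤ b2 + 2 * m := by omega
        exact_mod_cast this
      have hb12' : (b2 : ℝ) ≤ b1 := by
        have : b2 ≤ b1 := by omega
        exact_mod_cast this
      have hrk : F.ρ k + th * b1 < A₀ + 2 * q + 4 * m := by
        have h1 : th * (b1 : ℝ) ≤ th * (b2 + 2 * m) := mul_le_mul_of_nonneg_left hb12 hthp.le
        have h2 : th * (2 * m : ℝ) ≤ 2 * (2 * m) :=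
          mul_le_mul_of_nonneg_right hthl.le (by positivity)
        linarith
      have hik : i = k := by
        by_contra hne
        rcases hDis i hiI k hkI hne b1 ⟨si, by linarith⟩ ⟨by omega, by linarith⟩ with h | h
        · linarith
        · linarith
      subst hik
      refine hz i hi ⟨by omega, ?_, by omega⟩
      have hbz : ((B₀ + 2 * q : ℕ) : ℝ) ≤ b1 := by exact_mod_cast p3
      have h1 : th * ((B₀ + 2 * q : ℕ) : ℝ) ≤ th * b1 := mul_le_mul_of_nonneg_left hbz hthp.le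
      push_cast at h1 ⊢
      linarith
    have hcount : ∀ x y : ℕ, B₀ + q ≤ y → y + m ≤ B₀ + 3 * q →
        (∀ a b, A₀ + 2 * q < a + m → a ≤ A₀ + 2 * q → y ≤ b → b < y + m →
          ∀ i ∈ F.big th (δ * q), ¬ F.Cov th i a b) →
        m * m ≤ (Unc3 F (δ * q) (A₀ + q) (A₀ + 3 * q) (B₀ + q) (B₀ + 3 * q)).card := by
      intro _ y hy1 hy2 hunc
      have hsub : (Ioc (A₀ + 2 * q - m) (A₀ + 2 * q)) ×ˢ (Ico y (y + m)) ⊆
          Unc3 F (δ * q) (A₀ + q) (A₀ + 3 * q) (B₀ + q) (B₀ + 3 * q) := by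
        intro p hp
        rw [mem_product, mem_Ioc, mem_Ico] at hp
        obtain ⟨⟨h1, h2⟩, h3, h4⟩ := hp
        unfold Unc3
        rw [mem_filter, mem_product, mem_Ioc, mem_Ico]
        exact ⟨⟨⟨by omega, by omega⟩, by omega, by omega⟩,
          hunc p.1 p.2 (by omega) h2 h3 h4⟩
      have hc := card_le_card hsub
      rw [card_product, Nat.card_Ioc, Nat.card_Ico] at hc
      have e1 : A₀ + 2 * q - (A₀ + 2 * q - m) = m := by omega
      have e2 : y + m - y = m := by omega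
      rw [e1, e2] at hc
      exact hc
    have hmm : m * m ≤ (Unc3 F (δ * q) (A₀ + q) (A₀ + 3 * q) (B₀ + q) (B₀ + 3 * q)).card := by
      rcases key with h | h
      · exact hcount 0 (B₀ + 2 * q) (by omega) (by omega) h
      · refine hcount 0 (B₀ + 2 * q - m) (by omega) (by omega) ?_
        intro a b h1 h2 h3 h4
        exact h a b h1 h2 (by omega) (by omega)
    have h1 : (m : ℝ) * m ≤
        ((Unc3 F (δ * q) (A₀ + q) (A₀ + 3 * q) (B₀ + q) (B₀ + 3 * q)).card : ℝ) := by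
      exact_mod_cast hmm
    have h2 : (q : ℝ) ≤ 10 * m + 10 := by exact_mod_cast hm2.le
    have h3 : (1000 : ℝ) ≤ q := by
      have : 1000 ≤ q := by omega
      exact_mod_cast this
    have h4 : (q : ℝ) ≤ 11 * m := by linarith
    have h5 : (q : ℝ) * q ≤ (11 * m) * (11 * m) := mul_self_le_mul_self (by linarith) h4
    have h6 : (0 : ℝ) ≤ (m : ℝ) * m := mul_self_nonneg _
    rw [sq]
    linarith

/-- The number of uncovered cells around an uncovered cell. -/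
theorem localGeo (hU : UncBase) (hT : TriCount) (hG : GeoC) (ε : ℝ) (hε : 0 < ε) :
    ∃ w : ℕ, 0 < w ∧ ∃ c : ℝ, 0 < c ∧ ∃ q₀ : ℕ, ∀ q : ℕ, q₀ ≤ q → ∀ (F : Faces ℚ) (A₀ B₀ : ℕ),
      Ari F → Dis F → 2 * q ≤ A₀ → (∀ i ∈ F.I, ¬ F.Cov th i (A₀ + 2 * q) (B₀ + 2 * q)) →
      c * (q : ℝ) ^ (2 - ε) ≤ ((Unc3 F w A₀ (A₀ + 4 * q) B₀ (B₀ + 4 * q)).card : ℝ) := by
  obtain ⟨δ, hδ, h⟩ := hG ε hε
  obtain ⟨w, hw, c, hc, q₁, h1⟩ := h (1 / 2000) (by norm_num)
  obtain ⟨q₂, h2⟩ := topLocal hU hT δ hδ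
  refine ⟨w, hw, c, hc, q₁ + q₂, ?_⟩
  intro q hq F A₀ B₀ hAri hDis hA hz
  refine h1 q (by omega) F A₀ B₀ hAri hDis hA ?_
  exact h2 q (by omega) F A₀ B₀ hAri hDis hA (fun i hi => hz i (mem_filter.1 hi).1)

end MPcc0Tri3
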