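import Pool.Agent.Lib.MP_cc0c1a_nt.Tri3.Path
import Pool.Agent.Lib.MP_cc0c1a_nt.Tri3.Hull

set_option autoImplicit false

/-!
# MP_cc0c1a_nt / Tri3: the points of the array are not extremely close to torsion points (helper60)
-/

open Finset
open scoped Classical
open Pool.Agent.Results.MP_cc0c1a_nt.SyndeticPositions (T Y nsmul_coe fin_eq_dig Config IsFin
  Shows F dig)

namespace MPcc0Tri3

open MPcc0Tri MPcc0Tri2

/-- Cells near a cell which is very close to an integer are close to an integer. -/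
lemma sm_of_tiny {g0 a b i k : ℕ} (hi : i ≤ a) {m : ℤ}
    (h : |(g0 : ℝ) * 3 ^ b / 2 ^ a - m| * (2 ^ i * 3 ^ k) < 1 / 8) : Sm g0 (a - i) (b + k) := by
  refine ⟨m * (2 ^ i * 3 ^ k), ?_⟩
  have e : (2 : ℝ) ^ a = 2 ^ (a - i) * 2 ^ i := by rw [← pow_add]; congr 1; omega
  have h1 : (g0 : ℝ) * 3 ^ (b + k) / 2 ^ (a - i) - ((m * (2 ^ i * 3 ^ k) : ℤ) : ℝ) =
      ((g0 : ℝ) * 3 ^ b / 2 ^ a - m) * (2 ^ i * 3 ^ k) := by
    rw [e, pow_add]
    push_cast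
    have h2 : (2 : ℝ) ^ (a - i) ≠ 0 := by positivity
    have h3 : (2 : ℝ) ^ i ≠ 0 := by positivity
    field_simp
  rw [h1, abs_mul, abs_of_pos (by positivity : (0 : ℝ) < 2 ^ i * 3 ^ k)]
  exact h

/-- The lower bound in the coordinates of the cells. -/
lemma lower_cells (hM : Mahler) (g0 : ℕ) (hg0 : Odd g0) (δ : ℝ) (hδ : 0 < δ) (hδ1 : δ ≤ 1) :
    ∃ N₁ : ℕ, ∀ n : ℕ, N₁ ≤ n → ∀ a b : ℕ, 0 < a → a ≤ 2 * n → b ≤ 2 * n →
      (2 : ℝ) ^ a ≤ 8 * (g0 * 3 ^ b) → ∀ m : ℤ,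
      (2 : ℝ) ^ (-(δ * n)) ≤ |(g0 : ℝ) * 3 ^ b / 2 ^ a - m| := by
  obtain ⟨NM, hNM⟩ := hM g0 hg0.pos (δ / 400) (by positivity)
  obtain ⟨N2, hN2⟩ := exists_nat_gt (200 / δ)
  refine ⟨NM + N2 + 1, ?_⟩
  intro n hn a b ha ha2 hb2 hval m₀
  by_contra hcon
  push Not at hcon
  have hthl := th_lt
  have hthp := th_pos
  have hnr : 200 < δ * n := by
    have h1 : (N2 : ℝ) ≤ n := by exact_mod_cast (by omega : N2 ≤ n)
    rw [div_lt_iff₀ hδ] at hN2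
    nlinarith
  -- the denominator is large
  have ha3 : δ * n < a := by
    have h2a : (0 : ℝ) < 2 ^ a := by positivity
    have h1 : (1 : ℝ) / 2 ^ a ≤ |(g0 : ℝ) * 3 ^ b / 2 ^ a - m₀| := by
      have e1 : (g0 : ℝ) * 3 ^ b / 2 ^ a - m₀ = (((g0 * 3 ^ b : ℕ) : ℤ) - m₀ * 2 ^ a : ℤ) / 2 ^ a := by
        push_cast
        field_simp
      rw [e1, abs_div, abs_of_pos h2a]
      apply div_le_div_of_nonneg_right _ h2a.le
      have h3 : (((g0 * 3 ^ b : ℕ) : ℤ) - m₀ * 2 ^ a : ℤ) ≠ 0 := by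
        intro h4
        have hodd : Odd (g0 * 3 ^ b) := hg0.mul (Odd.pow (by decide))
        have h5 : ((g0 * 3 ^ b : ℕ) : ℤ) = m₀ * 2 ^ a := by linarith
        have h6 : Even ((g0 * 3 ^ b : ℕ) : ℤ) := by
          rw [h5]
          apply Even.mul_left
          exact Even.pow_of_ne_zero (by decide) (by omega)
        have h7 : Even (g0 * 3 ^ b) := by exact_mod_cast h6
        exact (Nat.not_even_iff_odd.2 hodd) h7
      have h8 : (1 : ℤ) ≤ |((g0 * 3 ^ b : ℕ) : ℤ) - m₀ * 2 ^ a| := Int.one_le_abs h3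
      calc (1 : ℝ) ≤ ((|((g0 * 3 ^ b : ℕ) : ℤ) - m₀ * 2 ^ a| : ℤ) : ℝ) := by exact_mod_cast h8
        _ = _ := by rw [Int.cast_abs]
    have h9 : (2 : ℝ) ^ (-(a : ℝ)) < 2 ^ (-(δ * n)) := by
      rw [Real.rpow_neg (by norm_num), Real.rpow_natCast, ← one_div]
      exact h1.trans_lt hcon
    have := (Real.rpow_lt_rpow_left_iff (by norm_num : (1 : ℝ) < 2)).1 h9
    linarith
  obtain ⟨q, hq⟩ : ∃ q : ℕ, q = ⌊δ * n / 4⌋₊ := ⟨_, rfl⟩
  have hq1 : (q : ℝ) ≤ δ * n / 4 := by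
    rw [hq]; exact Nat.floor_le (by positivity)
  have hq2 : δ * n / 4 < q + 1 := by
    rw [hq]; exact Nat.lt_floor_add_one _
  have hq49 : 49 ≤ q := by
    have : (49 : ℝ) < q + 1 := by linarith
    have : (49 : ℕ) < q + 1 := by exact_mod_cast this
    omega
  have hqa : 4 * q < a := by
    have : ((4 * q : ℕ) : ℝ) < a := by push_cast; linarith
    exact_mod_cast this
  have hqn : 4 * q ≤ n := by
    have : ((4 * q : ℕ) : ℝ) ≤ n := by
      push_cast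
      have : δ * n ≤ 1 * n := by gcongr
      linarith
    exact_mod_cast this
  obtain ⟨w', hw'⟩ : ∃ w' : ℕ, w' = q / 10 := ⟨_, rfl⟩
  obtain ⟨V, hV⟩ : ∃ V : ℕ, V = 4 * n := ⟨_, rfl⟩
  obtain ⟨Fc, hArr, hcov⟩ := u4 g0 hg0 w' V V V (by omega)
  -- the cell `(a - q, b + q)` is covered by a large face
  have hc : ∃ i ∈ Fc.big th w', Fc.Cov th i (V + (a - q)) (b + q) := by
    by_contra hno
    push Not at hno
    have hmem : (V + (a - q), b + q) ∈ Unc2 Fc w' V V 0 V := by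
      unfold Unc2
      rw [mem_filter, mem_product, mem_Ioc, mem_Ico]
      refine ⟨⟨⟨?_, ?_⟩, Nat.zero_le _, ?_⟩, hno⟩
      · simp only; omega
      · simp only; omega
      · simp only; omega
    obtain ⟨α, k0, k1, k2, k3⟩ := hcov _ hmem
    simp only at k1 k2 k3
    have k4 : V + α ≤ V + (a - q) + (2 * w' + 1) := by
      have h1 : th * w' ≤ 2 * w' := by gcongr
      have : ((V + α : ℕ) : ℝ) ≤ ((V + (a - q) + (2 * w' + 1) : ℕ) : ℝ) := by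
        push_cast
        push_cast at k2
        linarith
      exact_mod_cast this
    obtain ⟨i, hi⟩ : ∃ i : ℕ, α = a - i ∧ i ≤ q ∧ i ≤ a := ⟨a - α, by omega, by omega, by omega⟩
    obtain ⟨hi1, hi2, hi3⟩ := hi
    apply k3
    rw [hi1]
    apply sm_of_tiny hi3 (m := m₀)
    have h1 : (2 : ℝ) ^ i * 3 ^ q ≤ 2 ^ (3 * q) := by
      have e1 : (2 : ℝ) ^ (3 * q) = 2 ^ q * 4 ^ q := by
        rw [show (4 : ℝ) = 2 ^ 2 by norm_num, ← pow_mul, ← pow_add]; congr 1; ring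
      rw [e1]
      gcongr
      · norm_num
      · norm_num
    have h2 : (2 : ℝ) ^ (3 * q) ≤ 2 ^ (3 * (δ * n / 4)) := by
      rw [← Real.rpow_natCast]
      apply Real.rpow_le_rpow_of_exponent_le (by norm_num)
      push_cast
      linarith
    have h3 : |(g0 : ℝ) * 3 ^ b / 2 ^ a - m₀| * (2 ^ i * 3 ^ q) ≤
        2 ^ (-(δ * n)) * 2 ^ (3 * (δ * n / 4)) := by
      apply mul_le_mul hcon.le (h1.trans h2) (by positivity) (by positivity)
    refine h3.trans_lt ?_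
    rw [← Real.rpow_add (by norm_num)]
    have h4 : (1 / 8 : ℝ) = 2 ^ (-3 : ℝ) := by
      rw [Real.rpow_neg (by norm_num)]
      norm_num
    rw [h4]
    apply Real.rpow_lt_rpow_of_exponent_lt (by norm_num)
    linarith
  obtain ⟨i, hi, hic⟩ := hc
  obtain ⟨hiI, hil⟩ := mem_filter.1 hi
  have hiG := ne_G hArr hic (by omega)
  have hi0 : i ≠ 0 := by
    apply ne_zero_of_value hg0.pos hArr hiI hic
    have e1 : (2 : ℝ) ^ (V + (a - q)) ≤ 2 ^ V * 2 ^ a := by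
      rw [← pow_add]
      exact pow_le_pow_right₀ (by norm_num) (by omega)
    have e2 : (3 : ℝ) ^ b ≤ 3 ^ (b + q) := pow_le_pow_right₀ (by norm_num) (by omega)
    have e3 : (0 : ℝ) < 2 ^ V := by positivity
    have e4 : (2 : ℝ) ^ V * 2 ^ a ≤ 2 ^ V * (8 * (g0 * 3 ^ (b + q))) := by
      gcongr
      refine hval.trans ?_
      gcongr
    push_cast
    linarith
  have hlam := hNM V (by omega) Fc V V hArr le_rfl le_rfl i hiI hi0 hiG _ _ (by omega) hic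
  have hVr : (V : ℝ) = 4 * n := by rw [hV]; push_cast; ring
  rw [hVr] at hlam
  have hw'r : (q : ℝ) ≤ 10 * w' + 9 := by exact_mod_cast (by omega : q ≤ 10 * w' + 9)
  linarith

/-- The lower bound for the points of the array inside the hull of the support. -/
theorem lower_Y (hM : Mahler) {A r v1 g1 : ℕ} (hA : A = 2 ^ v1 * g1) (hg1 : Odd g1) {Q : ℕ}
    (hQ : 0 < Q) {δ : ℝ} (hδ : 0 < δ) (hδ1 : δ ≤ 1) : ∃ N₁ : ℕ, ∀ n : ℕ, N₁ ≤ n → ∀ j : ℤ,
      1 ≤ (6 : ℝ) ^ j * ((A : ℝ) / 6 ^ r * (3 / 2) ^ n) → (Q : ℤ) ≤ n - j + 1 + r - v1 →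
      (2 : ℝ) ^ (-(δ * n)) ≤ ‖Q • Y ((A : ℝ) / 6 ^ r) n j‖ := by
  obtain ⟨u, g0, hg0, hQu⟩ := Nat.exists_eq_two_pow_mul_odd (n := Q * g1)
    (Nat.mul_ne_zero hQ.ne' hg1.pos.ne')
  have huQ : u < Q := by
    have h1 : 2 ^ u ∣ Q * g1 := ⟨g0, hQu⟩
    have h2 : Nat.Coprime (2 ^ u) g1 := Nat.Coprime.pow_left _ (Nat.coprime_two_left.2 hg1)
    have h3 := Nat.le_of_dvd hQ (h2.dvd_of_dvd_mul_right h1)
    exact lt_of_lt_of_le Nat.lt_two_pow_self h3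
  have hQA : Q * A = 2 ^ (v1 + u) * g0 := by
    rw [hA, pow_add, mul_assoc, ← hQu]
    ring
  obtain ⟨NL, hNL⟩ := left_bound A
  obtain ⟨NC, hNC⟩ := lower_cells hM g0 hg0 δ hδ hδ1
  refine ⟨NL + NC + 2 * (r + 2), ?_⟩
  intro n hn j hl hr
  have h1 := hNL n (by omega) r j hl
  obtain ⟨a, ha⟩ : ∃ a : ℕ, (a : ℤ) = n - j + 1 + r - (v1 + u : ℕ) :=
    ⟨(n - j + 1 + r - (v1 + u : ℕ) : ℤ).toNat, Int.toNat_of_nonneg (by push_cast; omega)⟩
  obtain ⟨b, hb⟩ : ∃ b : ℕ, (b : ℤ) = n + j - 1 - r :=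
    ⟨(n + j - 1 - r : ℤ).toNat, Int.toNat_of_nonneg (by omega)⟩
  have hcell := cell_eq (r := r) (v := v1 + u) (b0 := 0) (a := a) (b := b) hQA (n := n) (j := j)
    (by push_cast at ha; omega) (by push_cast at ha ⊢; omega)
  rw [hcell, UnitAddCircle.norm_eq]
  have hv := value_bound (Q := Q) (A := A) (r := r) (v := v1 + u) (g0 := g0) (n := n) (a := a)
    (b := b) (j := j) hQA ha hb hl
  have h2 : (2 : ℝ) ^ a ≤ 8 * (g0 * 3 ^ b) := by
    have hQ1 : (1 : ℝ) ≤ Q := by exact_mod_cast hQ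
    have h5 : (0 : ℝ) < 2 ^ a := by positivity
    have h6 : (2 : ℝ) ^ a ≤ Q * 2 ^ a := le_mul_of_one_le_left h5.le hQ1
    have h7 : (0 : ℝ) ≤ g0 * 3 ^ b := by positivity
    linarith
  have h3 := hNC n (by omega) a b (by push_cast at ha; omega) (by push_cast at ha; omega)
    (by push_cast at ha; omega) h2 (round ((((g0 * 3 ^ 0 : ℕ) : ℝ) * 3 ^ b / 2 ^ a : ℝ)))
  simpa using h3

end MPcc0Tri3
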