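import Pool.Agent.Lib.MP_cc0c1a_nt.Tri.Core

set_option autoImplicit false

/-!
# MP_cc0c1a_nt / Tri3: from cells to occurrences; the hull of the support (helper60)
-/

open Finset
open scoped Classical
open Pool.Agent.Results.MP_cc0c1a_nt.SyndeticPositions (T Y Y_mul nsmul_coe Avoid UU UU_open
  UU_nonempty avoid_torsion avoid_compact arc shows_of_arc exists_code fin_eq_dig Config IsFin
  Shows F dig iter_F_dig)

namespace MPcc0Tri3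

open MPcc0Tri

/-- Near a cell which is not close to an integer every word occurs. -/
theorem occ (ℓ : ℕ) : ∃ Q C : ℕ, 0 < Q ∧ ∀ A r v g0 : ℕ, 0 < A → Q * A = 2 ^ v * g0 →
    ∀ a b : ℕ, 0 < a → C ≤ b → ¬ Sm g0 a b → ∀ w : Fin ℓ → Fin 6, ∃ m : ℕ, ∃ j : ℤ,
      |(m : ℤ) - j + 1 + r - v - a| ≤ C ∧ |(m : ℤ) + j - 1 - r - b| ≤ C ∧
        Shows (F^[m] (dig ((A : ℝ) / 6 ^ r))) j w := by
  obtain ⟨J, hJ⟩ := UU_nonempty (L := 6 ^ ℓ) (by positivity)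
  have hUo : IsOpen (UU (6 ^ ℓ) J) := UU_open _ _
  obtain ⟨Q, hQ, hQE⟩ := avoid_torsion hUo hJ
  obtain ⟨M, hM⟩ := avoid_compact hUo (ε := 1 / (16 * (Q : ℝ))) (by positivity)
  refine ⟨Q, 4 * (M + J) + 8, hQ, ?_⟩
  intro A r v g0 hA hQN a b ha hb hsm w
  have hξ : (0 : ℝ) < (A : ℝ) / 6 ^ r := by positivity
  obtain ⟨W, hWlt, hW⟩ := exists_code w
  set b0 : ℕ := v % 2 with hb0
  set g : ℕ := g0 * 3 ^ b0 with hg
  have hsm' : ¬ Sm g a (b - b0) := by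
    have e : ((g : ℕ) : ℝ) * 3 ^ (b - b0) / 2 ^ a = (g0 : ℝ) * 3 ^ b / 2 ^ a := by
      have h3 : (3 : ℝ) ^ b = 3 ^ b0 * 3 ^ (b - b0) := by
        rw [← pow_add]; congr 1; omega
      rw [hg, h3]
      push_cast
      ring
    unfold Sm
    rw [e]
    exact hsm
  obtain ⟨a1, b1, ha1, ha1', hb1, hb1', hev, hfar⟩ := parity_fix ha hsm'
  obtain ⟨k, hk⟩ := hev
  obtain ⟨n, hn⟩ : ∃ n : ℕ, 2 * n = a1 + v + b1 + b0 := ⟨(a1 + v + b1 + b0) / 2, by omega⟩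
  have hcell := cell_eq (r := r) (v := v) (b0 := b0) (a := a1) (b := b1) hQN (n := n)
    (j := 1 + r + b1 + b0 - n) hn (by omega)
  rw [← hg] at hcell
  rw [← hcell] at hfar
  obtain ⟨a2, ha2, b2, hb2, hU⟩ := hit hQ hQE hM hfar
  rw [Y_mul _ _ _ (by omega)] at hU
  obtain ⟨a3, ha3, hU'⟩ := hU W hWlt
  rw [Y_mul _ _ _ (by omega)] at hU'
  have hsh := shows_of_arc hW hWlt hξ hU'
  refine ⟨_, _, ?_, ?_, hsh⟩
  · rw [abs_le]; push_cast; omega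
  · rw [abs_le]; push_cast; omega

/-- The position `j` lies between two nonzero digits of `F^n(x)`. -/
def Inside (x : Config) (n : ℕ) (j : ℤ) : Prop :=
  (∃ i ≤ j, F^[n] x i ≠ 0) ∧ ∃ i, j ≤ i ∧ F^[n] x i ≠ 0

lemma dig_left {z : ℝ} {i : ℤ} (h : dig z i ≠ 0) : 1 ≤ (6 : ℝ) ^ i * z := by
  by_contra hcon
  push Not at hcon
  apply h
  apply Fin.ext
  unfold dig
  have h0 : ⌊(6 : ℝ) ^ i * z⌋₊ = 0 := by
    rw [Nat.floor_eq_zero]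
    exact hcon
  simp [h0]

/-- Left of the hull. -/
lemma inside_left {A r n : ℕ} {j : ℤ}
    (h : ∃ i ≤ j, F^[n] (dig ((A : ℝ) / 6 ^ r)) i ≠ 0) :
    1 ≤ (6 : ℝ) ^ j * ((A : ℝ) / 6 ^ r * (3 / 2) ^ n) := by
  obtain ⟨i, hij, hi⟩ := h
  rw [iter_F_dig] at hi
  have h1 := dig_left hi
  refine h1.trans ?_
  apply mul_le_mul_of_nonneg_right _ (by positivity)
  exact zpow_le_zpow_right₀ (by norm_num) hij

/-- The position is not too far to the left. -/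
lemma left_bound (A : ℕ) : ∃ N : ℕ, ∀ n : ℕ, N ≤ n → ∀ (r : ℕ) (j : ℤ),
    1 ≤ (6 : ℝ) ^ j * ((A : ℝ) / 6 ^ r * (3 / 2) ^ n) → -(n : ℤ) ≤ 2 * j := by
  obtain ⟨N, hN⟩ := exists_pow_lt_of_lt_one (x := 1 / ((A : ℝ) ^ 2 + 1)) (y := 3 / 8)
    (by positivity) (by norm_num)
  refine ⟨N, fun n hn r j h => ?_⟩
  by_contra hcon
  push Not at hcon
  have h1 : (6 : ℝ) ^ j * ((A : ℝ) / 6 ^ r * (3 / 2) ^ n) ≤ (6 : ℝ) ^ j * (A * (3 / 2) ^ n) := by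
    apply mul_le_mul_of_nonneg_left _ (by positivity)
    apply mul_le_mul_of_nonneg_right _ (by positivity)
    apply div_le_self (by positivity)
    exact one_le_pow₀ (by norm_num)
  have h2 : 1 ≤ ((6 : ℝ) ^ j * (A * (3 / 2) ^ n)) ^ 2 := by
    have := h.trans h1
    nlinarith
  have h3 : ((6 : ℝ) ^ j * (A * (3 / 2) ^ n)) ^ 2 = (6 : ℝ) ^ (2 * j) * (A ^ 2 * (9 / 4) ^ n) := by
    rw [mul_pow, mul_pow, ← pow_mul, mul_comm n 2, pow_mul, mul_comm (2 : ℤ) j, zpow_mul]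
    norm_num
  rw [h3] at h2
  have h4 : (6 : ℝ) ^ (2 * j) ≤ (6 : ℝ) ^ (-(n : ℤ)) :=
    zpow_le_zpow_right₀ (by norm_num) (by omega)
  have h5 : (6 : ℝ) ^ (-(n : ℤ)) * (A ^ 2 * (9 / 4) ^ n) = A ^ 2 * (3 / 8) ^ n := by
    rw [zpow_neg, zpow_natCast, ← inv_pow]
    have : (3 / 8 : ℝ) ^ n = (6⁻¹) ^ n * (9 / 4) ^ n := by rw [← mul_pow]; norm_num
    rw [this]
    ring
  have h6 : (1 : ℝ) ≤ A ^ 2 * (3 / 8) ^ n := by
    rw [← h5]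
    exact h2.trans (mul_le_mul_of_nonneg_right h4 (by positivity))
  have h7 : (3 / 8 : ℝ) ^ n ≤ (3 / 8) ^ N := pow_le_pow_of_le_one (by norm_num) (by norm_num) hn
  have h8 : (A : ℝ) ^ 2 * (3 / 8) ^ n < 1 := by
    have h9 : (3 / 8 : ℝ) ^ n < 1 / ((A : ℝ) ^ 2 + 1) := h7.trans_lt hN
    rw [lt_div_iff₀ (by positivity)] at h9
    have : (0 : ℝ) < (3 / 8) ^ n := by positivity
    nlinarith
  linarith

/-- A divisibility lemma. -/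
lemma two_pow_bound {Q A v g0 m : ℕ} (hQ : 0 < Q) (hA : 0 < A) (h : Q * A = 2 ^ v * g0)
    (hm : ¬ 2 ^ m ∣ A) : v < m + Q := by
  by_contra hcon
  push Not at hcon
  apply hm
  have h1 : 2 ^ (m + Q) ∣ Q * A := by
    rw [h]
    exact (pow_dvd_pow 2 hcon).mul_right _
  have h2 : m + Q ≤ padicValNat 2 (Q * A) :=
    (padicValNat_dvd_iff_le (by positivity)).1 h1
  rw [padicValNat.mul (by omega) (by omega)] at h2
  have h3 : padicValNat 2 Q < Q := by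
    have h4 : 2 ^ padicValNat 2 Q ≤ Q := Nat.le_of_dvd hQ pow_padicValNat_dvd
    exact Nat.lt_of_lt_of_le Nat.lt_two_pow_self h4
  exact (padicValNat_dvd_iff_le (by omega)).2 (by omega)

/-- Right of the hull. -/
lemma inside_right {Q A r v g0 n : ℕ} {j : ℤ} (hQ : 0 < Q) (hA : 0 < A)
    (hQN : Q * A = 2 ^ v * g0) (hj : 0 ≤ (n : ℤ) + j - 1 - r)
    (h : ∃ i, j ≤ i ∧ F^[n] (dig ((A : ℝ) / 6 ^ r)) i ≠ 0) :
    1 - (Q : ℤ) ≤ (n : ℤ) - j + 1 + r - v := by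
  obtain ⟨i, hij, hi⟩ := h
  rw [iter_F_dig] at hi
  by_contra hcon
  push Not at hcon
  apply hi
  -- the number `z 6^(i-1)` is an integer
  obtain ⟨t, ht⟩ : ∃ t : ℕ, (t : ℤ) = n + i - 1 - r :=
    ⟨(n + i - 1 - r : ℤ).toNat, Int.toNat_of_nonneg (by omega)⟩
  have key : ∃ K : ℕ, (6 : ℝ) ^ (i - 1) * ((A : ℝ) / 6 ^ r * (3 / 2) ^ n) = K := by
    have e : (6 : ℝ) ^ (i - 1) * ((A : ℝ) / 6 ^ r * (3 / 2) ^ n) =
        A * 3 ^ t * (2 : ℝ) ^ (-((n : ℤ) - i + 1 + r)) := by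
      have h6 : (6 : ℝ) ^ (i - 1) = 3 ^ (i - 1) * 2 ^ (i - 1) := by rw [← mul_zpow]; norm_num
      have h6' : (6 : ℝ) ^ r = 3 ^ (r : ℤ) * 2 ^ (r : ℤ) := by
        rw [zpow_natCast, zpow_natCast, ← mul_pow]; norm_num
      have h32 : (3 / 2 : ℝ) ^ n = 3 ^ (n : ℤ) / 2 ^ (n : ℤ) := by
        rw [zpow_natCast, zpow_natCast, div_pow]
      have ht' : (3 : ℝ) ^ t = 3 ^ (n : ℤ) * 3 ^ (i - 1) / 3 ^ (r : ℤ) := by
        rw [← zpow_natCast (3 : ℝ) t, ht, ← zpow_add₀ (by norm_num : (3 : ℝ) ≠ 0),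
          ← zpow_sub₀ (by norm_num : (3 : ℝ) ≠ 0)]
        congr 1
        ring
      have hm' : (2 : ℝ) ^ (-((n : ℤ) - i + 1 + r)) = 2 ^ (i - 1) / (2 ^ (n : ℤ) * 2 ^ (r : ℤ)) := by
        rw [← zpow_add₀ (by norm_num : (2 : ℝ) ≠ 0), ← zpow_sub₀ (by norm_num : (2 : ℝ) ≠ 0)]
        congr 1
        ring
      rw [ht', hm', h6, h6', h32]
      have a1 : (3 : ℝ) ^ (r : ℤ) ≠ 0 := by positivity
      have a2 : (2 : ℝ) ^ (r : ℤ) ≠ 0 := by positivity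
      have a3 : (2 : ℝ) ^ (n : ℤ) ≠ 0 := by positivity
      have a4 : (2 : ℝ) ^ (i - 1) ≠ 0 := by positivity
      field_simp
    rcases le_or_gt ((n : ℤ) - i + 1 + r) 0 with h0 | h0
    · obtain ⟨u, hu⟩ : ∃ u : ℕ, (u : ℤ) = -((n : ℤ) - i + 1 + r) :=
        ⟨(-((n : ℤ) - i + 1 + r)).toNat, Int.toNat_of_nonneg (by omega)⟩
      refine ⟨A * 3 ^ t * 2 ^ u, ?_⟩
      rw [e, ← hu, zpow_natCast]
      push_cast
      ring
    · obtain ⟨m, hm⟩ : ∃ m : ℕ, (m : ℤ) = (n : ℤ) - i + 1 + r :=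
        ⟨((n : ℤ) - i + 1 + r).toNat, Int.toNat_of_nonneg (by omega)⟩
      have hdvd : 2 ^ m ∣ A := by
        by_contra hnd
        have := two_pow_bound hQ hA hQN hnd
        omega
      obtain ⟨A', hA'⟩ := hdvd
      refine ⟨A' * 3 ^ t, ?_⟩
      rw [e, ← hm, zpow_neg, zpow_natCast, hA']
      push_cast
      have : (2 : ℝ) ^ m ≠ 0 := by positivity
      field_simp
  obtain ⟨K, hK⟩ := key
  apply Fin.ext
  unfold dig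
  have h6 : (6 : ℝ) ^ i * ((A : ℝ) / 6 ^ r * (3 / 2) ^ n) = ((6 * K : ℕ) : ℝ) := by
    have : (6 : ℝ) ^ i = 6 * 6 ^ (i - 1) := by
      rw [zpow_sub_one₀ (by norm_num : (6 : ℝ) ≠ 0)]
      field_simp
    rw [this, mul_assoc, hK]
    push_cast
    ring
  simp only [h6, Nat.floor_natCast]
  simp

/-- The value of a cell inside the hull is not small. -/
lemma value_bound {Q A r v g0 n a b : ℕ} {j : ℤ} (hQN : Q * A = 2 ^ v * g0)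
    (ha : (a : ℤ) = n - j + 1 + r - v) (hb : (b : ℤ) = n + j - 1 - r)
    (h : 1 ≤ (6 : ℝ) ^ j * ((A : ℝ) / 6 ^ r * (3 / 2) ^ n)) :
    (Q : ℝ) * 2 ^ a ≤ 6 * (g0 * 3 ^ b) := by
  have h6 : (6 : ℝ) ^ j = 3 ^ j * 2 ^ j := by rw [← mul_zpow]; norm_num
  have h6' : (6 : ℝ) ^ r = 3 ^ (r : ℤ) * 2 ^ (r : ℤ) := by
    rw [zpow_natCast, zpow_natCast, ← mul_pow]; norm_num
  have h32 : (3 / 2 : ℝ) ^ n = 3 ^ (n : ℤ) / 2 ^ (n : ℤ) := by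
    rw [zpow_natCast, zpow_natCast, div_pow]
  have hb' : (3 : ℝ) ^ b = 3 ^ (n : ℤ) * 3 ^ j / (3 * 3 ^ (r : ℤ)) := by
    rw [← zpow_natCast (3 : ℝ) b, hb, ← zpow_add₀ (by norm_num : (3 : ℝ) ≠ 0)]
    have : (3 : ℝ) * 3 ^ (r : ℤ) = 3 ^ ((r : ℤ) + 1) := by
      rw [zpow_add_one₀ (by norm_num : (3 : ℝ) ≠ 0)]; ring
    rw [this, ← zpow_sub₀ (by norm_num : (3 : ℝ) ≠ 0)]
    congr 1
    ring
  have ha' : (2 : ℝ) ^ v * 2 ^ a = 2 * 2 ^ (n : ℤ) * 2 ^ (r : ℤ) / 2 ^ j := by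
    rw [← pow_add, ← zpow_natCast (2 : ℝ) (v + a)]
    have : (2 : ℝ) * 2 ^ (n : ℤ) * 2 ^ (r : ℤ) = 2 ^ ((n : ℤ) + 1 + r) := by
      rw [zpow_add₀ (by norm_num : (2 : ℝ) ≠ 0), zpow_add_one₀ (by norm_num : (2 : ℝ) ≠ 0)]; ring
    rw [this, ← zpow_sub₀ (by norm_num : (2 : ℝ) ≠ 0)]
    congr 1
    push_cast
    rw [ha]
    ring
  have hQN' : (Q : ℝ) * A = 2 ^ v * g0 := by exact_mod_cast hQN
  have a1 : (0 : ℝ) < 3 ^ (r : ℤ) := by positivity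
  have a2 : (0 : ℝ) < 2 ^ (r : ℤ) := by positivity
  have a3 : (0 : ℝ) < 2 ^ (n : ℤ) := by positivity
  have a4 : (0 : ℝ) < 2 ^ j := by positivity
  have a5 : (0 : ℝ) < 3 ^ j := by positivity
  have a6 : (0 : ℝ) < 3 ^ (n : ℤ) := by positivity
  have a7 : (0 : ℝ) < 2 ^ v := by positivity
  rw [h6, h6', h32] at h
  have e1 : (2 : ℝ) ^ v * (6 * (g0 * 3 ^ b)) =
      (2 ^ v * (Q * 2 ^ a)) * (3 ^ j * 2 ^ j * ((A : ℝ) / (3 ^ (r : ℤ) * 2 ^ (r : ℤ)) *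
        (3 ^ (n : ℤ) / 2 ^ (n : ℤ)))) := by
    have e2 : (2 : ℝ) ^ v * (Q * 2 ^ a) = Q * (2 * 2 ^ (n : ℤ) * 2 ^ (r : ℤ) / 2 ^ j) := by
      rw [← ha']; ring
    rw [e2, show (2 : ℝ) ^ v * (6 * (g0 * 3 ^ b)) = 6 * ((2 ^ v * g0) * 3 ^ b) by ring, ← hQN', hb']
    field_simp
    ring
  have h0 : (0 : ℝ) ≤ 2 ^ v * (Q * 2 ^ a) := by positivity
  have e3 : (2 : ℝ) ^ v * (Q * 2 ^ a) ≤ 2 ^ v * (6 * (g0 * 3 ^ b)) := by
    rw [e1]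
    exact le_mul_of_one_le_right h0 h
  exact le_of_mul_le_mul_left e3 a7

end MPcc0Tri3
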