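import Pool.Agent.Lib.MP_cc0c1a_nt.Tri3.SpecU

/-!
# MP_cc0c1a_nt / Tri3: the faces of the array, with more information (variant of Tri2/T11 by helper55)
-/

set_option autoImplicit false

namespace MPcc0Tri3

open Finset MPcc0Tri MPcc0Tri2

private theorem u4_sm (g V a b : ℕ) (h : V ≤ a) : Sm (g * 2 ^ V) a b ↔ Sm g (a - V) b := by
  unfold Sm
  have h1 : ((g * 2 ^ V : ℕ) : ℝ) * 3 ^ b / 2 ^ a = (g : ℝ) * 3 ^ b / 2 ^ (a - V) := by
    have h2 : (2 : ℝ) ^ a = 2 ^ V * 2 ^ (a - V) := by rw [← pow_add]; congr 1; omega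
    rw [h2]
    push_cast
    have h3 : (2 : ℝ) ^ V ≠ 0 := by positivity
    have h4 : (2 : ℝ) ^ (a - V) ≠ 0 := by positivity
    field_simp
  rw [h1]

private theorem u4_int (g V a b : ℕ) (hg : Odd g) (h : IntAt (((g * 2 ^ V : ℕ) : ℚ)) a b) :
    a ≤ V := by
  by_contra hcon
  push Not at hcon
  obtain ⟨k, hk⟩ := h
  have h1 : (g : ℚ) * 3 ^ b = k * 2 ^ (a - V) := by
    have h2 : (2 : ℚ) ^ a = 2 ^ V * 2 ^ (a - V) := by rw [← pow_add]; congr 1; omega
    rw [h2] at hk
    push_cast at hk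
    have h3 : (2 : ℚ) ^ V ≠ 0 := by positivity
    apply mul_left_cancel₀ h3
    linarith
  have hodd : Odd (g * 3 ^ b) := hg.mul (Odd.pow (by decide))
  have h4 : ((g * 3 ^ b : ℕ) : ℤ) = k * 2 ^ (a - V) := by
    have : (((g * 3 ^ b : ℕ) : ℤ) : ℚ) = ((k * 2 ^ (a - V) : ℤ) : ℚ) := by
      push_cast
      exact h1
    exact_mod_cast this
  have h5 : Even ((g * 3 ^ b : ℕ) : ℤ) := by
    rw [h4]
    apply Even.mul_left
    exact Even.pow_of_ne_zero (by decide) (by omega)
  have h6 : Even (g * 3 ^ b) := by exact_mod_cast h5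
  exact (Nat.not_even_iff_odd.2 hodd) h6

private theorem u4_int' (g V a b : ℕ) (h : a ≤ V) : IntAt (((g * 2 ^ V : ℕ) : ℚ)) a b := by
  refine ⟨g * 3 ^ b * 2 ^ (V - a), ?_⟩
  have h2 : (2 : ℚ) ^ V = 2 ^ (V - a) * 2 ^ a := by rw [← pow_add]; congr 1; omega
  push_cast
  rw [h2]
  ring

theorem u4 (g : ℕ) (hg : Odd g) (w V A H : ℕ) (hw : 0 < w) : ∃ F : Faces ℚ, Arr F g V H ∧
    ∀ p ∈ Unc2 F w V A 0 H, ∃ a' : ℕ, 0 < a' ∧ p.1 ≤ V + a' ∧
      ((V + a' : ℕ) : ℝ) ≤ p.1 + th * w + 1 ∧ ¬ Sm g a' p.2 := by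
  classical
  have hwr : (0 : ℝ) < w := by exact_mod_cast hw
  have hg0 : 0 < g := hg.pos
  set Gn : ℕ := g * 2 ^ V with hGn
  set G : ℚ := (Gn : ℚ) with hG
  have hGn0 : 0 < Gn := by positivity
  have hGr : (1 : ℝ) ≤ Gn := by exact_mod_cast hGn0
  set cap : ℕ := ⌈Real.logb 2 (Gn * 8) + th * w⌉₊ + (V + A) with hcap
  have hdata : ∀ γ : ℚ, ∃ s L : ℕ, (∃ b, IntAt γ 0 b) →
      ((∀ a b, s ≤ b → a ≤ L → IntAt γ a b) ∧
      (∀ a b, IntAt γ a b → s ≤ b ∧ (γ ≠ 0 → a ≤ L)) ∧ (γ = 0 → L = cap)) := by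
    intro γ
    by_cases h : ∃ b, IntAt γ 0 b
    · obtain ⟨s, L, h1⟩ := exists_data cap γ h
      exact ⟨s, L, fun _ => h1⟩
    · exact ⟨0, 0, fun h' => absurd h' h⟩
  choose s L hsL using hdata
  set gam : ℕ × ℕ → ℚ := fun p => (round ((Gn : ℝ) * 3 ^ p.2 / 2 ^ p.1) : ℤ) * 2 ^ p.1 / 3 ^ p.2
    with hgam
  have hgamInt : ∀ p, gam p * 3 ^ p.2 = (round ((Gn : ℝ) * 3 ^ p.2 / 2 ^ p.1) : ℤ) * 2 ^ p.1 := by
    intro p
    simp only [hgam]
    have : (3 : ℚ) ^ p.2 ≠ 0 := by positivity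
    field_simp
  set reg : Finset (ℕ × ℕ) := (Ioc V (V + A)) ×ˢ (range H) with hreg
  set F : Faces ℚ := ⟨insert G ((reg.filter (fun p => Sm Gn p.1 p.2)).image gam),
    fun γ => if γ = G then V else L γ, fun γ => if γ = G then 0 else s γ,
    fun γ => if γ = G then -(th * H) - 1 else Real.logb 2 (|(Gn : ℝ) - γ| * 8)⟩ with hF
  have hLG : F.L G = V := by simp only [hF, if_true]
  have hsG : F.s G = 0 := by simp only [hF, if_true]
  have hρG : F.ρ G = -(th * H) - 1 := by simp only [hF, if_true]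
  have hL' : ∀ γ, γ ≠ G → F.L γ = L γ := fun γ h => by simp only [hF, if_neg h]
  have hs' : ∀ γ, γ ≠ G → F.s γ = s γ := fun γ h => by simp only [hF, if_neg h]
  have hρ' : ∀ γ, γ ≠ G → F.ρ γ = Real.logb 2 (|(Gn : ℝ) - γ| * 8) :=
    fun γ h => by simp only [hF, if_neg h]
  have hgamne : ∀ p : ℕ × ℕ, V < p.1 → gam p ≠ G := by
    intro p hp hgg
    have hInt : IntAt (gam p) p.1 p.2 := ⟨_, hgamInt p⟩
    rw [hgg, hG, hGn] at hInt
    have := u4_int g V p.1 p.2 hg hInt
    omega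
  have hFI : ∀ γ ∈ F.I, γ ≠ G → ∃ b, IntAt γ 0 b := by
    intro γ hγ hne
    simp only [hF, mem_insert, mem_image, mem_filter] at hγ
    rcases hγ with hγ | ⟨p, ⟨hp, hsm⟩, rfl⟩
    · exact absurd hγ hne
    · have hInt : IntAt (gam p) p.1 p.2 := ⟨_, hgamInt p⟩
      exact ⟨p.2, hInt.mono (Nat.zero_le _) le_rfl⟩
  have hpos : ∀ γ : ℚ, γ ≠ G → 0 < |(Gn : ℝ) - γ| * 8 := by
    intro γ hγ
    have : (Gn : ℝ) - γ ≠ 0 := by
      rw [sub_ne_zero]
      intro h
      apply hγ
      rw [hG]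
      exact_mod_cast h.symm
    positivity
  -- two integral close cells agree
  have huniq : ∀ γ γ' : ℚ, ∀ a b : ℕ, IntAt γ a b → IntAt γ' a b →
      |(Gn : ℝ) - γ| * 8 * 3 ^ b < 2 ^ a → |(Gn : ℝ) - γ'| * 8 * 3 ^ b < 2 ^ a → γ = γ' := by
    rintro γ γ' a b ⟨k, hk⟩ ⟨k', hk'⟩ h h'
    rw [← close_iff hk] at h
    rw [← close_iff hk'] at h'
    have h1 : |((k - k' : ℤ) : ℝ)| < 1 := by
      push_cast
      have : (k : ℝ) - k' = ((Gn : ℝ) * 3 ^ b / 2 ^ a - k') -
        ((Gn : ℝ) * 3 ^ b / 2 ^ a - k) := by ring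
      rw [this]
      refine lt_of_le_of_lt (abs_sub _ _) ?_
      linarith
    have h2 : k = k' := by
      have h3 : |k - k'| < 1 := by exact_mod_cast h1
      rw [Int.abs_lt_one_iff] at h3
      omega
    rw [h2, ← hk'] at hk
    exact mul_right_cancel₀ (by positivity) hk
  have hrho : ∀ γ, γ ≠ G → ∀ a b : ℕ,
      (F.ρ γ + th * b < a ↔ |(Gn : ℝ) - γ| * 8 * 3 ^ b < 2 ^ a) := by
    intro γ hγ a b
    rw [hρ' γ hγ]
    exact logb_iff (hpos γ hγ) a b
  have hrpow : ∀ γ, γ ≠ G → (2 : ℝ) ^ (F.ρ γ) = |(Gn : ℝ) - γ| * 8 := by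
    intro γ hγ
    rw [hρ' γ hγ]
    exact Real.rpow_logb (by norm_num) (by norm_num) (hpos γ hγ)
  refine ⟨F, ⟨⟨⟨?_, ?_⟩, ?_, ?_, hLG, hsG, ?_⟩, ?_, ?_⟩, ?_⟩
  · -- integrality
    intro i hi
    by_cases h : i = G
    · rw [h, hLG, hsG]
      exact u4_int' g V V 0 le_rfl
    · rw [hL' i h, hs' i h]
      exact (hsL i (hFI i hi h)).1 _ _ le_rfl le_rfl
  · -- distances
    intro i hi j hj
    have hm1 : (2 : ℝ) ^ (F.ρ i) ≤ 2 ^ max (F.ρ i) (F.ρ j) :=
      Real.rpow_le_rpow_of_exponent_le (by norm_num) (le_max_left _ _)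
    have hm2 : (2 : ℝ) ^ (F.ρ j) ≤ 2 ^ max (F.ρ i) (F.ρ j) :=
      Real.rpow_le_rpow_of_exponent_le (by norm_num) (le_max_right _ _)
    have hGc : ((G : ℚ) : ℝ) = (Gn : ℝ) := by rw [hG]; push_cast; rfl
    by_cases h : i = G
    · by_cases h' : j = G
      · rw [h, h', sub_self, abs_zero]
        positivity
      · have h1 := hrpow j h'
        have h2 : |((i : ℚ) : ℝ) - j| = |(Gn : ℝ) - j| := by rw [h, hGc]
        have h3 : 0 ≤ |(Gn : ℝ) - j| := abs_nonneg _
        linarith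
    · by_cases h' : j = G
      · have h1 := hrpow i h
        have h2 : |((i : ℚ) : ℝ) - j| = |(Gn : ℝ) - i| := by rw [h', hGc, abs_sub_comm]
        have h3 : 0 ≤ |(Gn : ℝ) - i| := abs_nonneg _
        linarith
      · have h1 := hrpow i h
        have h2 := hrpow j h'
        have h3 : |((i : ℚ) : ℝ) - j| ≤ |(Gn : ℝ) - j| + |(Gn : ℝ) - i| := by
          have h4 : ((i : ℚ) : ℝ) - j = ((Gn : ℝ) - j) - ((Gn : ℝ) - i) := by ring
          rw [h4]
          exact abs_sub _ _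
        have h5 : 0 ≤ |(Gn : ℝ) - i| := abs_nonneg _
        have h6 : 0 ≤ |(Gn : ℝ) - j| := abs_nonneg _
        linarith
  · -- disjointness
    have main : ∀ i ∈ F.I, ∀ j ∈ F.I, i ≠ G → j ≠ G → i ≠ j → ∀ b, F.Alive th i b →
        F.Alive th j b → F.L i ≤ F.L j → (F.L i : ℝ) ≤ F.ρ j + th * b := by
      intro i hi j hj hiG hjG hij b hai haj hL
      by_contra hcon
      push Not at hcon
      have h1 := (hrho j hjG (F.L i) b).1 hcon
      have h2 := (hrho i hiG (F.L i) b).1 hai.2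
      have ha1 := hai.1
      have ha2 := haj.1
      rw [hs' i hiG] at ha1
      rw [hs' j hjG] at ha2
      have hi' := (hsL i (hFI i hi hiG)).1 (F.L i) b ha1 (le_of_eq (hL' i hiG))
      have hj' := (hsL j (hFI j hj hjG)).1 (F.L i) b ha2 (by rw [← hL' j hjG]; exact hL)
      exact hij (huniq i j _ b hi' hj' h2 h1)
    have mainG : ∀ j ∈ F.I, j ≠ G → ∀ b, F.Alive th j b → (F.L G : ℝ) ≤ F.ρ j + th * b := by
      intro j hj hjG b haj
      by_contra hcon
      push Not at hcon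
      rw [hLG] at hcon
      have h0 : F.ρ j + th * b < ((min V (F.L j) : ℕ) : ℝ) := by
        rcases le_total V (F.L j) with h | h
        · rw [min_eq_left h]; exact hcon
        · rw [min_eq_right h]; exact haj.2
      have h1 := (hrho j hjG _ b).1 h0
      have ha2 := haj.1
      rw [hs' j hjG] at ha2
      have hj' := (hsL j (hFI j hj hjG)).1 (min V (F.L j)) b ha2
        (by rw [← hL' j hjG]; exact min_le_right _ _)
      have hg' : IntAt G (min V (F.L j)) b := u4_int' g V _ b (min_le_left _ _)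
      refine hjG (huniq j G _ b hj' hg' h1 ?_)
      have hGc : ((G : ℚ) : ℝ) = (Gn : ℝ) := by rw [hG]; push_cast; rfl
      rw [hGc, sub_self, abs_zero, zero_mul, zero_mul]
      positivity
    intro i hi j hj hij b hai haj
    by_cases h : i = G
    · have hjG : j ≠ G := fun h' => hij (h.trans h'.symm)
      rw [h]
      exact Or.inl (mainG j hj hjG b haj)
    · by_cases h' : j = G
      · rw [h']
        exact Or.inr (mainG i hi h b hai)
      · rcases le_total (F.L i) (F.L j) with h1 | h1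
        · exact Or.inl (main i hi j hj h h' hij b hai haj h1)
        · exact Or.inr (main j hj i hi h' h hij.symm b haj hai h1)
  · -- membership
    exact mem_insert_self _ _
  · rw [hρG]
    linarith
  · intro i hi a b hb ha
    by_cases h : i = G
    · rw [h] at ha ⊢
      rw [hLG] at ha
      exact u4_int' g V a b ha
    · rw [hL' i h] at ha
      rw [hs' i h] at hb
      exact (hsL i (hFI i hi h)).1 _ _ hb ha
  · intro i _ h
    exact hρ' i h
  · -- uncovered cells
    rintro ⟨a, b⟩ hp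
    simp only [Unc2, mem_filter, mem_product, mem_Ioc, mem_Ico] at hp
    obtain ⟨⟨⟨ha1, ha2⟩, _, hb2⟩, hunc⟩ := hp
    simp only at hunc ⊢
    have hab : (a, b) ∈ reg := by
      rw [hreg, mem_product, mem_Ioc, mem_range]
      exact ⟨⟨ha1, ha2⟩, hb2⟩
    by_cases hsm : Sm Gn a b
    · set γ := gam (a, b) with hγ
      have hγG : γ ≠ G := hgamne (a, b) ha1
      have hγI : γ ∈ F.I := by
        simp only [hF, mem_insert, mem_image, mem_filter]
        exact Or.inr ⟨(a, b), ⟨hab, hsm⟩, rfl⟩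
      have hInt : IntAt γ a b := ⟨_, hgamInt (a, b)⟩
      obtain ⟨p1, p2, p3⟩ := hsL γ (hFI γ hγI hγG)
      have hcl : |(Gn : ℝ) - γ| * 8 * 3 ^ b < 2 ^ a := by
        rw [← close_iff (hgamInt (a, b))]
        obtain ⟨m, hm⟩ := hsm
        exact lt_of_le_of_lt (round_le _ _) hm
      have hsb := (p2 a b hInt).1
      have hρ := (hrho γ hγG a b).2 hcl
      have h0 : γ ≠ 0 := by
        intro h0
        have hL : L γ = cap := p3 h0
        have hs0 : s γ = 0 := by
          have := (p2 0 0 (by rw [h0]; exact ⟨0, by simp⟩)).1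
          omega
        refine hunc γ (mem_filter.2 ⟨hγI, ?_⟩) ⟨by rw [hs' γ hγG]; exact hsb, hρ, ?_⟩
        · unfold Faces.lam
          rw [hL' γ hγG, hs' γ hγG, hρ' γ hγG, hL, hs0, h0]
          have h1 : |(Gn : ℝ) - ((0 : ℚ) : ℝ)| = Gn := by
            rw [Rat.cast_zero, sub_zero, abs_of_pos (by linarith)]
          rw [h1, Nat.cast_zero, sub_zero, le_div_iff₀ th_pos, hcap]
          have h2 := Nat.le_ceil (Real.logb 2 ((Gn : ℝ) * 8) + th * w)
          push_cast
          have h3 : (0 : ℝ) ≤ A := Nat.cast_nonneg A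
          have h4 : (0 : ℝ) ≤ V := Nat.cast_nonneg V
          linarith
        · rw [hL' γ hγG, hL, hcap]
          omega
      have haL : a ≤ L γ := (p2 a b hInt).2 h0
      have hlam : F.lam th γ < w := by
        by_contra hcon
        push Not at hcon
        exact hunc γ (mem_filter.2 ⟨hγI, hcon⟩) ⟨by rw [hs' γ hγG]; exact hsb, hρ,
          by rw [hL' γ hγG]; exact haL⟩
      refine ⟨L γ + 1 - V, by omega, by omega, ?_, ?_⟩
      · have h1 : (F.L γ : ℝ) = F.ρ γ + th * F.s γ + th * F.lam th γ := by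
          unfold Faces.lam
          have := th_pos.ne'
          field_simp
          ring
        rw [hL' γ hγG, hs' γ hγG] at h1
        have h2 : th * s γ ≤ th * b := by
          have h3 : (s γ : ℝ) ≤ b := by exact_mod_cast hsb
          have := th_pos.le
          gcongr
        have h3 : th * F.lam th γ < th * w := mul_lt_mul_of_pos_left hlam th_pos
        have h4 : V + (L γ + 1 - V) = L γ + 1 := by omega
        rw [h4]
        push_cast
        linarith
      · intro hsm'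
        rw [← u4_sm g V (L γ + 1) b (by omega)] at hsm'
        obtain ⟨m, hm⟩ := hsm'
        obtain ⟨k, hk⟩ := p1 (L γ) b hsb le_rfl
        have h1 : F.ρ γ + th * b < (L γ : ℕ) := by
          have : (a : ℝ) ≤ L γ := by exact_mod_cast haL
          linarith
        have h2 := (hrho γ hγG (L γ) b).1 h1
        rw [← close_iff hk] at h2
        have h3 : (Gn : ℝ) * 3 ^ b / 2 ^ (L γ) = 2 * ((Gn : ℝ) * 3 ^ b / 2 ^ (L γ + 1)) := by
          rw [pow_succ]
          field_simp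
        rw [h3] at h2
        have h4 : |((2 * m - k : ℤ) : ℝ)| < 1 := by
          push_cast
          have h5 : 2 * (m : ℝ) - k = (2 * ((Gn : ℝ) * 3 ^ b / 2 ^ (L γ + 1)) - k) -
              2 * ((Gn : ℝ) * 3 ^ b / 2 ^ (L γ + 1) - m) := by ring
          rw [h5]
          refine lt_of_le_of_lt (abs_sub _ _) ?_
          rw [abs_mul, abs_two]
          linarith
        have h5 : k = 2 * m := by
          have h6 : |2 * m - k| < 1 := by exact_mod_cast h4
          rw [Int.abs_lt_one_iff] at h6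
          omega
        have h6 : IntAt γ (L γ + 1) b := ⟨m, by rw [hk, h5, pow_succ]; push_cast; ring⟩
        have := (p2 _ _ h6).2 h0
        omega
    · refine ⟨a - V, by omega, by omega, ?_, ?_⟩
      · have h1 : V + (a - V) = a := by omega
        rw [h1]
        have := mul_pos th_pos hwr
        linarith
      · rw [← u4_sm g V a b (by omega)]
        exact hsm

end MPcc0Tri3
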