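import Pool.Agent.Lib.MP_cc0c1a_nt.Tri3.SpecU
import Pool.Agent.Lib.MP_cc0c1a_nt.Tri3.U4
import Pool.Agent.Lib.MP_cc0c1a_nt.Tri3.Occ

set_option autoImplicit false

/-!
# MP_cc0c1a_nt / Tri3: every word occurs near every macroscopic path (helper60)
-/

open Finset
open scoped Classical
open Pool.Agent.Results.MP_cc0c1a_nt.SyndeticPositions (fin_eq_dig Config IsFin Shows F dig)

namespace MPcc0Tri3

open MPcc0Tri MPcc0Tri2

/-- Two large faces which cover the same cell are equal. -/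
lemma dis_eq {F : Faces ℚ} (hD : Dis F) {i k : ℚ} (hi : i ∈ F.I) (hk : k ∈ F.I) {a b : ℕ}
    (h1 : F.Cov th i a b) (h2 : F.Cov th k a b) : i = k := by
  by_contra hne
  obtain ⟨s1, r1, l1⟩ := h1
  obtain ⟨s2, r2, l2⟩ := h2
  have l1' : (a : ℝ) ≤ F.L i := by exact_mod_cast l1
  have l2' : (a : ℝ) ≤ F.L k := by exact_mod_cast l2
  rcases hD i hi k hk hne b ⟨s1, by linarith⟩ ⟨s2, by linarith⟩ with h | h <;> linarith

/-- A face which covers a cell of the hull is not `0`. -/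
lemma ne_zero_of_value {F : Faces ℚ} {g V H : ℕ} (hg : 0 < g) (hF : Arr F g V H) {i : ℚ}
    (hi : i ∈ F.I) {a b : ℕ} (hc : F.Cov th i a b) (hv : (2 : ℝ) ^ a ≤ 8 * ((g * 2 ^ V : ℕ) : ℝ) * 3 ^ b) :
    i ≠ 0 := by
  rintro rfl
  have hG : (0 : ℝ) < ((g * 2 ^ V : ℕ) : ℝ) := by
    have : 0 < g * 2 ^ V := by positivity
    exact_mod_cast this
  have hne : (0 : ℚ) ≠ ((g * 2 ^ V : ℕ) : ℚ) := by
    have : (0 : ℚ) < ((g * 2 ^ V : ℕ) : ℚ) := by
      have : 0 < g * 2 ^ V := by positivity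
      exact_mod_cast this
    exact this.ne
  have hr := hc.2.1
  rw [hF.rho 0 hi hne, Rat.cast_zero, sub_zero, abs_of_pos hG, logb_iff (by positivity)] at hr
  linarith

/-- A cell of a column `a > V` is not covered by `G`. -/
lemma ne_G {F : Faces ℚ} {g V H : ℕ} (hF : Arr F g V H) {i : ℚ} {a b : ℕ}
    (hc : F.Cov th i a b) (ha : V < a) : i ≠ ((g * 2 ^ V : ℕ) : ℚ) := by
  rintro rfl
  have := hc.2.2
  rw [hF.cls.Lg] at this
  omega

/-- The cells of the columns `a ≤ V` are covered by `G`. -/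
lemma cov_G {F : Faces ℚ} {g V H w : ℕ} (hF : Arr F g V H) (hw : w ≤ H) {a b : ℕ} (ha : a ≤ V)
    (hb : b ≤ H) : ((g * 2 ^ V : ℕ) : ℚ) ∈ F.big th w ∧ F.Cov th ((g * 2 ^ V : ℕ) : ℚ) a b := by
  have hr := hF.cls.rg
  have hth := th_pos
  have hb' : (b : ℝ) ≤ H := by exact_mod_cast hb
  have hw' : (w : ℝ) ≤ H := by exact_mod_cast hw
  refine ⟨?_, ?_, ?_, ?_⟩
  · unfold Faces.big
    rw [mem_filter]
    refine ⟨hF.cls.mem, ?_⟩
    unfold Faces.lam
    rw [hF.cls.Lg, hF.cls.sg, Nat.cast_zero, sub_zero, le_div_iff₀ hth]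
    have : (0 : ℝ) ≤ V := Nat.cast_nonneg V
    nlinarith
  · rw [hF.cls.sg]; exact Nat.zero_le _
  · have : (0 : ℝ) ≤ a := Nat.cast_nonneg a
    nlinarith
  · rw [hF.cls.Lg]; exact ha

/-- The extent of a face. -/
lemma cov_extent {F : Faces ℚ} {i : ℚ} {a b a' b' : ℕ} (h1 : F.Cov th i a b)
    (h2 : F.Cov th i a' b') {t : ℝ} (ht : F.lam th i ≤ t) :
    |(a : ℝ) - a'| ≤ 2 * t ∧ |(b : ℝ) - b'| ≤ t := by
  obtain ⟨s1, r1, l1⟩ := h1
  obtain ⟨s2, r2, l2⟩ := h2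
  have hth := th_pos
  have hth2 := th_lt
  have l1' : (a : ℝ) ≤ F.L i := by exact_mod_cast l1
  have l2' : (a' : ℝ) ≤ F.L i := by exact_mod_cast l2
  have s1' : (F.s i : ℝ) ≤ b := by exact_mod_cast s1
  have s2' : (F.s i : ℝ) ≤ b' := by exact_mod_cast s2
  have e : th * F.lam th i = F.L i - F.ρ i - th * F.s i := by
    unfold Faces.lam
    field_simp
  have hl : th * F.lam th i ≤ th * t := mul_le_mul_of_nonneg_left ht hth.le
  have m1 : th * F.s i ≤ th * b := mul_le_mul_of_nonneg_left s1' hth.le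
  have m2 : th * F.s i ≤ th * b' := mul_le_mul_of_nonneg_left s2' hth.le
  have ht0 : 0 ≤ t := by
    by_contra hcon
    push Not at hcon
    have : th * t < 0 := mul_neg_of_pos_of_neg hth hcon
    linarith
  have hm : th * t ≤ 2 * t := mul_le_mul_of_nonneg_right hth2.le ht0
  refine ⟨?_, ?_⟩
  · rw [abs_le]
    constructor <;> linarith
  · have k1 : th * (b - F.s i) ≤ th * t := by linarith
    have k2 : th * (b' - F.s i) ≤ th * t := by linarith
    have k1' := le_of_mul_le_mul_left k1 hth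
    have k2' := le_of_mul_le_mul_left k2 hth
    rw [abs_le]
    constructor <;> linarith

/-- The faces of the hull: the family of faces, and the statement that all cells near a cell of the
hull are covered by large faces if the word `w` does not occur nearby. -/
theorem path_core (hM : Mahler) (hC : Conn) (ℓ : ℕ) : ∃ C : ℕ, ∀ A r : ℕ, 0 < A →
    ∀ ε : ℝ, 0 < ε → ε ≤ 1 / 2 → ∃ N₀ : ℕ, ∀ (T : ℕ) (q : ℕ → ℕ × ℤ), N₀ ≤ (q 0).1 →
    (∀ t < T, |((q (t + 1)).1 : ℤ) - (q t).1| ≤ 1 ∧ |(q (t + 1)).2 - (q t).2| ≤ 1) →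
    (∀ t ≤ T, Inside (dig ((A : ℝ) / 6 ^ r)) (q t).1 (q t).2) →
    (∀ t ≤ T, 2 * |((q t).1 : ℤ) - (q 0).1| ≤ (q 0).1 + 2) →
    (ε * (q 0).1 ≤ |((q T).1 : ℝ) - (q 0).1| ∨ ε * (q 0).1 ≤ |((q T).2 : ℝ) - (q 0).2|) →
    ∀ w : Fin ℓ → Fin 6, ∃ t ≤ T, ∃ m : ℕ, ∃ j : ℤ, |(m : ℤ) - (q t).1| ≤ C ∧
      |j - (q t).2| ≤ C ∧ Shows (F^[m] (dig ((A : ℝ) / 6 ^ r))) j w := by
  obtain ⟨Q, C₁, hQ, hocc⟩ := occ ℓ
  refine ⟨C₁ + Q + 20, ?_⟩
  intro A r hA ε hε hε2
  obtain ⟨v, g0, hg0, hQN⟩ := Nat.exists_eq_two_pow_mul_odd (n := Q * A) (by positivity)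
  obtain ⟨NL, hNL⟩ := left_bound A
  obtain ⟨NM, hNM⟩ := hM g0 hg0.pos (ε / 16) (by positivity)
  refine ⟨4 * NL + NM + 8 * (C₁ + Q + r + 20), ?_⟩
  intro T q hq0 hstep hin hnear hfar w
  by_contra hcon
  push Not at hcon
  obtain ⟨n₀, hn₀⟩ : ∃ n₀ : ℕ, n₀ = (q 0).1 := ⟨_, rfl⟩
  obtain ⟨V, hV⟩ : ∃ V : ℕ, V = 4 * n₀ := ⟨_, rfl⟩
  rw [← hn₀] at hq0
  obtain ⟨Fc, hArr, hcov⟩ := u4 g0 hg0 3 V V V (by norm_num)
  have hDis := hArr.cls.dis
  have hthl := th_lt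
  have hthp := th_pos
  -- the cells of the path
  have hcell : ∀ t ≤ T, ∃ a b : ℕ, (a : ℤ) = V + ((q t).1 - (q t).2 + 1 + r - v) ∧
      (b : ℤ) = (q t).1 + (q t).2 - 1 - r ∧ V + 1 ≤ a + Q ∧ a + Q + 10 ≤ 2 * V ∧
      C₁ + Q + 10 ≤ b ∧ b + Q + 10 ≤ V ∧ (2 : ℝ) ^ a ≤ 8 * ((g0 * 2 ^ V : ℕ) : ℝ) * 3 ^ b := by
    intro t ht
    have h1 := hnear t ht
    rw [← hn₀] at h1
    have h1a : 2 * (((q t).1 : ℤ) - n₀) ≤ n₀ + 2 := by
      have := le_abs_self (((q t).1 : ℤ) - n₀)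
      omega
    have h1b : -(n₀ + 2 : ℤ) ≤ 2 * (((q t).1 : ℤ) - n₀) := by
      have := neg_abs_le (((q t).1 : ℤ) - n₀)
      omega
    obtain ⟨hl, hr⟩ := hin t ht
    have hl' := inside_left hl
    have h2 := hNL (q t).1 (by omega) r (q t).2 hl'
    have h3 : 0 ≤ ((q t).1 : ℤ) + (q t).2 - 1 - r := by omega
    have h4 := inside_right hQ hA hQN h3 hr
    obtain ⟨a, ha⟩ : ∃ a : ℕ, (a : ℤ) = V + ((q t).1 - (q t).2 + 1 + r - v) :=
      ⟨(V + ((q t).1 - (q t).2 + 1 + r - v) : ℤ).toNat, Int.toNat_of_nonneg (by omega)⟩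
    obtain ⟨b, hb⟩ : ∃ b : ℕ, (b : ℤ) = (q t).1 + (q t).2 - 1 - r :=
      ⟨((q t).1 + (q t).2 - 1 - r : ℤ).toNat, Int.toNat_of_nonneg h3⟩
    refine ⟨a, b, ha, hb, by omega, by omega, by omega, by omega, ?_⟩
    have hg1 : (1 : ℝ) ≤ g0 := by exact_mod_cast hg0.pos
    have h3b : (1 : ℝ) ≤ 3 ^ b := one_le_pow₀ (by norm_num)
    push_cast
    rcases le_or_gt V a with hVa | hVa
    · have hv := value_bound (Q := Q) (A := A) (r := r) (v := v) (g0 := g0) (n := (q t).1)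
        (a := a - V) (b := b) (j := (q t).2) hQN (by omega) hb hl'
      have e : (2 : ℝ) ^ a = 2 ^ V * 2 ^ (a - V) := by rw [← pow_add]; congr 1; omega
      have hQ1 : (1 : ℝ) ≤ Q := by exact_mod_cast hQ
      have h5 : (0 : ℝ) < 2 ^ (a - V) := by positivity
      have h6 : (2 : ℝ) ^ (a - V) ≤ Q * 2 ^ (a - V) := le_mul_of_one_le_left h5.le hQ1
      have h7 : (0 : ℝ) ≤ g0 * 3 ^ b := by positivity
      have h8 : (2 : ℝ) ^ (a - V) ≤ 8 * (g0 * 3 ^ b) := by linarith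
      rw [e]
      have h9 := mul_le_mul_of_nonneg_left h8 (by positivity : (0 : ℝ) ≤ 2 ^ V)
      linarith
    · have e : (2 : ℝ) ^ a ≤ 2 ^ V := pow_le_pow_right₀ (by norm_num) hVa.le
      have h5 : (1 : ℝ) ≤ g0 * 3 ^ b := one_le_mul_of_one_le_of_one_le hg1 h3b
      have h6 : (0 : ℝ) < 2 ^ V := by positivity
      nlinarith
  choose! a b ha hb h1 h2 h3 h4 h5 using hcell
  -- all cells near the path are covered
  have hcovered : ∀ t ≤ T, ∀ a' b' : ℕ, a t - (Q + 2) - 2 ≤ a' → a' ≤ a t + (Q + 2) + 3 →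
      b t - (Q + 2) ≤ b' → b' ≤ b t + (Q + 2) + 2 →
      ∃ i ∈ Fc.big th ((3 : ℕ) : ℝ), Fc.Cov th i a' b' := by
    intro t ht a' b' p1 p2 p3 p4
    have g1 := ha t ht
    have g2 := hb t ht
    have g3 := h1 t ht
    have g4 := h2 t ht
    have g5 := h3 t ht
    have g6 := h4 t ht
    rcases le_or_gt a' V with hc | hc
    · exact ⟨_, cov_G hArr (by omega) hc (by omega)⟩
    · by_contra hno
      push Not at hno
      have hmem : (a', b') ∈ Unc2 Fc ((3 : ℕ) : ℝ) V V 0 V := by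
        unfold Unc2
        rw [mem_filter, mem_product, mem_Ioc, mem_Ico]
        exact ⟨⟨⟨hc, by simp only; omega⟩, Nat.zero_le _, by simp only; omega⟩, hno⟩
      obtain ⟨α, k0, k1, k2, k3⟩ := hcov _ hmem
      have k2' : V + α ≤ a' + 7 := by
        have : ((V + α : ℕ) : ℝ) < ((a' + 8 : ℕ) : ℝ) := by
          push_cast
          push_cast at k2
          linarith
        have := Nat.cast_lt.1 this
        omega
      simp only at k1 k3
      obtain ⟨m, j, m1, m2, m3⟩ := hocc A r v g0 hA hQN α b' k0 (by omega) k3 w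
      rw [abs_le] at m1 m2
      refine hcon t ht m j ?_ ?_ m3
      · rw [abs_le]; push_cast; omega
      · rw [abs_le]; push_cast; omega
  -- one face in every box
  have hbox : ∀ t ≤ T, ∃ i ∈ Fc.big th ((3 : ℕ) : ℝ), ∀ a' b', a t - (Q + 2) ≤ a' →
      a' ≤ a t + (Q + 2) → b t - (Q + 2) ≤ b' → b' ≤ b t + (Q + 2) → Fc.Cov th i a' b' := by
    intro t ht
    have g3 := h1 t ht
    have g5 := h3 t ht
    exact hC Fc _ (a t - (Q + 2)) (a t + (Q + 2)) (b t - (Q + 2)) (b t + (Q + 2)) hDis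
      (by norm_num) (by omega) (by omega) (by omega) (hcovered t ht)
  obtain ⟨i, hi, hibox⟩ := hbox 0 (Nat.zero_le _)
  have hbigI : ∀ k ∈ Fc.big th ((3 : ℕ) : ℝ), k ∈ Fc.I := fun k hk => (mem_filter.1 hk).1
  have hall : ∀ t ≤ T, Fc.Cov th i (a t) (b t) := by
    intro t
    induction t with
    | zero => intro _; exact hibox _ _ (by omega) (by omega) (by omega) (by omega)
    | succ t ih =>
      intro ht
      obtain ⟨k, hk, hkbox⟩ := hbox (t + 1) ht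
      have g1 := ha t (by omega)
      have g2 := hb t (by omega)
      have g1' := ha (t + 1) ht
      have g2' := hb (t + 1) ht
      obtain ⟨s1, s2⟩ := hstep t (by omega)
      rw [abs_le] at s1 s2
      have hkt : Fc.Cov th k (a t) (b t) := hkbox _ _ (by omega) (by omega) (by omega) (by omega)
      have hki := dis_eq hDis (hbigI k hk) (hbigI i hi) hkt (ih (by omega))
      rw [← hki]
      exact hkbox _ _ (by omega) (by omega) (by omega) (by omega)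
  -- the face is neither `G` nor `0`
  have g3 := h1 0 (Nat.zero_le _)
  have g5 := h3 0 (Nat.zero_le _)
  have hiG : i ≠ ((g0 * 2 ^ V : ℕ) : ℚ) :=
    ne_G hArr (hibox (a 0 + Q) (b 0) (by omega) (by omega) (by omega) (by omega)) (by omega)
  have hi0 : i ≠ 0 := ne_zero_of_value hg0.pos hArr (hbigI i hi) (hall 0 (Nat.zero_le _))
    (h5 0 (Nat.zero_le _))
  have hlam := hNM V (by omega) Fc V V hArr le_rfl le_rfl i (hbigI i hi) hi0 hiG (a 0) (b 0)
    (by have := h4 0 (Nat.zero_le _); omega) (hall 0 (Nat.zero_le _))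
  obtain ⟨e1, e2⟩ := cov_extent (hall 0 (Nat.zero_le _)) (hall T le_rfl) hlam
  have hVr : (V : ℝ) = 4 * n₀ := by rw [hV]; push_cast; ring
  rw [hVr] at e1 e2
  have ga0 : (a 0 : ℝ) = V + ((q 0).1 - (q 0).2 + 1 + r - v) := by exact_mod_cast ha 0 (Nat.zero_le _)
  have gaT : (a T : ℝ) = V + ((q T).1 - (q T).2 + 1 + r - v) := by exact_mod_cast ha T le_rfl
  have gb0 : (b 0 : ℝ) = (q 0).1 + (q 0).2 - 1 - r := by exact_mod_cast hb 0 (Nat.zero_le _)
  have gbT : (b T : ℝ) = (q T).1 + (q T).2 - 1 - r := by exact_mod_cast hb T le_rfl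
  have hn0pos : (0 : ℝ) < n₀ := by
    have : 0 < n₀ := by omega
    exact_mod_cast this
  have hn₀r : (n₀ : ℝ) = (q 0).1 := by exact_mod_cast hn₀
  rw [abs_le] at e1 e2
  have hpos : 0 < ε * n₀ := by positivity
  rw [← hn₀r] at hfar
  rcases hfar with h | h
  · have : |((q T).1 : ℝ) - n₀| < ε * n₀ := by
      rw [abs_lt]
      constructor <;> linarith
    linarith
  · have : |((q T).2 : ℝ) - (q 0).2| < ε * n₀ := by
      rw [abs_lt]
      constructor <;> linarith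
    linarith

end MPcc0Tri3
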