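import Pool.Agent.Lib.MP_cc0c1a_nt.Tri3.Local
import Pool.Agent.Lib.MP_cc0c1a_nt.Tri3.Path

set_option autoImplicit false

/-!
# MP_cc0c1a_nt / Tri3: many occurrences near a cell which is not close to an integer (helper60)
-/

open Finset
open scoped Classical
open Pool.Agent.Results.MP_cc0c1a_nt.SyndeticPositions (fin_eq_dig Config IsFin Shows F dig)

namespace MPcc0Tri3

open MPcc0Tri MPcc0Tri2

lemma sm_shift (g V a b : ℕ) : Sm (g * 2 ^ V) (V + a) b ↔ Sm g a b := by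
  unfold Sm
  have h1 : ((g * 2 ^ V : ℕ) : ℝ) * 3 ^ b / 2 ^ (V + a) = (g : ℝ) * 3 ^ b / 2 ^ a := by
    rw [pow_add]
    push_cast
    have h3 : (2 : ℝ) ^ V ≠ 0 := by positivity
    have h4 : (2 : ℝ) ^ a ≠ 0 := by positivity
    field_simp
  rw [h1]

/-- A cell which is not close to an integer is not covered by any face. -/
lemma not_cov {F : Faces ℚ} {g V H : ℕ} (hF : Arr F g V H) {a b : ℕ} (ha : 0 < a)
    (h : ¬ Sm g a b) : ∀ i ∈ F.I, ¬ F.Cov th i (V + a) b := by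
  intro i hi hc
  have hG : i ≠ ((g * 2 ^ V : ℕ) : ℚ) := ne_G hF hc (by omega)
  obtain ⟨hs, hr, hL⟩ := hc
  obtain ⟨k, hk⟩ := hF.int i hi (V + a) b hs hL
  rw [hF.rho i hi hG] at hr
  have hpos : 0 < |((g * 2 ^ V : ℕ) : ℝ) - i| * 8 := by
    have : ((g * 2 ^ V : ℕ) : ℝ) - i ≠ 0 := by
      rw [sub_ne_zero]
      intro h'
      apply hG
      exact_mod_cast h'.symm
    positivity
  rw [logb_iff hpos, ← close_iff hk] at hr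
  exact h ((sm_shift g V a b).1 ⟨k, hr⟩)

/-- Many occurrences near a cell which is not close to an integer. -/
theorem rich (hU : UncBase) (hT : TriCount) (hG : GeoC) (ℓ : ℕ) (ε : ℝ) (hε : 0 < ε) (D Q C₁ : ℕ)
    (hocc : ∀ A r v g0 : ℕ, 0 < A → Q * A = 2 ^ v * g0 →
      ∀ a b : ℕ, 0 < a → C₁ ≤ b → ¬ Sm g0 a b → ∀ w : Fin ℓ → Fin 6, ∃ m : ℕ, ∃ j : ℤ,
        |(m : ℤ) - j + 1 + r - v - a| ≤ C₁ ∧ |(m : ℤ) + j - 1 - r - b| ≤ C₁ ∧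
          Shows (F^[m] (dig ((A : ℝ) / 6 ^ r))) j w) :
    ∃ c : ℝ, 0 < c ∧ ∃ H₀ : ℕ, ∀ A r v g0 : ℕ, 0 < A → Odd g0 → Q * A = 2 ^ v * g0 →
      ∀ (n : ℕ) (j : ℤ) (a b : ℕ), 0 < a → ¬ Sm g0 a b → |(n : ℤ) - j + 1 + r - v - a| ≤ D →
        |(n : ℤ) + j - 1 - r - b| ≤ D → ∀ H : ℕ, H₀ ≤ H → H ≤ b → ∀ w : Fin ℓ → Fin 6,
        ∃ S : Finset (ℕ × ℤ), c * (H : ℝ) ^ (2 - ε) ≤ (S.card : ℝ) ∧
          ∀ p ∈ S, |(p.1 : ℤ) - n| ≤ H ∧ |p.2 - j| ≤ H ∧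
            Shows (F^[p.1] (dig ((A : ℝ) / 6 ^ r))) p.2 w := by
  obtain ⟨w0, hw0, c0, hc0, q₀, hgeo⟩ := localGeo hU hT hG (min ε 1) (lt_min hε one_pos)
  obtain ⟨C3, hC3⟩ : ∃ C3 : ℕ, C3 = C₁ + 2 * w0 + 2 + D := ⟨_, rfl⟩
  obtain ⟨Cf, hCf⟩ : ∃ Cf : ℕ, Cf = C₁ + 2 * w0 + 1 := ⟨_, rfl⟩
  refine ⟨c0 / (4 ^ (2 - min ε 1) * (2 * Cf + 1) ^ 2), by positivity, 4 * q₀ + 4 * C3 + 8, ?_⟩
  intro A r v g0 hA hg0 hQN n j a b ha hsm hD1 hD2 H hH hHb w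
  obtain ⟨q, hq⟩ : ∃ q : ℕ, q = (H - C3) / 2 := ⟨_, rfl⟩
  obtain ⟨V, hV⟩ : ∃ V : ℕ, V = 4 * q := ⟨_, rfl⟩
  obtain ⟨A₀, hA₀⟩ : ∃ A₀ : ℕ, A₀ + 2 * q = V + a := ⟨V + a - 2 * q, by omega⟩
  obtain ⟨B₀, hB₀⟩ : ∃ B₀ : ℕ, B₀ + 2 * q = b := ⟨b - 2 * q, by omega⟩
  obtain ⟨Hr, hHr⟩ : ∃ Hr : ℕ, Hr = b + 2 * q + w0 := ⟨_, rfl⟩
  obtain ⟨Fc, hArr, hcov⟩ := u4 g0 hg0 w0 V (a + 2 * q) Hr hw0
  have hthl := th_lt
  have hthp := th_pos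
  have hcount := hgeo q (by omega) Fc A₀ B₀ hArr.cls.ari hArr.cls.dis (by omega) (by
    rw [hA₀, hB₀]
    exact not_cov hArr ha hsm)
  rw [abs_le] at hD1 hD2
  have hpt : ∀ p ∈ Unc3 Fc w0 A₀ (A₀ + 4 * q) B₀ (B₀ + 4 * q), ∃ z : ℕ × ℤ,
      (|(z.1 : ℤ) - n| ≤ H ∧ |z.2 - j| ≤ H ∧
        Shows (F^[z.1] (dig ((A : ℝ) / 6 ^ r))) z.2 w) ∧
      |(p.1 : ℤ) - ((z.1 : ℤ) - z.2 + 1 + r - v + V)| ≤ Cf ∧
      |(p.2 : ℤ) - ((z.1 : ℤ) + z.2 - 1 - r)| ≤ Cf := by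
    intro p hp
    unfold Unc3 at hp
    rw [mem_filter, mem_product, mem_Ioc, mem_Ico] at hp
    obtain ⟨⟨⟨p1, p2⟩, p3, p4⟩, p5⟩ := hp
    have hVp : V < p.1 := by
      by_contra hcon
      push Not at hcon
      obtain ⟨h1, h2⟩ := cov_G (w := w0) hArr (by omega) hcon (by omega : p.2 ≤ Hr)
      exact p5 _ h1 h2
    have hmem : p ∈ Unc2 Fc (w0 : ℝ) V (a + 2 * q) 0 Hr := by
      unfold Unc2
      rw [mem_filter, mem_product, mem_Ioc, mem_Ico]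
      exact ⟨⟨⟨hVp, by omega⟩, Nat.zero_le _, by omega⟩, p5⟩
    obtain ⟨α, k0, k1, k2, k3⟩ := hcov _ hmem
    have k2' : V + α ≤ p.1 + 2 * w0 + 1 := by
      have hw0r : (0 : ℝ) < w0 := by exact_mod_cast hw0
      have hm : th * w0 ≤ 2 * w0 := mul_le_mul_of_nonneg_right hthl.le hw0r.le
      have : ((V + α : ℕ) : ℝ) ≤ ((p.1 + 2 * w0 + 1 : ℕ) : ℝ) := by
        push_cast
        push_cast at k2
        linarith
      exact_mod_cast this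
    obtain ⟨m, i, m1, m2, m3⟩ := hocc A r v g0 hA hQN α p.2 k0 (by omega) k3 w
    rw [abs_le] at m1 m2
    refine ⟨(m, i), ⟨?_, ?_, m3⟩, ?_, ?_⟩
    · rw [abs_le]; simp only; omega
    · rw [abs_le]; simp only; omega
    · rw [abs_le]; simp only; omega
    · rw [abs_le]; simp only; omega
  choose! f hf1 hf2 hf3 using hpt
  refine ⟨(Unc3 Fc w0 A₀ (A₀ + 4 * q) B₀ (B₀ + 4 * q)).image f, ?_, ?_⟩
  · have h1 := count_fibre (Unc3 Fc w0 A₀ (A₀ + 4 * q) B₀ (B₀ + 4 * q)) Cf f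
      (fun z => (z.1 : ℤ) - z.2 + 1 + r - v + V) (fun z => (z.1 : ℤ) + z.2 - 1 - r)
      (fun p hp => ⟨hf2 p hp, hf3 p hp⟩)
    have h2 : ((Unc3 Fc w0 A₀ (A₀ + 4 * q) B₀ (B₀ + 4 * q)).card : ℝ) ≤ (2 * Cf + 1) ^ 2 *
        (((Unc3 Fc w0 A₀ (A₀ + 4 * q) B₀ (B₀ + 4 * q)).image f).card : ℝ) := by
      exact_mod_cast h1
    have h3 : (H : ℝ) / 4 ≤ q := by
      have : H ≤ 4 * q := by omega
      have h4 : (H : ℝ) ≤ ((4 * q : ℕ) : ℝ) := by exact_mod_cast this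
      push_cast at h4
      linarith
    have hm1 : min ε 1 ≤ ε := min_le_left _ _
    have hm2 : min ε 1 ≤ 1 := min_le_right _ _
    have hH1 : (1 : ℝ) ≤ H := by
      have : 1 ≤ H := by omega
      exact_mod_cast this
    have h4 : ((H : ℝ) / 4) ^ (2 - min ε 1) ≤ (q : ℝ) ^ (2 - min ε 1) :=
      Real.rpow_le_rpow (by positivity) h3 (by linarith)
    rw [Real.div_rpow (by positivity) (by norm_num)] at h4
    have h5 : (0 : ℝ) < (2 * Cf + 1) ^ 2 := by positivity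
    have h6 : (0 : ℝ) < 4 ^ (2 - min ε 1) := by positivity
    have h9 : (H : ℝ) ^ (2 - ε) ≤ (H : ℝ) ^ (2 - min ε 1) :=
      Real.rpow_le_rpow_of_exponent_le hH1 (by linarith)
    have h7 : c0 / (4 ^ (2 - min ε 1) * (2 * Cf + 1) ^ 2) * (H : ℝ) ^ (2 - min ε 1) =
        c0 * ((H : ℝ) ^ (2 - min ε 1) / 4 ^ (2 - min ε 1)) / (2 * Cf + 1) ^ 2 := by
      field_simp
    refine (mul_le_mul_of_nonneg_left h9 (by positivity)).trans ?_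
    rw [h7, div_le_iff₀ h5]
    have h8 := mul_le_mul_of_nonneg_left h4 hc0.le
    linarith
  · intro z hz
    rw [mem_image] at hz
    obtain ⟨p, hp, rfl⟩ := hz
    exact hf1 p hp

end MPcc0Tri3
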