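import Pool.Agent.Lib.MP_cc0c1a_nt.Tri2.SpecT

/-!
# MP_cc0c1a_nt / Tri3: windows and paths inside the space-time diagram

`Faces`, `Alive`, `Cov`, `lam`, `big` are in `Tri/Gap.lean`; `IntAt`, `th` in `Tri/Arith.lean`; `Ari`, `sz` in
`Tri2/SpecS.lean`; `Dis`, `Cls` in `Tri2/SpecT.lean`.  (from S8) in a docstring means: the theorem takes the
statement S8 (`SizeSum`) as a hypothesis.
-/

set_option autoImplicit false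

namespace MPcc0Tri3

open Finset MPcc0Tri MPcc0Tri2

/-- The faces of the array of `G = g 2^V`, in the rows `b ≤ H`. -/
structure Arr (F : Faces ℚ) (g V H : ℕ) : Prop where
  cls : Cls F ((g * 2 ^ V : ℕ) : ℚ) V H
  int : ∀ i ∈ F.I, ∀ a b, F.s i ≤ b → a ≤ F.L i → IntAt i a b
  rho : ∀ i ∈ F.I, i ≠ ((g * 2 ^ V : ℕ) : ℚ) →
    F.ρ i = Real.logb 2 (|((g * 2 ^ V : ℕ) : ℝ) - i| * 8)

/-- **U1, large faces** (from S8).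

Proof.  `G = g 2^V`, `R = log_2 (8 g)`.  Let `i ≠ 0, G` cover `(a, b)`, `b ≤ H`.
(1) `L_i ≤ V + log_2 (2g) + th b`: `i 3^b = k 2^(L_i)` (`IntAt i L_i b`) with `k ≠ 0`, so `2^(L_i) ≤ |i| 3^b`;
`|G - i| 8 3^b < 2^a ≤ 2^(L_i)` (`ρ_i + th b < a`, `rho`, `logb_iff`); so `2^(L_i) ≤ G 3^b + 2^(L_i)/8`,
`2^(L_i) ≤ 2 G 3^b`.
(2) `ρ_i ≥ 3 - th s_i ≥ - th H`: `i 3^(s_i)` is an integer (`IntAt i 0 s_i`), so `|G - i| 3^(s_i)` is a nonzero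
integer, `|G - i| 8 ≥ 8/3^(s_i)`; `s_i ≤ b ≤ H`.
Let `A = V + ⌈log_2 (2g)⌉₊ + ⌈th H⌉₊ + n`, `P = th H`.  The family `F₃`: `I = {0, G, i}` (three different
numbers, `G > 0`); `L = A, V, L_i`; `s = 0, 0, s_i`; `ρ = log_2 (8 G) = R + V, - P, ρ_i`.
`Ari F₃`: `IntAt 0 A 0`, `IntAt G V 0`, `IntAt i L_i s_i`; `|G - 0| ≤ 8 G = 2^(ρ 0)`,
`|G - i| = 2^(ρ_i)/8`, `|i - 0| ≤ |i - G| + G = (2^(ρ_i) + 2^(ρ 0))/8`.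
S8 for `N = 3`, `ε' = ε/14`, `J = I`, the triangle `(A, 0, - P)`, `τ = A + P ≥ n ≥ τ₀`:
`sz 0 = A - (R + V)`, `sz G = V + P`, `sz i = L_i - ρ_i - th s_i = th lam i` (by (1), (2)), so
`A - R - V + V + P + th lam i ≤ (1 + ε') (A + P)`: `th lam i ≤ ε' (A + P) + R` and
`A + P ≤ n + R + 1 + (2 n + 1) + n + 2 n ≤ 6 n + R + 2`.  For `n ≥ n₀(g, ε)` this is at most `ε n`
(`th ≥ 1`). -/
def Mahler : Prop :=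
  ∀ g : ℕ, 0 < g → ∀ ε : ℝ, 0 < ε → ∃ n₀ : ℕ, ∀ n : ℕ, n₀ ≤ n → ∀ (F : Faces ℚ) (V H : ℕ),
    Arr F g V H → V ≤ n → H ≤ n → ∀ i ∈ F.I, i ≠ 0 → i ≠ ((g * 2 ^ V : ℕ) : ℚ) →
      ∀ a b, b ≤ H → F.Cov th i a b → F.lam th i ≤ ε * n

/-- **U2, horizontal neighbours.**

Proof.  Write big for `F.big th w`; `1 < th < 2`.  `θ = th`.  No cell is covered by two different faces
(`Dis`).
(F1) `L_i = a`, otherwise `i` covers `(a + 1, b)`.  (F2) `a ≤ ρ_k + θ b < a + 1` (`Dis` in the row `b`).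
Suppose that all cells of the box `[a, a+3] × [b, b+2]` are covered by big faces.
(F3) The cell `(a+1, b+1)` is covered by a big `m`.  `m ≠ k`: `ρ_k + θ (b+1) ≥ a + θ > a + 1`; `m ≠ i`: `L_i = a`.
`s_m = b + 1`: otherwise `s_m ≤ b`, and `m` covers `(a+1, b)`, which is covered by `k`.  So
`L_m = ρ_m + θ (b+1) + θ lam m ≥ ρ_m + θ (b+1) + 3 θ`.
Lemma A.  If `i` and `k` are alive in the row `b+1`, this is impossible (so `(a+1, b+1)` is uncovered):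
`Dis` for `i, m` in the row `b+1`: `L_m ≤ ρ_i + θ (b+1) < a` is false, so `a ≤ ρ_m + θ (b+1)`,
`L_m ≥ a + 3 θ`; `Dis` for `k, m`: `L_k ≤ ρ_m + θ (b+1) < a + 1` is false, so
`L_m ≤ ρ_k + θ (b+1) < a + 1 + θ`, contradiction.  (State Lemma A as a separate lemma; it is used for
other cells below.)
Case 2: `i` is not alive in the row `b+1`: `ρ_i + θ (b+1) ≥ a`; since `lam i ≥ 3`, `s_i ≤ b - 2`, so `i` covers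
`(a, b-1)`.  So `s_k = b` (otherwise `ρ_k + θ (b-1) < a + 1 - θ < a`, and `k` covers `(a, b-1)`); `lam k ≥ 3`, so
`L_k ≥ ρ_k + θ b + 3 θ` and `k` is alive in the rows `b+1`, `b+2`; `m` is alive in the rows `b+1`, `b+2`.
`Dis` for `k, m` in the row `b+1`: `L_m ≤ ρ_k + θ (b+1) < a + 1 + θ < a + 3`; `L_m ≥ a + 1`, so
`L_m ∈ {a+1, a+2}`.  The cell `(L_m + 1, b+1)` is covered by a big `t ≠ m`.
If `t = k`: Lemma A for `m`, `k` and the cells `(L_m, b+1)`, `(L_m + 1, b+1)`: `(L_m + 1, b+2)` is uncovered.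
If `t ≠ k`: `Dis` for `t, k` in the row `b+1`: `L_k ≤ ρ_t + θ (b+1) < L_m + 1 ≤ ρ_k + θ (b+1) + 1` is false
(`L_k ≥ ρ_k + θ (b+1) + 2 θ`), so `L_t ≤ ρ_k + θ (b+1) < a + 1 + θ`.  `Dis` for `t, m`:
`L_m ≤ ρ_t + θ (b+1)` (`L_t > L_m ≥ a + 1 > ρ_m + θ (b+1)`).  So
`L_t - ρ_t - θ (b+1) < a + 1 + θ - (a + 1) = θ`, and `lam t ≥ 3` gives `s_t ≤ b`.  So `t` and `k` both cover
`(L_t, b)` (`ρ_k + θ b < a + 1 ≤ L_t ≤ ρ_k + θ (b+1) < L_k`), contradiction.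
Case 3: `i` is alive in the row `b+1`, `k` is not: `ρ_k + θ (b+1) ≥ L_k`, `lam k ≥ 3`, so `s_k ≤ b - 2` and `k` covers
`(a, b-1)` (`ρ_k + θ (b-1) < a + 1 - θ < a`).  So `s_i = b` (otherwise `i` covers `(a, b-1)`), `lam i ≥ 3`, so `i`
covers `(a, b+1)` and is alive in the row `b+2`; `m` too.  Lemma A for `i`, `m` and the cells `(a, b+1)`,
`(a+1, b+1)`: `(a+1, b+2)` is uncovered. -/
def Horiz : Prop :=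
  ∀ (F : Faces ℚ) (w : ℝ) (i k : ℚ) (a b : ℕ), Dis F → 3 ≤ w → i ∈ F.big th w →
    k ∈ F.big th w → i ≠ k → F.Cov th i a b → F.Cov th k (a + 1) b →
    ∃ a' b' : ℕ, a ≤ a' ∧ a' ≤ a + 3 ∧ b ≤ b' ∧ b' ≤ b + 2 ∧
      ∀ m ∈ F.big th w, ¬ F.Cov th m a' b'

/-- **U3, one face in a box** (from U2).

Proof.  Neighbouring cells of the box `[a₀, a₁] × [b₀, b₁]` are covered by the same face:
horizontal neighbours by U2; vertical neighbours `(a, b)`, `(a, b+1)` covered by `i ≠ k`: `i` does not cover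
`(a, b+1)`, so `ρ_i + th (b+1) ≥ a` and `(a-2, b)` is not covered by `i` (`th < 2`); it is covered by some
`m ≠ i`; the cell `(a-1, b)` is covered by some `m'`; `m' ≠ m` or `m' ≠ i`, so U2 for the cells
`(a-2, b), (a-1, b)` or `(a-1, b), (a, b)` gives an uncovered cell in
`[a-2, a+2] × [b, b+2]`, contradiction.  Then go from `(a₀, b₀)` to any cell of the box (induction on the
row, then on the column); a cell is covered by only one face (`Dis`). -/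
def Conn : Prop :=
  ∀ (F : Faces ℚ) (w : ℝ) (a₀ a₁ b₀ b₁ : ℕ), Dis F → 3 ≤ w → 2 ≤ a₀ → a₀ ≤ a₁ → b₀ ≤ b₁ →
    (∀ a b, a₀ - 2 ≤ a → a ≤ a₁ + 3 → b₀ ≤ b → b ≤ b₁ + 2 → ∃ i ∈ F.big th w, F.Cov th i a b) →
    ∃ i ∈ F.big th w, ∀ a b, a₀ ≤ a → a ≤ a₁ → b₀ ≤ b → b ≤ b₁ → F.Cov th i a b

/-! ## Windows -/

open Classical in
/-- The cells of the window `A₀ < a ≤ A₁`, `B₀ ≤ b < B₁` not covered by faces of life at least `w`. -/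
noncomputable def Unc3 (F : Faces ℚ) (w : ℝ) (A₀ A₁ B₀ B₁ : ℕ) : Finset (ℕ × ℕ) :=
  ((Ioc A₀ A₁) ×ˢ (Ico B₀ B₁)).filter fun p => ∀ i ∈ F.big th w, ¬ F.Cov th i p.1 p.2

open Classical in
/-- The points of the bases of faces of life at least `w`, well inside the window; `n` is the
margin. -/
noncomputable def Base3 (F : Faces ℚ) (w : ℝ) (n A₀ A₁ B₀ B₁ : ℕ) : Finset (ℚ × ℕ) :=
  ((F.big th w) ×ˢ (range B₁)).filter fun z => F.Alive th z.1 z.2 ∧ B₀ + n ≤ z.2 ∧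
    z.2 + 3 * n ≤ B₁ ∧ A₀ + 4 * n ≤ F.L z.1 ∧ F.L z.1 + ⌈th * n⌉₊ ≤ A₁

/-- **V1, one scale in a window** (from T1, T6, T7; a variant of T8, copy its proof).

Proof.  `M = max 1 ⌈8 K⌉₊`, `w₀` = maximum of those of T6, T7 and `1`; `n = M w ≥ 1`.  For
`z = (i, b') ∈ Base3` let `U(z)` be the uncovered cells of `tri (L_i + ⌈th n⌉₊) (b' - n) (..)`: `≥ n²` (T6;
`n + w ≤ 2 n ≤ B₀ + n ≤ b'`, `4 (n + w) ≤ 8 n ≤ A₀ ≤ L_i`).  `U(z) ⊆ Unc3`: rows `≥ b' - n ≥ B₀`; the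
life of the triangle is at most `3 n + 1/th`, so rows `≤ b' + 2 n < b' + 3 n ≤ B₁`; columns
`≤ L_i + ⌈th n⌉₊ ≤ A₁`; columns `> L_i - th b' - th n + th b ≥ L_i - 2 th n ≥ L_i - 4 n ≥ A₀` (as
`b ≥ b' - n`).  Every cell `(a, b)` of `Unc3` lies in at most `8 n` of the `U(z)` (T7:
`2 n + w ≤ 3 n ≤ B₀ ≤ b`, `8 n + 4 w + 2 ≤ 20 n ≤ A₀ < a`).  So `n² #Base3 ≤ 8 n #Unc3`. -/
def OneScale3 : Prop :=
  ∀ K : ℝ, 0 < K → ∃ M w₀ : ℕ, 1 ≤ M ∧ 1 ≤ w₀ ∧ ∀ w : ℕ, w₀ ≤ w →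
    ∀ (F : Faces ℚ) (A₀ A₁ B₀ B₁ : ℕ), Ari F → Dis F → 3 * (M * w) ≤ B₀ → 20 * (M * w) ≤ A₀ →
      K * w * ((Base3 F w (M * w) A₀ A₁ B₀ B₁).card : ℝ) ≤ ((Unc3 F w A₀ A₁ B₀ B₁).card : ℝ)

/-- **V2, splitting by scales in a window** (a variant of T9, copy its proof).

Proof.  `n_m = M 2^m`; the window at the scale `m` is `A₀ + 8 n_m < a ≤ A₁ - 8 n_m`,
`B₀ + 4 n_m ≤ b < B₁ - 8 n_m`; `Z_m` = `Base3` for it.  Let `p = (a, b)` be an element of the left `Unc3`, not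
in `Unc3 F 2^m₀ A₀ A₁ B₀ B₁`: it is covered by some `i` with `2^m₀ ≤ lam i < 2^k`; let `m₀ ≤ m < k` with
`2^m ≤ lam i < 2^(m+1)`.  `z = (i, b) ∈ Z_m`: `i` is alive in the row `b`;
`B₀ + 4 n_m + n_m ≤ B₀ + 8 n_m ≤ B₀ + 4 n_k ≤ b` (`n_k ≥ 2 n_m`);
`b + 3 n_m ≤ B₁ - 8 n_k + 3 n_m ≤ B₁ - 8 n_m`; `A₀ + 8 n_m + 4 n_m ≤ A₀ + 8 n_k < a ≤ L_i`;
`L_i ≤ a + th lam i ≤ A₁ - 8 n_k + 4 · 2^m` (`a > ρ_i + th b ≥ ρ_i + th s_i = L_i - th lam i`), so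
`L_i + ⌈th n_m⌉₊ ≤ A₁ - 16 n_m + 4 n_m + 2 n_m + 1 ≤ A₁ - 8 n_m`.
The number of cells of the row `b` covered by `i` is at most
`L_i - ρ_i - th b + 1 ≤ th lam i + 1 ≤ 5 · 2^m`. -/
def Split3 : Prop :=
  ∀ (F : Faces ℚ) (A₀ A₁ B₀ B₁ M m₀ k : ℕ), 1 ≤ M → m₀ ≤ k → A₀ + 32 * (M * 2 ^ k) ≤ A₁ →
    B₀ + 32 * (M * 2 ^ k) ≤ B₁ →
    ((Unc3 F (2 ^ k : ℕ) (A₀ + 8 * (M * 2 ^ k)) (A₁ - 8 * (M * 2 ^ k)) (B₀ + 4 * (M * 2 ^ k))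
        (B₁ - 8 * (M * 2 ^ k))).card : ℝ) ≤
      ((Unc3 F (2 ^ m₀ : ℕ) A₀ A₁ B₀ B₁).card : ℝ) +
        ∑ m ∈ Ico m₀ k, 5 * (2 : ℝ) ^ m * ((Base3 F (2 ^ m : ℕ) (M * 2 ^ m)
          (A₀ + 8 * (M * 2 ^ m)) (A₁ - 8 * (M * 2 ^ m)) (B₀ + 4 * (M * 2 ^ m))
          (B₁ - 8 * (M * 2 ^ m))).card : ℝ)

/-- **V3, all scales in a window** (from V1, V2).

Proof.  We may assume `ε ≤ 1` (`q^(2-ε) ≤ q^(2-1)` for `ε ≥ 1`, `q ≥ 1`).  `K = 5/(2^ε - 1)`, so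
`1 + 5/K = 2^ε`; `M, w₀` from V1; `δ = 1/(16 M)`; `m₀` with `2^m₀ ≥ w₀`; `w = 2^m₀`, `c = κ`.
`A₁ = A₀ + 4 q`, `B₁ = B₀ + 4 q`, `n_m = M 2^m`.  `k₁` is maximal with `8 M 2^(k₁) ≤ q`; `k₁ ≥ m₀` for
`q ≥ 8 M 2^m₀`; `2^(k₁) > q/(16 M) = δ q`.  For `m₀ ≤ k ≤ k₁` V1 can be applied to the window at the scale
`k` (see V2): `3 n_k ≤ B₀ + 4 n_k`, `20 n_k ≤ A₀ + 8 n_k` (`12 n_k ≤ 2 q ≤ A₀`).  With
`U = #Unc3 F 2^m₀ A₀ A₁ B₀ B₁`, `z_m = #Base3` at the scale `m`, `S_k = U + ∑_(m ∈ Ico m₀ k) 5 · 2^m z_m`: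
`K 2^k z_k ≤ #Unc3 (scale k) ≤ S_k` (V1, V2; `32 n_k ≤ 4 q`), so `S_(k+1) ≤ (1 + 5/K) S_k = 2^ε S_k`,
`S_(k₁) ≤ 2^(ε k₁) U`.  The cells of the hypothesis lie in `Unc3 (scale k₁)`: `8 n_(k₁) ≤ q`, and a face
of life `≥ 2^(k₁)` has life `≥ δ q`.  So `κ q² ≤ S_(k₁) ≤ 2^(ε k₁) U ≤ q^ε U`. -/
def GeoC : Prop :=
  ∀ ε : ℝ, 0 < ε → ∃ δ : ℝ, 0 < δ ∧ ∀ κ : ℝ, 0 < κ → ∃ w : ℕ, 0 < w ∧ ∃ c : ℝ, 0 < c ∧
    ∃ q₀ : ℕ, ∀ q : ℕ, q₀ ≤ q → ∀ (F : Faces ℚ) (A₀ B₀ : ℕ), Ari F → Dis F → 2 * q ≤ A₀ →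
      κ * (q : ℝ) ^ 2 ≤
        ((Unc3 F (δ * q) (A₀ + q) (A₀ + 3 * q) (B₀ + q) (B₀ + 3 * q)).card : ℝ) →
      c * (q : ℝ) ^ (2 - ε) ≤ ((Unc3 F w A₀ (A₀ + 4 * q) B₀ (B₀ + 4 * q)).card : ℝ)

/-- **V4, the top scale** (from S8, T1, T2, T4).

Proof.  `A = A₀ + 3 q`, `B = B₀ + q`, `ρ = A - th q - th B`, so `(A - ρ)/th - B = q`, `ρ + th B = A - th q ≥ 0`.
`tri A B ρ` lies in the window `(A₀ + q, A₀ + 3 q] × [B₀ + q, B₀ + 3 q)`: `ρ + th b < a ≤ A` gives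
`b < B + q`, and `a > A - th q ≥ A₀ + q` (`th < 2`).  `w = ⌊min δ 1 · q⌋₊ ≥ min δ 1 · q/2 ≥ 1` for large `q`.
`J` = faces of life `≥ δ q` which cover a cell of `tri A B ρ`; they have life `≤ q/4` (hypothesis) and
`sz ≥ 0` (T2).  T4 (`w ≤ q ≤ B`; `0 ≤ A - th q - 2 th w` since `A ≥ 7 q`):
`#J ≤ 18 (q + 3 w + 1)²/w² ≤ N(δ)`.  S8 with `N`, `ε = 1/10` (`th q ≥ τ₀`): with `λ_j = max 0 sz_j / th ≤ q/4`
(`sz_j ≤ th lam j`): `∑_(j ∈ J) λ_j ≤ (11/10) q`.  T2: the number of covered cells of `tri A B ρ` is at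
most `∑_(j ∈ J) (th λ_j²/2 + (th + 2)(λ_j + 1)) ≤ (th/2)(q/4)(11/10) q + 4 ((11/10) q + N)`, and
`#tri ≥ th q²/2` (T1).  The difference is at least `(29/80) th q² - 5 q - 4 N ≥ q²/4` for `q ≥ q₀(δ)`
(`th ≥ 1`). -/
def TopUnc : Prop :=
  ∀ δ : ℝ, 0 < δ → ∃ q₀ : ℕ, ∀ q : ℕ, q₀ ≤ q → ∀ (F : Faces ℚ) (A₀ B₀ : ℕ), Ari F → Dis F →
    4 * q ≤ A₀ →
    (∀ i ∈ F.big th (δ * q), ∀ a b, A₀ + q < a → a ≤ A₀ + 3 * q → B₀ + q ≤ b → b < B₀ + 3 * q →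
      F.Cov th i a b → F.lam th i ≤ q / 4) →
    (q : ℝ) ^ 2 / 4 ≤
      ((Unc3 F (δ * q) (A₀ + q) (A₀ + 3 * q) (B₀ + q) (B₀ + 3 * q)).card : ℝ)

end MPcc0Tri3
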